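import Pool.Agent.H68.MB.Turn

/-!
# Bad hubs do not occur; alive sets have at least three unclaimed points

`hot_le`: if the potential is `< 1` then every alive set has `hot + 2 ≤ h`.
Proof.  Suppose `A ∈ F` alive and `hot A ≥ h - 1 ≥ r (R'+1) t + 1`.  Let
`Q` be the set of all `A0` with `St v = some A0`, `unrel P A A0` for some `v ∈ A`.  Each `A0 ∈ Q`
accounts for at most `#(A ∩ A0) < t` points `v` (by `RecOK`, `v ∈ A0`), so `#Q ≥ r (R'+1)`.
Take a maximal subset `Q1 ⊆ Q` with pairwise `#(A0 ∩ A0') < t'`; every member of `Q` is in `Q1` or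
close to (`t' ≤ #(A0 ∩ A0')`) a member of `Q1`, and each member has at most `R'` close members
(`ncl`), so `#Q ≤ #Q1 (R'+1)` and `#Q1 ≥ r`.  Choose exactly `r` of them and for each a point `v`.
Then `T = (A, σ)` is a valid hub structure all of whose spokes are frozen, so
`wT T = w0 * c^r ≥ 1`, contradiction to `Phi ≤ v < 1` (all weights are nonnegative).

`three_le`: `wt A ≥ W #(A \ M)`, `W 0 = 1`, `W 1 ≥ 1/2`, `W 2 ≥ 1/4` (by `Wg`) and `Wanti`.
-/

namespace Pool.H68.MB

open Finset
open scoped Classical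

variable {X : Type*} [DecidableEq X] {S : Finset X} {F : Finset (Finset X)} {P : Par}
  {k D L R R' : ℕ} {θ τ : ℝ}

theorem K_ge (H : Hyp S F P k D L R R' θ τ) : 1 ≤ P.K := by
  have h1 := H.δpos
  have h2 := H.δle
  have h3 := H.Kδ
  by_contra hc
  push Not at hc
  have h4 : P.K * P.δ < 1 * P.δ := mul_lt_mul_of_pos_right hc h1
  linarith

theorem mult_ge (H : Hyp S F P k D L R R' θ τ) (s : State X) (A : Finset X) :
    1 ≤ mult F P s A := by
  unfold mult
  exact one_le_mul_of_one_le_of_one_le (one_le_pow₀ (K_ge H)) (one_le_pow₀ (by norm_num))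

theorem wt_nonneg' (H : Hyp S F P k D L R R' θ τ) (s : State X) (A : Finset X) :
    0 ≤ wt F P s A := by
  unfold wt
  split_ifs
  · exact mul_nonneg (zero_le_one.trans (mult_ge H s A)) (H.Wpos _).le
  · exact le_rfl

theorem sw_nonneg' (H : Hyp S F P k D L R R' θ τ) (s : State X) (σ : Finset (Spoke X))
    (e : Spoke X) : 0 ≤ sw F P s σ e := by
  have hc : 0 ≤ P.c := zero_le_one.trans H.c1
  unfold sw
  split_ifs
  · exact hc
  · exact mul_nonneg (mul_nonneg hc (zero_le_one.trans (mult_ge H s _))) (H.apos _).le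
  · exact le_rfl

theorem wT_nonneg' (H : Hyp S F P k D L R R' θ τ) (s : State X) (T : Hub X) :
    0 ≤ wT F P s T := by
  unfold wT
  split_ifs
  · exact mul_nonneg H.w0pos.le (Finset.prod_nonneg fun e _ => sw_nonneg' H s _ e)
  · exact le_rfl

theorem wt_le_Phi (H : Hyp S F P k D L R R' θ τ) (s : State X) {A : Finset X} (hA : A ∈ F) :
    wt F P s A ≤ Phi S F P s := by
  unfold Phi
  have h1 := Finset.single_le_sum (f := fun A => wt F P s A) (fun A _ => wt_nonneg' H s A) hA
  have h2 : 0 ≤ ∑ T ∈ hubs S F P, wT F P s T := Finset.sum_nonneg fun T _ => wT_nonneg' H s T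
  linarith

theorem wT_le_Phi (H : Hyp S F P k D L R R' θ τ) (s : State X) {T : Hub X}
    (hT : T ∈ hubs S F P) : wT F P s T ≤ Phi S F P s := by
  unfold Phi
  have h1 := Finset.single_le_sum (f := fun T => wT F P s T) (fun T _ => wT_nonneg' H s T) hT
  have h2 : 0 ≤ ∑ A ∈ F, wt F P s A := Finset.sum_nonneg fun A _ => wt_nonneg' H s A
  linarith

/-- greedy choice of hot spokes -/
theorem exists_spokes (H : Hyp S F P k D L R R' θ τ) {s : State X} (hrec : RecOK F s)
    {A : Finset X} (hbig : P.r * (R' + 1) * P.t < hot P s A) :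
    ∀ j ≤ P.r, ∃ σ : Finset (Spoke X), #σ = j ∧
      (∀ e ∈ σ, e.2 ∈ A ∧ s.St e.2 = some e.1 ∧ unrel P A e.1) ∧
      (∀ e ∈ σ, ∀ e' ∈ σ, e ≠ e' → e.1 ≠ e'.1 ∧ e.2 ≠ e'.2 ∧ #(e.1 ∩ e'.1) < P.t') := by
  intro j
  induction j with
  | zero =>
    intro _
    exact ⟨∅, by simp, by simp, by simp⟩
  | succ j ih =>
    intro hj
    obtain ⟨σ, hσ, h1, h2⟩ := ih (by omega)
    set Hp : Finset X := A.filter (fun v => ∃ A0, s.St v = some A0 ∧ unrel P A A0) with hHp
    have hHpc : #Hp = hot P s A := rfl
    -- the bad sets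
    set bad : Spoke X → Finset (Finset X) := fun e =>
      insert e.1 (F.filter (fun A' => P.t' ≤ #(e.1 ∩ A'))) with hbad
    have hbadc : ∀ e ∈ σ, #(bad e) ≤ R' + 1 := by
      intro e he
      refine (Finset.card_insert_le _ _).trans ?_
      have := H.ncl e.1 (hrec _ _ (h1 e he).2.1).1
      omega
    set U : Finset X := σ.biUnion (fun e => (bad e).biUnion
      (fun A' => Hp.filter (fun v => s.St v = some A'))) with hU
    have hUc : #U ≤ j * ((R' + 1) * P.t) := by
      refine (Finset.card_biUnion_le).trans ?_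
      have h3 : ∀ e ∈ σ, #((bad e).biUnion (fun A' => Hp.filter (fun v => s.St v = some A'))) ≤
          (R' + 1) * P.t := by
        intro e he
        refine (Finset.card_biUnion_le).trans ?_
        have h4 : ∀ A' ∈ bad e, #(Hp.filter (fun v => s.St v = some A')) ≤ P.t := by
          intro A' _
          by_cases hne : (Hp.filter (fun v => s.St v = some A')).Nonempty
          · obtain ⟨w, hw⟩ := hne
            rw [Finset.mem_filter, hHp, Finset.mem_filter] at hw
            obtain ⟨⟨hwA, A0, hw0, hun⟩, hw'⟩ := hw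
            have e1 : A0 = A' := by
              rw [hw0] at hw'
              exact Option.some.inj hw'
            subst e1
            refine le_trans (Finset.card_le_card ?_) hun.2.le
            intro u hu
            rw [Finset.mem_filter, hHp, Finset.mem_filter] at hu
            rw [Finset.mem_inter]
            exact ⟨hu.1.1, (hrec _ _ hu.2).2.1⟩
          · rw [Finset.not_nonempty_iff_eq_empty] at hne
            rw [hne]
            simp
        refine (Finset.sum_le_sum h4).trans ?_
        rw [Finset.sum_const, smul_eq_mul]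
        exact Nat.mul_le_mul_right _ (hbadc e he)
      refine (Finset.sum_le_sum h3).trans ?_
      rw [Finset.sum_const, smul_eq_mul, hσ]
    have hlt : #U < #Hp := by
      rw [hHpc]
      refine lt_of_le_of_lt (hUc.trans ?_) hbig
      rw [mul_assoc]
      exact Nat.mul_le_mul_right _ (by omega)
    obtain ⟨w, hwH, hwU⟩ : ∃ w ∈ Hp, w ∉ U := by
      by_contra hc
      push Not at hc
      exact absurd (Finset.card_le_card (fun x hx => hc x hx : Hp ⊆ U)) (not_le.2 hlt)
    have hwH' := hwH
    rw [hHp, Finset.mem_filter] at hwH'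
    obtain ⟨hwA, A0, hw0, hun⟩ := hwH'
    have hgood : ∀ e ∈ σ, A0 ∉ bad e := by
      intro e he hc
      apply hwU
      rw [hU, Finset.mem_biUnion]
      refine ⟨e, he, ?_⟩
      rw [Finset.mem_biUnion]
      exact ⟨A0, hc, Finset.mem_filter.2 ⟨hwH, hw0⟩⟩
    have hne : ∀ e ∈ σ, e.1 ≠ A0 ∧ e.2 ≠ w ∧ #(e.1 ∩ A0) < P.t' := by
      intro e he
      have h3 := hgood e he
      rw [hbad] at h3
      simp only [Finset.mem_insert, Finset.mem_filter, not_or, not_and, not_le] at h3
      refine ⟨fun h => h3.1 h.symm, ?_, h3.2 (hrec _ _ hw0).1⟩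
      intro h4
      apply h3.1
      have h5 := (h1 e he).2.1
      rw [h4, hw0] at h5
      exact Option.some.inj h5
    refine ⟨insert (A0, w) σ, ?_, ?_, ?_⟩
    · rw [Finset.card_insert_of_notMem, hσ]
      intro hc
      exact (hne _ hc).1 rfl
    · intro e he
      rcases Finset.mem_insert.1 he with rfl | he
      · exact ⟨hwA, hw0, hun⟩
      · exact h1 e he
    · intro e he e' he' hee
      rcases Finset.mem_insert.1 he with rfl | he
      · rcases Finset.mem_insert.1 he' with rfl | he'
        · exact absurd rfl hee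
        · have := hne e' he'
          refine ⟨fun h => this.1 h.symm, fun h => this.2.1 h.symm, ?_⟩
          rw [Finset.inter_comm]
          exact this.2.2
      · rcases Finset.mem_insert.1 he' with rfl | he'
        · exact hne e he
        · exact h2 e he e' he' hee

theorem hot_le (H : Hyp S F P k D L R R' θ τ) {s : State X} {v : ℝ} (hs : Inv S F P s v)
    (hv : v < 1) : ∀ A ∈ F, Disjoint A s.B → hot P s A + 2 ≤ P.h := by
  intro A hA hAB
  by_contra hc
  have hbad := H.bad
  have hbig : P.r * (R' + 1) * P.t < hot P s A := by omega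
  obtain ⟨hrec, _, l, hl, _, hle⟩ := hs
  obtain ⟨σ, hσ, h1, h2⟩ := exists_spokes H hrec hbig P.r le_rfl
  have hT : ((A, σ) : Hub X) ∈ hubs S F P := by
    unfold hubs
    rw [Finset.mem_filter, Finset.mem_product, Finset.mem_powerset]
    refine ⟨⟨hA, fun e he => ?_⟩, hA, hσ.le, fun e he => ?_, h2⟩
    · rw [Finset.mem_product]
      exact ⟨(hrec _ _ (h1 e he).2.1).1, H.sub A hA (h1 e he).1⟩
    · have h3 := h1 e he
      have h4 := hrec _ _ h3.2.1
      exact ⟨h4.1, h4.2.1, h3.1, h3.2.2⟩
  have hw : wT F P s (A, σ) = P.w0 * P.c ^ P.r := by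
    unfold wT
    rw [if_pos hAB]
    congr 1
    rw [Finset.prod_congr rfl (g := fun _ => P.c), Finset.prod_const, hσ]
    intro e he
    unfold sw
    rw [if_pos (h1 e he).2.1]
  have h3 := wT_le_Phi H s hT
  rw [hw] at h3
  have h4 := H.hub
  linarith

theorem three_le (H : Hyp S F P k D L R R' θ τ) {s : State X} {v : ℝ} (hs : Inv S F P s v)
    (hv : v < 1 / 8) : ∀ A ∈ F, Disjoint A s.B → 3 ≤ #(A \ s.M) := by
  intro A hA hAB
  by_contra hc
  obtain ⟨hrec, _, l, hl, _, hle⟩ := hs
  have h1 := wt_le_Phi H s hA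
  have h2 : wt F P s A = mult F P s A * P.W #(A \ s.M) := by
    unfold wt
    rw [if_pos hAB]
  have hW0 := H.W0
  have hδ := H.δpos
  have hW1 := H.Wg 0
  have hW2 := H.Wg 1
  have hp1 := H.Wpos 1
  have hp2 := H.Wpos 2
  have hanti : Antitone P.W := antitone_nat_of_succ_le H.Wanti
  have h3 : P.W 2 ≤ P.W #(A \ s.M) := hanti (by omega)
  have h4 : (1 : ℝ) / 4 ≤ P.W 2 := by
    norm_num at hW1 hW2
    have h5 : (2 - P.δ) * P.W 1 ≤ 2 * P.W 1 := mul_le_mul_of_nonneg_right (by linarith) hp1.le
    have h6 : (2 - P.δ) * P.W 2 ≤ 2 * P.W 2 := mul_le_mul_of_nonneg_right (by linarith) hp2.le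
    linarith
  have h5 : P.W #(A \ s.M) ≤ mult F P s A * P.W #(A \ s.M) :=
    le_mul_of_one_le_left (H.Wpos _).le (mult_ge H s A)
  linarith

end Pool.H68.MB
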