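import Pool.Agent.H68.MB.Turn

/-!
# Growth of single weights under Maker's two moves

`s1 = afterM F P s ch y z`.  Maker's move does not change `Disjoint A B` nor `nrel`.
For `A` alive let `n = #({y,z} ∩ A)`; `#(A \ s1.M) = #(A \ s.M) - n`, and
`hot s1 A = hot s A + #{v ∈ {y,z} ∩ A : hotpt v, unrel P A (ch v)}` (by `RecOK`, `s.St y` and
`s.St z` are `none` since `y, z ∉ s.M`).  `W` grows by at most `2 - δ` per point (`Wg`), and by
`3/2 - δ` when going from `u+1` to `u` with `u ≥ j1` (`Wg'`).  If `A` is hot and `v ∈ A` then `v` is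
a hot point.  `unrel P A (ch v)` is the negation of `A = ch v ∨ rel P A (ch v)`, and then the
counter gives a factor `1/2` (`hot + 2 ≤ h`, so no truncation in `h - hot`).
-/

namespace Pool.H68.MB

open Finset
open scoped Classical

variable {X : Type*} [DecidableEq X] {S : Finset X} {F : Finset (Finset X)} {P : Par}
  {k D L R R' : ℕ} {θ τ : ℝ}

/-- `1` if `v` is a hot point of `A` hit through an unrelated set, `0` otherwise -/
noncomputable def nn (F : Finset (Finset X)) (P : Par) (s : State X) (ch : X → Finset X)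
    (A : Finset X) (v : X) : ℕ := if v ∈ A ∧ hotpt F P s v ∧ unrel P A (ch v) then 1 else 0

theorem nn_le (s : State X) (ch : X → Finset X) (A : Finset X) (v : X) :
    nn F P s ch A v ≤ 1 := by
  unfold nn
  split_ifs <;> omega

theorem mem_free {S : Finset X} {s : State X} {y : X} (hy : y ∈ free S s) :
    y ∈ S ∧ y ∉ s.M ∧ y ∉ s.B := by
  simpa [free, not_or] using hy

/-- the number of hot hits after Maker's move -/
theorem hot_after {s : State X} (hrec : RecOK F s) {ch : X → Finset X} {y z : X} (hyz : y ≠ z)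
    (hy : y ∉ s.M) (hz : z ∉ s.M) (A : Finset X) :
    hot P s A + (nn F P s ch A y + nn F P s ch A z) ≤ hot P (afterM F P s ch y z) A := by
  have hyn : ∀ A0, s.St y ≠ some A0 := fun A0 h => hy (hrec y A0 h).2.2
  have hzn : ∀ A0, s.St z ≠ some A0 := fun A0 h => hz (hrec z A0 h).2.2
  set H0 : Finset X := {v ∈ A | ∃ A0, s.St v = some A0 ∧ unrel P A A0} with hH0
  set Ey : Finset X := if y ∈ A ∧ hotpt F P s y ∧ unrel P A (ch y) then {y} else ∅ with hEy
  set Ez : Finset X := if z ∈ A ∧ hotpt F P s z ∧ unrel P A (ch z) then {z} else ∅ with hEz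
  have cy : #Ey = nn F P s ch A y := by
    rw [hEy]; unfold nn; split_ifs <;> simp
  have cz : #Ez = nn F P s ch A z := by
    rw [hEz]; unfold nn; split_ifs <;> simp
  have sy : Ey ⊆ {y} := by
    rw [hEy]; split_ifs <;> simp
  have sz : Ez ⊆ {z} := by
    rw [hEz]; split_ifs <;> simp
  have hyH : y ∉ H0 := by
    intro h
    obtain ⟨_, A0, h1, _⟩ := mem_filter.1 h
    exact hyn A0 h1
  have hzH : z ∉ H0 := by
    intro h
    obtain ⟨_, A0, h1, _⟩ := mem_filter.1 h
    exact hzn A0 h1
  have d1 : Disjoint H0 Ey := by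
    rw [Finset.disjoint_right]
    intro v hv
    rw [mem_singleton.1 (sy hv)]
    exact hyH
  have d2 : Disjoint (H0 ∪ Ey) Ez := by
    rw [Finset.disjoint_right]
    intro v hv
    rw [mem_singleton.1 (sz hv), mem_union, not_or]
    exact ⟨hzH, fun h => hyz (mem_singleton.1 (sy h)).symm⟩
  have hc : #(H0 ∪ Ey ∪ Ez) = hot P s A + (nn F P s ch A y + nn F P s ch A z) := by
    rw [card_union_of_disjoint d2, card_union_of_disjoint d1, cy, cz, add_assoc]
    rfl
  rw [← hc]
  unfold hot
  refine card_le_card (fun v hv => ?_)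
  rw [mem_filter]
  rcases mem_union.1 hv with hv | hv
  · rcases mem_union.1 hv with hv | hv
    · obtain ⟨h1, A0, h2, h3⟩ := mem_filter.1 hv
      refine ⟨h1, A0, ?_, h3⟩
      have hne : ¬ (v = y ∨ v = z) := by
        rintro (h | h)
        · exact hyH (h ▸ hv)
        · exact hzH (h ▸ hv)
      simp only [afterM, if_neg hne]
      exact h2
    · have hvy := mem_singleton.1 (sy hv)
      rw [hEy] at hv
      split_ifs at hv with h
      · subst hvy
        refine ⟨h.1, ch v, ?_, h.2.2⟩
        simp [afterM, h.2.1]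
      · exact absurd hv (notMem_empty _)
  · have hvz := mem_singleton.1 (sz hv)
    rw [hEz] at hv
    split_ifs at hv with h
    · subst hvz
      refine ⟨h.1, ch v, ?_, h.2.2⟩
      simp [afterM, h.2.1]
    · exact absurd hv (notMem_empty _)

theorem K_pos (H : Hyp S F P k D L R R' θ τ) : 0 < P.K := by
  have h1 := H.toNum.Kδ
  have h2 := H.toNum.δpos
  by_contra h
  have : P.K * P.δ ≤ 0 := mul_nonpos_of_nonpos_of_nonneg (not_lt.1 h) h2.le
  linarith

/-- the multiplier after Maker's move -/
theorem mult_after (H : Hyp S F P k D L R R' θ τ) {s : State X} (hrec : RecOK F s)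
    {ch : X → Finset X} {y z : X} (hyz : y ≠ z) (hy : y ∉ s.M) (hz : z ∉ s.M) {A : Finset X}
    (hh : hot P s A + 2 ≤ P.h) :
    mult F P (afterM F P s ch y z) A * 2 ^ (nn F P s ch A y + nn F P s ch A z) ≤
      mult F P s A := by
  have h1 := hot_after (P := P) hrec (ch := ch) hyz hy hz A
  have h2 := nn_le (F := F) (P := P) s ch A y
  have h3 := nn_le (F := F) (P := P) s ch A z
  unfold mult
  have e : nrel F P (afterM F P s ch y z) A = nrel F P s A := rfl
  rw [e, mul_assoc, ← pow_add]
  refine mul_le_mul_of_nonneg_left ?_ (pow_nonneg (K_pos H).le _)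
  exact pow_le_pow_right₀ (by norm_num) (by omega)

theorem mult_pos (H : Hyp S F P k D L R R' θ τ) (s : State X) (A : Finset X) :
    0 < mult F P s A := by
  unfold mult
  exact mul_pos (pow_pos (K_pos H) _) (pow_pos (by norm_num) _)

/-- the number of unclaimed points of a set after Maker's move -/
theorem card_after (s : State X) (ch : X → Finset X) {y z : X} (hyz : y ≠ z) (hy : y ∉ s.M)
    (hz : z ∉ s.M) (A : Finset X) :
    #(A \ s.M) = #(A \ (afterM F P s ch y z).M) + ((if y ∈ A then 1 else 0) +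
      (if z ∈ A then 1 else 0)) := by
  have e : A \ (afterM F P s ch y z).M = ((A \ s.M).erase z).erase y := by
    simp only [afterM, sdiff_insert]
  rw [e]
  have h1 : #((A \ s.M).erase z) + (if z ∈ A then 1 else 0) = #(A \ s.M) := by
    split_ifs with h
    · exact card_erase_add_one (mem_sdiff.2 ⟨h, hz⟩)
    · rw [erase_eq_of_notMem (fun h' => h (mem_sdiff.1 h').1), add_zero]
  have h2 : #(((A \ s.M).erase z).erase y) + (if y ∈ A then 1 else 0) = #((A \ s.M).erase z) := by
    split_ifs with h
    · exact card_erase_add_one (mem_erase.2 ⟨hyz, mem_sdiff.2 ⟨h, hy⟩⟩)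
    · rw [erase_eq_of_notMem (fun h' => h (mem_sdiff.1 (mem_erase.1 h').2).1), add_zero]
  omega

theorem rhoS_one_le (H : Hyp S F P k D L R R' θ τ) (s : State X) (ch : X → Finset X) (v : X)
    (A : Finset X) : 1 ≤ rhoS F P s ch v A := by
  have h1 := H.toNum.δle
  unfold rhoS
  split_ifs <;> linarith

/-- the factor of a point of `A` which is hot -/
theorem fac_hot (H : Hyp S F P k D L R R' θ τ) {s : State X} {ch : X → Finset X} {v : X}
    {A : Finset X} (hv : v ∈ A) (hh : hotpt F P s v) :
    2 - P.δ ≤ 2 ^ nn F P s ch A v * rhoS F P s ch v A := by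
  have h1 := H.toNum.δle
  have h2 := H.toNum.δpos
  unfold rhoS
  rw [if_neg (not_not.2 hv), if_pos hh]
  split_ifs with h
  · have h3 : (1 : ℝ) ≤ 2 ^ nn F P s ch A v := one_le_pow₀ (by norm_num)
    nlinarith
  · have h3 : nn F P s ch A v = 1 := by
      unfold nn
      rw [if_pos]
      refine ⟨hv, hh, ?_⟩
      unfold RS rel at h
      push Not at h
      have h4 := h hv
      refine ⟨fun h5 => h4.1 h5.symm, ?_⟩
      exact h4.2 (fun h5 => h4.1 h5.symm)
    rw [h3]
    linarith

theorem growS (H : Hyp S F P k D L R R' θ τ) {s : State X} (hrec : RecOK F s)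
    (hh : ∀ A ∈ F, Disjoint A s.B → hot P s A + 2 ≤ P.h)
    {ch : X → Finset X} (hch : ChOK F P s ch) {y z : X} (hyz : y ≠ z)
    (hy : y ∈ free S s) (hz : z ∈ free S s) {A : Finset X} (hA : A ∈ F)
    (hn : ¬ (nonhot P s A ∧ y ∈ A ∧ z ∈ A)) :
    wt F P (afterM F P s ch y z) A ≤ rhoS F P s ch y A * rhoS F P s ch z A * wt F P s A := by
  obtain ⟨_, hyM, hyB⟩ := mem_free hy
  obtain ⟨_, hzM, hzB⟩ := mem_free hz
  have hδ := H.toNum.δle
  have hδ0 := H.toNum.δpos
  have ry := rhoS_one_le H s ch y A
  have rz := rhoS_one_le H s ch z A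
  unfold wt
  by_cases hd : Disjoint A s.B
  swap
  · have hd' : ¬ Disjoint A (afterM F P s ch y z).B := hd
    rw [if_neg hd, if_neg hd', mul_zero]
  have hd' : Disjoint A (afterM F P s ch y z).B := hd
  rw [if_pos hd, if_pos hd']
  have hm := mult_after H hrec (ch := ch) hyz hyM hzM (hh A hA hd)
  have hm0 := mult_pos H (afterM F P s ch y z) A
  have hc := card_after (F := F) (P := P) s ch hyz hyM hzM A
  set u1 := #(A \ (afterM F P s ch y z).M) with hu1
  set u0 := #(A \ s.M) with hu0
  have hW0 := H.toNum.Wpos u0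
  -- the key inequality
  have key : P.W u1 ≤ (2 ^ nn F P s ch A y * rhoS F P s ch y A) *
      (2 ^ nn F P s ch A z * rhoS F P s ch z A) * P.W u0 := by
    have hcold : ∀ v, v ∈ A → ¬ hotpt F P s v → nonhot P s A := by
      intro v hv h
      by_contra h'
      exact h ⟨A, hA, hd, h', hv⟩
    -- one point
    have one : ∀ v, v ∈ A → u0 = u1 + 1 →
        P.W u1 ≤ (2 ^ nn F P s ch A v * rhoS F P s ch v A) * P.W u0 := by
      intro v hv hu
      by_cases hhot : hotpt F P s v
      · have h1 := fac_hot H (ch := ch) hv hhot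
        refine (H.toNum.Wg u1).trans ?_
        rw [hu] at hW0 ⊢
        exact mul_le_mul_of_nonneg_right h1 hW0.le
      · have h1 := hcold v hv hhot
        have h2 : P.j1 ≤ u1 := by
          unfold nonhot at h1
          omega
        refine (H.toNum.Wg' u1 h2).trans ?_
        rw [hu] at hW0 ⊢
        refine mul_le_mul_of_nonneg_right ?_ hW0.le
        have h3 : rhoS F P s ch v A = 3 / 2 - P.δ := by
          unfold rhoS
          rw [if_neg (not_not.2 hv), if_neg hhot]
        rw [h3]
        have h4 : (1 : ℝ) ≤ 2 ^ nn F P s ch A v := one_le_pow₀ (by norm_num)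
        nlinarith
    have out : ∀ v, v ∉ A → 2 ^ nn F P s ch A v * rhoS F P s ch v A = 1 := by
      intro v hv
      unfold nn rhoS
      rw [if_neg (fun h => hv h.1), if_pos hv]
      norm_num
    by_cases hyA : y ∈ A <;> by_cases hzA : z ∈ A
    · have hhot : ¬ nonhot P s A := fun h => hn ⟨h, hyA, hzA⟩
      have h1 := fac_hot H (ch := ch) hyA ⟨A, hA, hd, hhot, hyA⟩
      have h2 := fac_hot H (ch := ch) hzA ⟨A, hA, hd, hhot, hzA⟩
      rw [if_pos hyA, if_pos hzA] at hc
      have hu : u0 = (u1 + 1) + 1 := by omega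
      have h3 := H.toNum.Wg u1
      have h4 := H.toNum.Wg (u1 + 1)
      rw [← hu] at h4
      have h5 : (2 - P.δ) * (2 - P.δ) ≤ (2 ^ nn F P s ch A y * rhoS F P s ch y A) *
          (2 ^ nn F P s ch A z * rhoS F P s ch z A) :=
        mul_le_mul h1 h2 (by linarith) (by linarith)
      have h6 : P.W u1 ≤ (2 - P.δ) * (2 - P.δ) * P.W u0 := by
        refine h3.trans ?_
        rw [mul_assoc]
        exact mul_le_mul_of_nonneg_left h4 (by linarith)
      exact h6.trans (mul_le_mul_of_nonneg_right h5 hW0.le)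
    · rw [if_pos hyA, if_neg hzA] at hc
      rw [out z hzA, mul_one]
      exact one y hyA (by omega)
    · rw [if_neg hyA, if_pos hzA] at hc
      rw [out y hyA, one_mul]
      exact one z hzA (by omega)
    · rw [if_neg hyA, if_neg hzA] at hc
      rw [out y hyA, out z hzA, one_mul, one_mul]
      have : u1 = u0 := by omega
      rw [this]
  calc mult F P (afterM F P s ch y z) A * P.W u1
      ≤ mult F P (afterM F P s ch y z) A * ((2 ^ nn F P s ch A y * rhoS F P s ch y A) *
        (2 ^ nn F P s ch A z * rhoS F P s ch z A) * P.W u0) :=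
        mul_le_mul_of_nonneg_left key hm0.le
    _ = (rhoS F P s ch y A * rhoS F P s ch z A * P.W u0) *
        (mult F P (afterM F P s ch y z) A * 2 ^ (nn F P s ch A y + nn F P s ch A z)) := by
        rw [pow_add]; ring
    _ ≤ (rhoS F P s ch y A * rhoS F P s ch z A * P.W u0) * mult F P s A := by
        refine mul_le_mul_of_nonneg_left hm ?_
        exact mul_nonneg (mul_nonneg (by linarith) (by linarith)) hW0.le
    _ = rhoS F P s ch y A * rhoS F P s ch z A * (mult F P s A * P.W u0) := by ring

theorem growS4 (H : Hyp S F P k D L R R' θ τ) {s : State X} (hrec : RecOK F s)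
    (hh : ∀ A ∈ F, Disjoint A s.B → hot P s A + 2 ≤ P.h)
    {ch : X → Finset X} (hch : ChOK F P s ch) {y z : X} (hyz : y ≠ z)
    (hy : y ∈ free S s) (hz : z ∈ free S s) {A : Finset X} (hA : A ∈ F) :
    wt F P (afterM F P s ch y z) A ≤ 4 * wt F P s A := by
  obtain ⟨_, hyM, hyB⟩ := mem_free hy
  obtain ⟨_, hzM, hzB⟩ := mem_free hz
  have hδ := H.toNum.δle
  have hδ0 := H.toNum.δpos
  unfold wt
  by_cases hd : Disjoint A s.B
  swap
  · have hd' : ¬ Disjoint A (afterM F P s ch y z).B := hd
    rw [if_neg hd, if_neg hd', mul_zero]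
  have hd' : Disjoint A (afterM F P s ch y z).B := hd
  rw [if_pos hd, if_pos hd']
  have hm := mult_after H hrec (ch := ch) hyz hyM hzM (hh A hA hd)
  have hm0 := mult_pos H (afterM F P s ch y z) A
  have hc := card_after (F := F) (P := P) s ch hyz hyM hzM A
  set u1 := #(A \ (afterM F P s ch y z).M) with hu1
  set u0 := #(A \ s.M) with hu0
  have hW0 := H.toNum.Wpos u0
  have hm' : mult F P (afterM F P s ch y z) A ≤ mult F P s A := by
    refine le_trans ?_ hm
    have h4 : (1 : ℝ) ≤ 2 ^ (nn F P s ch A y + nn F P s ch A z) := one_le_pow₀ (by norm_num)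
    nlinarith
  have step : ∀ u, P.W u ≤ 2 * P.W (u + 1) := by
    intro u
    refine (H.toNum.Wg u).trans ?_
    exact mul_le_mul_of_nonneg_right (by linarith) (H.toNum.Wpos _).le
  have key : P.W u1 ≤ 4 * P.W u0 := by
    have h1 := step u1
    have h2 := step (u1 + 1)
    have h3 := H.toNum.Wpos u1
    have h4 := H.toNum.Wpos (u1 + 1)
    have h5 : u0 = u1 ∨ u0 = u1 + 1 ∨ u0 = u1 + 1 + 1 := by
      split_ifs at hc <;> omega
    rcases h5 with h | h | h
    · rw [h]; linarith
    · rw [h]; linarith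
    · rw [h]; linarith
  calc mult F P (afterM F P s ch y z) A * P.W u1
      ≤ mult F P (afterM F P s ch y z) A * (4 * P.W u0) :=
        mul_le_mul_of_nonneg_left key hm0.le
    _ ≤ mult F P s A * (4 * P.W u0) := mul_le_mul_of_nonneg_right hm' (by linarith)
    _ = 4 * (mult F P s A * P.W u0) := by ring

end Pool.H68.MB
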