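import Pool.Agent.H68.MB.GrowS

/-!
# Growth of hub structure weights under Maker's two moves

`s1 = afterM F P s ch y z`.  For a spoke `e = (A, v')` of `T = (B0, σ)`:
* frozen before (`s.St v' = some A`): then `v' ∈ s.M`, so `v' ≠ y, z`, weight `c` before and after.
* not frozen, `v' ∈ {y, z}`: if `hotpt v'` and `ch v' = A` then it becomes frozen (weight `c`);
  before it had weight `c * mult * a #(core \ M)` with `mult ≥ 1` and `a = 1` because
  `#(core \ M) ≤ #(A \ M) ≤ j1`; otherwise the weight becomes `0`.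
* not frozen, `v' ∉ s1.M`, `A` alive: weight changes by
  `a (u - n) / a u * 2^-(number of v ∈ {y,z} ∩ A with hotpt v and unrel P A (ch v))` with
  `u = #(core \ s.M)`, `n = #({y,z} ∩ core)`, and `a (u - n) / a u ≤ ρ^n` where `ρ = 1` if
  `u ≤ j1`, `4/3` if `u ≤ j2`, `3/2 - δ` in general.
* otherwise the weight is `0` after Maker's move.
The cores of different spokes are disjoint, so at most one spoke has `v` in its core; hence the
product of the factors is at most `rhoT y T * rhoT z T`.  (A hot hit by an unrelated set costs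
`(3/2 - δ)/2 ≤ 1`.)
-/

namespace Pool.H68.MB

open Finset
open scoped Classical

variable {X : Type*} [DecidableEq X] {S : Finset X} {F : Finset (Finset X)} {P : Par}
  {k D L R R' : ℕ} {θ τ : ℝ}

/-- the growth factor of the spoke `e` at the point `v` -/
noncomputable def fac (F : Finset (Finset X)) (P : Par) (s s1 : State X) (ch : X → Finset X)
    (σ : Finset (Spoke X)) (v : X) (e : Spoke X) : ℝ :=
  if unf s1 e ∧ v ∈ core σ e.1 then
    (if hotpt F P s v then (if e.1 = ch v ∨ rel P e.1 (ch v) then 3 / 2 - P.δ else 1)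
    else (if P.j2 < #(core σ e.1 \ s.M) then 3 / 2 - P.δ
      else if P.j1 < #(core σ e.1 \ s.M) then 4 / 3 else 1))
  else 1

theorem fac_one_le (H : Hyp S F P k D L R R' θ τ) (s s1 : State X) (ch : X → Finset X)
    (σ : Finset (Spoke X)) (v : X) (e : Spoke X) : 1 ≤ fac F P s s1 ch σ v e := by
  have h1 := H.toNum.δle
  unfold fac
  split_ifs <;> linarith

theorem rhoT_one_le (H : Hyp S F P k D L R R' θ τ) (s s1 : State X) (ch : X → Finset X)
    (v : X) (T : Hub X) : 1 ≤ rhoT F P s s1 ch v T := by
  have h1 := H.toNum.δle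
  unfold rhoT
  split_ifs <;> linarith

theorem core_subset (σ : Finset (Spoke X)) (A : Finset X) : core σ A ⊆ A := sdiff_subset

/-- the product of the growth factors at `v` -/
theorem prod_fac (H : Hyp S F P k D L R R' θ τ) (s s1 : State X) (ch : X → Finset X)
    (v : X) {T : Hub X} (hT : T ∈ hubs S F P) :
    ∏ e ∈ T.2, fac F P s s1 ch T.2 v e ≤ rhoT F P s s1 ch v T := by
  have hδ := H.toNum.δle
  have hV : ValidHub F P T := (mem_filter.1 hT).2
  by_cases h : ∃ e0 ∈ T.2, unf s1 e0 ∧ v ∈ core T.2 e0.1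
  · obtain ⟨e0, he0, hu0, hv0⟩ := h
    rw [prod_eq_single e0]
    · unfold fac
      rw [if_pos ⟨hu0, hv0⟩]
      unfold rhoT
      by_cases hhot : hotpt F P s v
      · rw [if_pos hhot, if_pos hhot]
        by_cases hr : e0.1 = ch v ∨ rel P e0.1 (ch v)
        · have hRT : RT P s1 ch v T := ⟨e0, he0, hu0, hv0, hr⟩
          rw [if_pos hr, if_pos hRT]
        · rw [if_neg hr]
          split_ifs <;> linarith
      · rw [if_neg hhot, if_neg hhot]
        by_cases h2 : P.j2 < #(core T.2 e0.1 \ s.M)
        · have hCT : CT P s s1 v T := ⟨e0, he0, hu0, hv0, h2⟩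
          rw [if_pos h2, if_pos hCT]
        · rw [if_neg h2]
          by_cases h1 : P.j1 < #(core T.2 e0.1 \ s.M)
          · have hW : WmT P s s1 v T := ⟨e0, he0, hu0, hv0, h1, not_lt.1 h2⟩
            rw [if_pos h1, if_pos hW]
            split_ifs <;> linarith
          · rw [if_neg h1]
            split_ifs <;> linarith
    · intro e he hne
      unfold fac
      rw [if_neg]
      rintro ⟨_, hv⟩
      have h1 := (hV.2.2.2 e0 he0 e he (Ne.symm hne)).1
      have h2 : v ∈ e0.1 := core_subset _ _ hv0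
      unfold core at hv
      rw [mem_sdiff, mem_biUnion] at hv
      exact hv.2 ⟨e0, mem_filter.2 ⟨he0, h1⟩, h2⟩
    · intro h
      exact absurd he0 h
  · have h1 : ∏ e ∈ T.2, fac F P s s1 ch T.2 v e = 1 := by
      refine prod_eq_one (fun e he => ?_)
      unfold fac
      rw [if_neg]
      rintro ⟨h2, h3⟩
      exact h ⟨e, he, h2, h3⟩
    rw [h1]
    exact rhoT_one_le H s s1 ch v T

theorem sw_nonneg (H : Hyp S F P k D L R R' θ τ) (s : State X) (σ : Finset (Spoke X))
    (e : Spoke X) : 0 ≤ sw F P s σ e := by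
  have h1 := H.toNum.c1
  unfold sw
  split_ifs
  · linarith
  · exact mul_nonneg (mul_nonneg (by linarith) (mult_pos H s e.1).le) (H.toNum.apos _).le
  · exact le_rfl

/-- growth of the function `a` -/
theorem a_grow (H : Hyp S F P k D L R R' θ τ) {u0 u1 n : ℕ} (hn : n ≤ 2) (hu : u0 = u1 + n) :
    P.a u1 ≤ (if P.j2 < u0 then 3 / 2 - P.δ else if P.j1 < u0 then 4 / 3 else 1) ^ n *
      P.a u0 := by
  have hδ := H.toNum.δle
  have hpos := H.toNum.apos
  split_ifs with h2 h1
  · have st : ∀ u, P.a u ≤ (3 / 2 - P.δ) * P.a (u + 1) := H.toNum.ag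
    interval_cases n
    · rw [hu]; simp
    · rw [hu]
      simpa using st u1
    · rw [hu]
      have h3 := st u1
      have h4 := st (u1 + 1)
      calc P.a u1 ≤ (3 / 2 - P.δ) * P.a (u1 + 1) := h3
        _ ≤ (3 / 2 - P.δ) * ((3 / 2 - P.δ) * P.a (u1 + 1 + 1)) :=
          mul_le_mul_of_nonneg_left h4 (by linarith)
        _ = (3 / 2 - P.δ) ^ 2 * P.a (u1 + 2) := by ring
  · have st : ∀ u, u < P.j2 → P.a u ≤ 4 / 3 * P.a (u + 1) := H.toNum.ag'
    interval_cases n
    · rw [hu]; simp
    · rw [hu]
      simpa using st u1 (by omega)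
    · rw [hu]
      have h3 := st u1 (by omega)
      have h4 := st (u1 + 1) (by omega)
      calc P.a u1 ≤ 4 / 3 * P.a (u1 + 1) := h3
        _ ≤ 4 / 3 * (4 / 3 * P.a (u1 + 1 + 1)) :=
          mul_le_mul_of_nonneg_left h4 (by norm_num)
        _ = (4 / 3) ^ 2 * P.a (u1 + 2) := by ring
  · rw [H.toNum.a1 u0 (by omega), H.toNum.a1 u1 (by omega)]
    simp

/-- growth of a spoke -/
theorem sw_grow (H : Hyp S F P k D L R R' θ τ) {s : State X} (hrec : RecOK F s)
    (hh : ∀ A ∈ F, Disjoint A s.B → hot P s A + 2 ≤ P.h)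
    {ch : X → Finset X} (hch : ChOK F P s ch) {y z : X} (hyz : y ≠ z)
    (hyM : y ∉ s.M) (hzM : z ∉ s.M) (σ : Finset (Spoke X)) {e : Spoke X} (he1 : e.1 ∈ F) :
    sw F P (afterM F P s ch y z) σ e ≤
      fac F P s (afterM F P s ch y z) ch σ y e * fac F P s (afterM F P s ch y z) ch σ z e *
        sw F P s σ e := by
  have hδ := H.toNum.δle
  have hδ0 := H.toNum.δpos
  have hc1 := H.toNum.c1
  have fy := fac_one_le H s (afterM F P s ch y z) ch σ y e
  have fz := fac_one_le H s (afterM F P s ch y z) ch σ z e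
  have ff : 1 ≤ fac F P s (afterM F P s ch y z) ch σ y e *
      fac F P s (afterM F P s ch y z) ch σ z e := by nlinarith
  have hsw := sw_nonneg H s σ e
  by_cases hfr : s.St e.2 = some e.1
  · -- frozen before
    have hv := (hrec _ _ hfr).2.2
    have hne : ¬ (e.2 = y ∨ e.2 = z) := by
      rintro (h | h)
      · exact hyM (h ▸ hv)
      · exact hzM (h ▸ hv)
    have hfr' : (afterM F P s ch y z).St e.2 = some e.1 := by
      simp only [afterM, if_neg hne]
      exact hfr
    have h1 : sw F P (afterM F P s ch y z) σ e = P.c := by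
      unfold sw; rw [if_pos hfr']
    have h2 : sw F P s σ e = P.c := by
      unfold sw; rw [if_pos hfr]
    rw [h1, h2]
    nlinarith
  by_cases hyz' : e.2 = y ∨ e.2 = z
  · -- the link point is claimed
    have hvM : e.2 ∉ s.M := by
      rcases hyz' with h | h
      · rw [h]; exact hyM
      · rw [h]; exact hzM
    by_cases hfz : hotpt F P s e.2 ∧ ch e.2 = e.1
    · have hfr' : (afterM F P s ch y z).St e.2 = some e.1 := by
        simp only [afterM, if_pos hyz', if_pos hfz.1, hfz.2]
      have h1 : sw F P (afterM F P s ch y z) σ e = P.c := by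
        unfold sw; rw [if_pos hfr']
      obtain ⟨hc2, hc3, hc4, hc5⟩ := hch e.2 hfz.1
      rw [hfz.2] at hc2 hc3 hc4 hc5
      have h2 : sw F P s σ e = P.c * mult F P s e.1 * P.a #(core σ e.1 \ s.M) := by
        unfold sw; rw [if_neg hfr, if_pos ⟨hvM, hc3⟩]
      have h3 : P.a #(core σ e.1 \ s.M) = 1 := by
        apply H.toNum.a1
        have h4 : #(core σ e.1 \ s.M) ≤ #(e.1 \ s.M) :=
          card_le_card (sdiff_subset_sdiff (core_subset _ _) (Subset.refl _))
        unfold nonhot at hc4
        omega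
      have h5 : 1 ≤ mult F P s e.1 := by
        unfold mult
        have hK : 1 ≤ P.K := by
          have h6 := H.toNum.Kδ
          have h7 := K_pos H
          nlinarith
        have h8 : (1 : ℝ) ≤ P.K ^ nrel F P s e.1 := one_le_pow₀ hK
        have h9 : (1 : ℝ) ≤ 2 ^ (P.h - hot P s e.1) := one_le_pow₀ (by norm_num)
        nlinarith
      rw [h1, h2, h3, mul_one]
      have h6 : P.c ≤ P.c * mult F P s e.1 := by nlinarith
      nlinarith
    · have hfr' : (afterM F P s ch y z).St e.2 ≠ some e.1 := by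
        simp only [afterM, if_pos hyz']
        split_ifs with h
        · intro h2
          exact hfz ⟨h, Option.some_inj.1 h2⟩
        · simp
      have hM' : e.2 ∈ (afterM F P s ch y z).M := by
        simp only [afterM, mem_insert]
        tauto
      have h1 : sw F P (afterM F P s ch y z) σ e = 0 := by
        unfold sw
        rw [if_neg hfr', if_neg (fun h => h.1 hM')]
      rw [h1]
      exact mul_nonneg (by linarith) hsw
  have hfr' : (afterM F P s ch y z).St e.2 ≠ some e.1 := by
    simp only [afterM, if_neg hyz']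
    exact hfr
  by_cases hal : e.2 ∉ s.M ∧ Disjoint e.1 s.B
  · have hal' : e.2 ∉ (afterM F P s ch y z).M ∧ Disjoint e.1 (afterM F P s ch y z).B := by
      refine ⟨?_, hal.2⟩
      simp only [afterM, mem_insert]
      tauto
    have hunf : unf (afterM F P s ch y z) e := ⟨hfr', hal'.1, hal'.2⟩
    have h1 : sw F P (afterM F P s ch y z) σ e =
        P.c * mult F P (afterM F P s ch y z) e.1 * P.a #(core σ e.1 \ (afterM F P s ch y z).M) := by
      unfold sw; rw [if_neg hfr', if_pos hal']
    have h2 : sw F P s σ e = P.c * mult F P s e.1 * P.a #(core σ e.1 \ s.M) := by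
      unfold sw; rw [if_neg hfr, if_pos hal]
    rw [h1, h2]
    have hm := mult_after H hrec (ch := ch) hyz hyM hzM (hh e.1 he1 hal.2)
    have hm0 := mult_pos H (afterM F P s ch y z) e.1
    have hc := card_after (F := F) (P := P) s ch hyz hyM hzM (core σ e.1)
    have key0 := a_grow H (u0 := #(core σ e.1 \ s.M))
      (u1 := #(core σ e.1 \ (afterM F P s ch y z).M))
      (n := (if y ∈ core σ e.1 then 1 else 0) + (if z ∈ core σ e.1 then 1 else 0))
      (by split_ifs <;> omega) hc
    set u0 := #(core σ e.1 \ s.M) with hu0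
    set u1 := #(core σ e.1 \ (afterM F P s ch y z).M) with hu1
    set ρ : ℝ := (if P.j2 < u0 then 3 / 2 - P.δ else if P.j1 < u0 then 4 / 3 else 1) with hρ
    have ρ1 : 1 ≤ ρ := by rw [hρ]; split_ifs <;> linarith
    have ρ2 : ρ ≤ 3 / 2 - P.δ := by rw [hρ]; split_ifs <;> linarith
    have ha0 := H.toNum.apos u0
    -- the factor at one point
    have one : ∀ v, ρ ^ (if v ∈ core σ e.1 then 1 else 0) ≤
        2 ^ nn F P s ch e.1 v * fac F P s (afterM F P s ch y z) ch σ v e := by
      intro v
      have h3 : (1 : ℝ) ≤ 2 ^ nn F P s ch e.1 v := one_le_pow₀ (by norm_num)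
      have h4 := fac_one_le H s (afterM F P s ch y z) ch σ v e
      by_cases hv : v ∈ core σ e.1
      · rw [if_pos hv, pow_one]
        have hve : v ∈ e.1 := core_subset _ _ hv
        by_cases hhot : hotpt F P s v
        · by_cases hr : e.1 = ch v ∨ rel P e.1 (ch v)
          · have h5 : fac F P s (afterM F P s ch y z) ch σ v e = 3 / 2 - P.δ := by
              unfold fac
              rw [if_pos ⟨hunf, hv⟩, if_pos hhot, if_pos hr]
            rw [h5]
            nlinarith
          · have h5 : nn F P s ch e.1 v = 1 := by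
              unfold nn
              rw [if_pos]
              refine ⟨hve, hhot, ?_⟩
              unfold rel at hr
              push Not at hr
              refine ⟨fun h5 => hr.1 h5.symm, ?_⟩
              exact hr.2 (fun h5 => hr.1 h5.symm)
            rw [h5]
            linarith
        · have h5 : fac F P s (afterM F P s ch y z) ch σ v e = ρ := by
            unfold fac
            rw [if_pos ⟨hunf, hv⟩, if_neg hhot]
          rw [h5]
          nlinarith
      · rw [if_neg hv, pow_zero]
        nlinarith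
    have key : P.a u1 ≤ (2 ^ nn F P s ch e.1 y * fac F P s (afterM F P s ch y z) ch σ y e) *
        (2 ^ nn F P s ch e.1 z * fac F P s (afterM F P s ch y z) ch σ z e) * P.a u0 := by
      refine key0.trans (mul_le_mul_of_nonneg_right ?_ ha0.le)
      rw [pow_add]
      exact mul_le_mul (one y) (one z) (pow_nonneg (by linarith) _)
        (mul_nonneg (pow_nonneg (by norm_num) _) (by linarith))
    set g1 := fac F P s (afterM F P s ch y z) ch σ y e with hg1
    set g2 := fac F P s (afterM F P s ch y z) ch σ z e with hg2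
    calc P.c * mult F P (afterM F P s ch y z) e.1 * P.a u1
        ≤ P.c * mult F P (afterM F P s ch y z) e.1 * ((2 ^ nn F P s ch e.1 y * g1) *
          (2 ^ nn F P s ch e.1 z * g2) * P.a u0) :=
          mul_le_mul_of_nonneg_left key (mul_nonneg (by linarith) hm0.le)
      _ = (P.c * g1 * g2 * P.a u0) * (mult F P (afterM F P s ch y z) e.1 *
          2 ^ (nn F P s ch e.1 y + nn F P s ch e.1 z)) := by
          rw [pow_add]; ring
      _ ≤ (P.c * g1 * g2 * P.a u0) * mult F P s e.1 := by
          refine mul_le_mul_of_nonneg_left hm ?_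
          exact mul_nonneg (mul_nonneg (mul_nonneg (by linarith) (by linarith)) (by linarith))
            ha0.le
      _ = g1 * g2 * (P.c * mult F P s e.1 * P.a u0) := by ring
  · have hal' : ¬ (e.2 ∉ (afterM F P s ch y z).M ∧ Disjoint e.1 (afterM F P s ch y z).B) := by
      rintro ⟨h1, h2⟩
      apply hal
      refine ⟨fun h => h1 ?_, h2⟩
      simp only [afterM, mem_insert]
      tauto
    have h1 : sw F P (afterM F P s ch y z) σ e = 0 := by
      unfold sw; rw [if_neg hfr', if_neg hal']
    rw [h1]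
    exact mul_nonneg (by linarith) hsw

theorem growT (H : Hyp S F P k D L R R' θ τ) {s : State X} (hrec : RecOK F s)
    (hh : ∀ A ∈ F, Disjoint A s.B → hot P s A + 2 ≤ P.h)
    {ch : X → Finset X} (hch : ChOK F P s ch) {y z : X} (hyz : y ≠ z)
    (hy : y ∈ free S s) (hz : z ∈ free S s) {T : Hub X} (hT : T ∈ hubs S F P) :
    wT F P (afterM F P s ch y z) T ≤
      rhoT F P s (afterM F P s ch y z) ch y T * rhoT F P s (afterM F P s ch y z) ch z T *
        wT F P s T := by
  obtain ⟨_, hyM, hyB⟩ := mem_free hy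
  obtain ⟨_, hzM, hzB⟩ := mem_free hz
  have hV : ValidHub F P T := (mem_filter.1 hT).2
  have hw0 := H.toNum.w0pos
  unfold wT
  by_cases hd : Disjoint T.1 s.B
  swap
  · have hd' : ¬ Disjoint T.1 (afterM F P s ch y z).B := hd
    rw [if_neg hd, if_neg hd', mul_zero]
  have hd' : Disjoint T.1 (afterM F P s ch y z).B := hd
  rw [if_pos hd, if_pos hd']
  have h1 : ∏ e ∈ T.2, sw F P (afterM F P s ch y z) T.2 e ≤
      ∏ e ∈ T.2, (fac F P s (afterM F P s ch y z) ch T.2 y e *
        fac F P s (afterM F P s ch y z) ch T.2 z e * sw F P s T.2 e) :=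
    prod_le_prod (fun e _ => sw_nonneg H _ _ e)
      (fun e he => sw_grow H hrec hh hch hyz hyM hzM T.2 (hV.2.2.1 e he).1)
  rw [prod_mul_distrib, prod_mul_distrib] at h1
  have h2 := prod_fac H s (afterM F P s ch y z) ch y hT
  have h3 := prod_fac H s (afterM F P s ch y z) ch z hT
  have h4 : 0 ≤ ∏ e ∈ T.2, sw F P s T.2 e := prod_nonneg (fun e _ => sw_nonneg H _ _ e)
  have h5 : 0 ≤ ∏ e ∈ T.2, fac F P s (afterM F P s ch y z) ch T.2 z e :=
    prod_nonneg (fun e _ => zero_le_one.trans (fac_one_le H _ _ _ _ _ e))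
  have h6 := rhoT_one_le H s (afterM F P s ch y z) ch y T
  have h7 : (∏ e ∈ T.2, fac F P s (afterM F P s ch y z) ch T.2 y e) *
      (∏ e ∈ T.2, fac F P s (afterM F P s ch y z) ch T.2 z e) ≤
      rhoT F P s (afterM F P s ch y z) ch y T * rhoT F P s (afterM F P s ch y z) ch z T :=
    mul_le_mul h2 h3 h5 (by linarith)
  calc P.w0 * ∏ e ∈ T.2, sw F P (afterM F P s ch y z) T.2 e
      ≤ P.w0 * ((rhoT F P s (afterM F P s ch y z) ch y T *
        rhoT F P s (afterM F P s ch y z) ch z T) * ∏ e ∈ T.2, sw F P s T.2 e) :=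
        mul_le_mul_of_nonneg_left (h1.trans (mul_le_mul_of_nonneg_right h7 h4)) hw0.le
    _ = _ := by ring

end Pool.H68.MB
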