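import Pool.Agent.H68.MB.Turn

/-!
# Breaker's reply

`s1 = afterM F P s ch y z`, `x ∈ free S s1`, `s2 = afterB s1 x`.  Breaker's move does not change
`M`, `St`, hence not `hot`, `unf` only gets more restrictive, `nrel` can only decrease (`K ≥ 1`).
-/

namespace Pool.H68.MB

open Finset
open scoped Classical

variable {X : Type*} [DecidableEq X] {S : Finset X} {F : Finset (Finset X)} {P : Par}
  {k D L R R' : ℕ} {θ τ : ℝ}

theorem Hyp.Kpos (H : Hyp S F P k D L R R' θ τ) : 0 < P.K := by
  have h1 := H.δpos
  have h2 := H.Kδ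
  by_contra h
  have : P.K * P.δ ≤ 0 := mul_nonpos_of_nonpos_of_nonneg (not_lt.1 h) h1.le
  linarith

theorem Hyp.one_le_K (H : Hyp S F P k D L R R' θ τ) : 1 ≤ P.K := by
  have h1 := H.δpos
  have h2 := H.Kδ
  have h3 := H.δle
  have h4 := H.Kpos
  nlinarith

theorem mult_nonneg (H : Hyp S F P k D L R R' θ τ) (s : State X) (A : Finset X) :
    0 ≤ mult F P s A :=
  mul_nonneg (pow_nonneg H.Kpos.le _) (by positivity)

theorem wt_nonneg (H : Hyp S F P k D L R R' θ τ) (s : State X) (A : Finset X) :
    0 ≤ wt F P s A := by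
  unfold wt
  split_ifs
  · exact mul_nonneg (mult_nonneg H s A) (H.Wpos _).le
  · exact le_rfl

theorem sw_nonneg (H : Hyp S F P k D L R R' θ τ) (s : State X) (σ : Finset (Spoke X))
    (e : Spoke X) : 0 ≤ sw F P s σ e := by
  have hc : 0 ≤ P.c := zero_le_one.trans H.c1
  unfold sw
  split_ifs
  · exact hc
  · exact mul_nonneg (mul_nonneg hc (mult_nonneg H s _)) (H.apos _).le
  · exact le_rfl

theorem wT_nonneg (H : Hyp S F P k D L R R' θ τ) (s : State X) (T : Hub X) :
    0 ≤ wT F P s T := by
  unfold wT
  split_ifs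
  · exact mul_nonneg H.w0pos.le (prod_nonneg fun e _ => sw_nonneg H s _ e)
  · exact le_rfl

theorem disj_of_afterB {s : State X} {x : X} {A : Finset X} (h : Disjoint A (afterB s x).B) :
    Disjoint A s.B :=
  Disjoint.mono_right (subset_insert x s.B) h

theorem nrel_mono (s : State X) (x : X) (A : Finset X) :
    nrel F P (afterB s x) A ≤ nrel F P s A := by
  unfold nrel
  apply card_le_card
  intro B hB
  rw [mem_filter] at hB ⊢
  exact ⟨hB.1, hB.2.1, disj_of_afterB hB.2.2⟩

theorem mult_mono (H : Hyp S F P k D L R R' θ τ) (s : State X) (x : X) (A : Finset X) :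
    mult F P (afterB s x) A ≤ mult F P s A := by
  unfold mult
  exact mul_le_mul_of_nonneg_right (pow_le_pow_right₀ H.one_le_K (nrel_mono s x A))
    (by positivity)

/-- Breaker's move does not increase single weights. -/
theorem wt_mono (H : Hyp S F P k D L R R' θ τ) (s : State X) (x : X) (A : Finset X) :
    wt F P (afterB s x) A ≤ wt F P s A := by
  by_cases h : Disjoint A (afterB s x).B
  · unfold wt
    rw [if_pos h, if_pos (disj_of_afterB h)]
    exact mul_le_mul_of_nonneg_right (mult_mono H s x A) (H.Wpos _).le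
  · have : wt F P (afterB s x) A = 0 := if_neg h
    rw [this]
    exact wt_nonneg H s A

theorem sw_mono (H : Hyp S F P k D L R R' θ τ) (s : State X) (x : X) (σ : Finset (Spoke X))
    (e : Spoke X) : sw F P (afterB s x) σ e ≤ sw F P s σ e := by
  have hc : 0 ≤ P.c := zero_le_one.trans H.c1
  by_cases h1 : s.St e.2 = some e.1
  · have e1 : sw F P (afterB s x) σ e = P.c := if_pos h1
    have e2 : sw F P s σ e = P.c := if_pos h1
    rw [e1, e2]
  · by_cases h2 : e.2 ∉ s.M ∧ Disjoint e.1 (afterB s x).B
    · have e1 : sw F P (afterB s x) σ e =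
          P.c * mult F P (afterB s x) e.1 * P.a #(core σ e.1 \ s.M) := by
        unfold sw
        rw [if_neg (show ¬ (afterB s x).St e.2 = some e.1 from h1)]
        exact if_pos h2
      have e2 : sw F P s σ e = P.c * mult F P s e.1 * P.a #(core σ e.1 \ s.M) := by
        unfold sw
        rw [if_neg h1]
        exact if_pos ⟨h2.1, disj_of_afterB h2.2⟩
      rw [e1, e2]
      exact mul_le_mul_of_nonneg_right (mul_le_mul_of_nonneg_left (mult_mono H s x _) hc)
        (H.apos _).le
    · have e1 : sw F P (afterB s x) σ e = 0 := by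
        unfold sw
        rw [if_neg (show ¬ (afterB s x).St e.2 = some e.1 from h1)]
        exact if_neg h2
      rw [e1]
      exact sw_nonneg H s σ e

/-- Breaker's move does not increase hub weights. -/
theorem wT_mono (H : Hyp S F P k D L R R' θ τ) (s : State X) (x : X) (T : Hub X) :
    wT F P (afterB s x) T ≤ wT F P s T := by
  by_cases h : Disjoint T.1 (afterB s x).B
  · unfold wT
    rw [if_pos h, if_pos (disj_of_afterB h)]
    exact mul_le_mul_of_nonneg_left
      (prod_le_prod (fun e _ => sw_nonneg H _ _ e) (fun e _ => sw_mono H s x _ e)) H.w0pos.le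
  · have : wT F P (afterB s x) T = 0 := if_neg h
    rw [this]
    exact wT_nonneg H s T

theorem not_disj_afterB {s : State X} {x : X} {A : Finset X} (hx : x ∈ A) :
    ¬ Disjoint A (afterB s x).B := by
  intro h
  exact disjoint_left.1 h hx (mem_insert_self x s.B)

theorem wt_kill {s : State X} {x : X} {A : Finset X} (hx : x ∈ A) :
    wt F P (afterB s x) A = 0 := if_neg (not_disj_afterB hx)

theorem wT_kill_hub {s : State X} {x : X} {T : Hub X} (hx : x ∈ T.1) :
    wT F P (afterB s x) T = 0 := if_neg (not_disj_afterB hx)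

theorem wT_zero_of_sw {s : State X} {T : Hub X} {e : Spoke X} (he : e ∈ T.2)
    (h : sw F P s T.2 e = 0) : wT F P s T = 0 := by
  unfold wT
  split_ifs
  · rw [prod_eq_zero he h, mul_zero]
  · rfl

theorem wT_kill_spoke {s : State X} {x : X} {T : Hub X} {e : Spoke X} (he : e ∈ T.2)
    (hu : unf s e) (hx : x ∈ e.1) : wT F P (afterB s x) T = 0 := by
  apply wT_zero_of_sw he
  unfold sw
  rw [if_neg (show ¬ (afterB s x).St e.2 = some e.1 from hu.1)]
  exact if_neg fun h => not_disj_afterB hx h.2

/-- a reply in an alive relative of `A` divides the multiplier of `A` by `K` -/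
theorem mult_class (H : Hyp S F P k D L R R' θ τ) {s : State X} {x : X} {A A' : Finset X}
    (hA' : A' ∈ F) (hr : rel P A A') (hd : Disjoint A' s.B) (hx : x ∈ A') :
    P.K * mult F P (afterB s x) A ≤ mult F P s A := by
  have hn : nrel F P (afterB s x) A + 1 ≤ nrel F P s A := by
    unfold nrel
    apply Nat.succ_le_of_lt
    apply card_lt_card
    refine ⟨?_, fun h => ?_⟩
    · intro B hB
      rw [mem_filter] at hB ⊢
      exact ⟨hB.1, hB.2.1, disj_of_afterB hB.2.2⟩
    · have h1 := h (show A' ∈ F.filter (fun A' => rel P A A' ∧ Disjoint A' s.B) from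
        mem_filter.2 ⟨hA', hr, hd⟩)
      rw [mem_filter] at h1
      exact not_disj_afterB hx h1.2.2
  unfold mult
  have h2 : P.K ^ (nrel F P (afterB s x) A + 1) ≤ P.K ^ nrel F P s A :=
    pow_le_pow_right₀ H.one_le_K hn
  rw [← mul_assoc, ← pow_succ']
  exact mul_le_mul_of_nonneg_right h2 (by positivity)

/-- Singles in the class of `ch v` are divided by `K` by a reply in `ch v`. -/
theorem wt_class (H : Hyp S F P k D L R R' θ τ) {s : State X} {ch : X → Finset X}
    (hch : ChOK F P s ch) {y z v x : X} (hv : hotpt F P s v) (hx : x ∈ ch v) {A : Finset X}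
    (hA : RS P ch v A) :
    P.K * wt F P (afterB (afterM F P s ch y z) x) A ≤ wt F P (afterM F P s ch y z) A := by
  set s1 := afterM F P s ch y z with hs1
  obtain ⟨h1, h2, h3, h4⟩ := hch v hv
  rcases hA.2 with hA2 | hA2
  · rw [wt_kill (hA2 ▸ hx), mul_zero]
    exact wt_nonneg H _ _
  · by_cases h : Disjoint A (afterB s1 x).B
    · have hm := mult_class H (s := s1) (x := x) h1 hA2 h2 hx
      unfold wt
      rw [if_pos h, if_pos (disj_of_afterB h), ← mul_assoc]
      exact mul_le_mul_of_nonneg_right hm (H.Wpos _).le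
    · have : wt F P (afterB s1 x) A = 0 := if_neg h
      rw [this, mul_zero]
      exact wt_nonneg H _ A

/-- Hub structures in the class of `ch v` are divided by `K` by a reply in `ch v`. -/
theorem wT_class (H : Hyp S F P k D L R R' θ τ) {s : State X} {ch : X → Finset X}
    (hch : ChOK F P s ch) {y z v x : X} (hv : hotpt F P s v) (hx : x ∈ ch v) {T : Hub X}
    (hT : RT P (afterM F P s ch y z) ch v T) :
    P.K * wT F P (afterB (afterM F P s ch y z) x) T ≤ wT F P (afterM F P s ch y z) T := by
  set s1 := afterM F P s ch y z with hs1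
  obtain ⟨h1, h2, h3, h4⟩ := hch v hv
  obtain ⟨e, he, hu, hv', hr⟩ := hT
  rcases hr with hr | hr
  · rw [wT_kill_spoke he hu (hr ▸ hx), mul_zero]
    exact wT_nonneg H _ _
  · by_cases h : Disjoint T.1 (afterB s1 x).B
    · have hsw : P.K * sw F P (afterB s1 x) T.2 e ≤ sw F P s1 T.2 e := by
        have hc : 0 ≤ P.c := zero_le_one.trans H.c1
        by_cases h2' : e.2 ∉ s1.M ∧ Disjoint e.1 (afterB s1 x).B
        · have e1 : sw F P (afterB s1 x) T.2 e =
              P.c * mult F P (afterB s1 x) e.1 * P.a #(core T.2 e.1 \ s1.M) := by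
            unfold sw
            rw [if_neg (show ¬ (afterB s1 x).St e.2 = some e.1 from hu.1)]
            exact if_pos h2'
          have e2 : sw F P s1 T.2 e = P.c * mult F P s1 e.1 * P.a #(core T.2 e.1 \ s1.M) := by
            unfold sw
            rw [if_neg hu.1]
            exact if_pos ⟨h2'.1, disj_of_afterB h2'.2⟩
          have hm := mult_class H (s := s1) (x := x) h1 hr h2 hx
          rw [e1, e2]
          calc P.K * (P.c * mult F P (afterB s1 x) e.1 * P.a #(core T.2 e.1 \ s1.M))
              = P.c * (P.K * mult F P (afterB s1 x) e.1) * P.a #(core T.2 e.1 \ s1.M) := by ring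
            _ ≤ P.c * mult F P s1 e.1 * P.a #(core T.2 e.1 \ s1.M) :=
              mul_le_mul_of_nonneg_right (mul_le_mul_of_nonneg_left hm hc) (H.apos _).le
        · have e1 : sw F P (afterB s1 x) T.2 e = 0 := by
            unfold sw
            rw [if_neg (show ¬ (afterB s1 x).St e.2 = some e.1 from hu.1)]
            exact if_neg h2'
          rw [e1, mul_zero]
          exact sw_nonneg H _ _ e
      have hw : wT F P (afterB s1 x) T = P.w0 * ∏ e ∈ T.2, sw F P (afterB s1 x) T.2 e := if_pos h
      have hw' : wT F P s1 T = P.w0 * ∏ e ∈ T.2, sw F P s1 T.2 e :=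
        if_pos (disj_of_afterB h)
      rw [hw, hw', ← mul_prod_erase _ _ he, ← mul_prod_erase _ _ he]
      have hpr : ∏ e ∈ T.2.erase e, sw F P (afterB s1 x) T.2 e ≤
          ∏ e ∈ T.2.erase e, sw F P s1 T.2 e :=
        prod_le_prod (fun e _ => sw_nonneg H _ _ e) (fun e _ => sw_mono H s1 x _ e)
      calc P.K * (P.w0 * (sw F P (afterB s1 x) T.2 e *
            ∏ e ∈ T.2.erase e, sw F P (afterB s1 x) T.2 e))
          = P.w0 * ((P.K * sw F P (afterB s1 x) T.2 e) *
            ∏ e ∈ T.2.erase e, sw F P (afterB s1 x) T.2 e) := by ring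
        _ ≤ P.w0 * (sw F P s1 T.2 e * ∏ e ∈ T.2.erase e, sw F P s1 T.2 e) := by
          apply mul_le_mul_of_nonneg_left _ H.w0pos.le
          exact mul_le_mul hsw hpr (prod_nonneg fun e _ => sw_nonneg H _ _ e)
            (sw_nonneg H _ _ e)
    · have : wT F P (afterB s1 x) T = 0 := if_neg h
      rw [this, mul_zero]
      exact wT_nonneg H _ T

/-- The price after the turn only involves structures counted before the turn. -/
theorem phi_le (H : Hyp S F P k D L R R' θ τ) {s : State X} (ch : X → Finset X) {y z : X}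
    (x p : X) :
    phi S F P (afterB (afterM F P s ch y z) x) p ≤
      ∑ A ∈ F.filter (fun A => Disjoint A s.B ∧ nonhot P s A ∧ p ∈ A),
        wt F P (afterB (afterM F P s ch y z) x) A +
      ∑ T ∈ (hubs S F P).filter (Nh P s p), wT F P (afterB (afterM F P s ch y z) x) T := by
  set s1 := afterM F P s ch y z with hs1
  have hnh : ∀ A : Finset X, nonhot P (afterB s1 x) A → nonhot P s A := by
    intro A h
    refine lt_of_lt_of_le (show P.j1 < #(A \ s1.M) from h) (card_le_card ?_)
    apply sdiff_subset_sdiff (Subset.refl A)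
    rw [hs1]
    exact (subset_insert z s.M).trans (subset_insert y _)
  unfold phi
  apply add_le_add
  · apply sum_le_sum_of_subset_of_nonneg
    · intro A hA
      rw [mem_filter] at hA ⊢
      exact ⟨hA.1, disj_of_afterB hA.2.1, hnh A hA.2.2.1, hA.2.2.2⟩
    · intro A _ _
      exact wt_nonneg H _ _
  · apply sum_le_sum_of_subset_of_nonneg
    · intro T hT
      rw [mem_filter] at hT ⊢
      obtain ⟨hT1, e, he, hu, hn, hp⟩ := hT
      refine ⟨hT1, e, he, ?_, hnh _ hn, hp⟩
      have hM : e.2 ∉ insert y (insert z s.M) := hu.2.1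
      rw [mem_insert, mem_insert, not_or, not_or] at hM
      refine ⟨?_, hM.2.2, disj_of_afterB (s := s1) hu.2.2⟩
      have h1 : s1.St e.2 = s.St e.2 := by
        rw [hs1]
        change (if e.2 = y ∨ e.2 = z then _ else s.St e.2) = s.St e.2
        rw [if_neg (not_or.2 ⟨hM.1, hM.2.1⟩)]
      have h2 : s1.St e.2 ≠ some e.1 := hu.1
      rwa [h1] at h2
    · intro T _ _
      exact wT_nonneg H _ _

/-- A reply at `p` removes at least the weight (after Maker's move) counted at `p`. -/
theorem kill_phi (H : Hyp S F P k D L R R' θ τ) {s : State X} {ch : X → Finset X}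
    (hch : ChOK F P s ch) {y z : X} (p : X) :
    ∑ A ∈ F.filter (fun A => Disjoint A s.B ∧ nonhot P s A ∧ p ∈ A),
        wt F P (afterM F P s ch y z) A +
      ∑ T ∈ (hubs S F P).filter (Nh P s p), wT F P (afterM F P s ch y z) T ≤
    Phi S F P (afterM F P s ch y z) - Phi S F P (afterB (afterM F P s ch y z) p) := by
  set s1 := afterM F P s ch y z with hs1
  have e1 : Phi S F P s1 - Phi S F P (afterB s1 p) =
      ∑ A ∈ F, (wt F P s1 A - wt F P (afterB s1 p) A) +
      ∑ T ∈ hubs S F P, (wT F P s1 T - wT F P (afterB s1 p) T) := by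
    unfold Phi
    rw [sum_sub_distrib, sum_sub_distrib]
    ring
  rw [e1]
  apply add_le_add
  · calc ∑ A ∈ F.filter (fun A => Disjoint A s.B ∧ nonhot P s A ∧ p ∈ A), wt F P s1 A
        = ∑ A ∈ F.filter (fun A => Disjoint A s.B ∧ nonhot P s A ∧ p ∈ A),
            (wt F P s1 A - wt F P (afterB s1 p) A) := by
          apply sum_congr rfl
          intro A hA
          rw [mem_filter] at hA
          rw [wt_kill hA.2.2.2, sub_zero]
      _ ≤ ∑ A ∈ F, (wt F P s1 A - wt F P (afterB s1 p) A) := by
          apply sum_le_sum_of_subset_of_nonneg (filter_subset _ _)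
          intro A _ _
          exact sub_nonneg.2 (wt_mono H _ _ _)
  · calc ∑ T ∈ (hubs S F P).filter (Nh P s p), wT F P s1 T
        ≤ ∑ T ∈ (hubs S F P).filter (Nh P s p), (wT F P s1 T - wT F P (afterB s1 p) T) := by
          apply sum_le_sum
          intro T hT
          rw [mem_filter] at hT
          obtain ⟨hT1, e, he, hu, hn, hp⟩ := hT
          have hpe : p ∈ e.1 := (mem_sdiff.1 hp).1
          have hSt : s1.St e.2 ≠ some e.1 := by
            rw [hs1]
            change (if e.2 = y ∨ e.2 = z then (if hotpt F P s e.2 then some (ch e.2) else none)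
              else s.St e.2) ≠ some e.1
            split_ifs with h1 h2
            · intro h3
              have h4 := hch e.2 h2
              rw [Option.some.inj h3] at h4
              exact h4.2.2.1 hn
            · simp
            · exact hu.1
          by_cases hM : e.2 ∈ s1.M
          · have h0 : wT F P s1 T = 0 := by
              apply wT_zero_of_sw he
              unfold sw
              rw [if_neg hSt]
              exact if_neg fun h => h.1 hM
            have := wT_mono H s1 p T
            linarith [h0]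
          · have h0 : wT F P (afterB s1 p) T = 0 :=
              wT_kill_spoke he ⟨hSt, hM, hu.2.2⟩ hpe
            rw [h0, sub_zero]
      _ ≤ ∑ T ∈ hubs S F P, (wT F P s1 T - wT F P (afterB s1 p) T) := by
          apply sum_le_sum_of_subset_of_nonneg (filter_subset _ _)
          intro T _ _
          exact sub_nonneg.2 (wT_mono H _ _ _)

/-- A reply at `x` removes all hub structures whose hub contains `x`. -/
theorem kill_hub (H : Hyp S F P k D L R R' θ τ) (s : State X) (x : X) :
    ∑ T ∈ (hubs S F P).filter (fun T => x ∈ T.1), wT F P s T ≤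
    Phi S F P s - Phi S F P (afterB s x) := by
  have e1 : Phi S F P s - Phi S F P (afterB s x) =
      ∑ A ∈ F, (wt F P s A - wt F P (afterB s x) A) +
      ∑ T ∈ hubs S F P, (wT F P s T - wT F P (afterB s x) T) := by
    unfold Phi
    rw [sum_sub_distrib, sum_sub_distrib]
    ring
  rw [e1]
  have h1 : 0 ≤ ∑ A ∈ F, (wt F P s A - wt F P (afterB s x) A) :=
    sum_nonneg fun A _ => sub_nonneg.2 (wt_mono H _ _ _)
  have h2 : ∑ T ∈ (hubs S F P).filter (fun T => x ∈ T.1), wT F P s T ≤
      ∑ T ∈ hubs S F P, (wT F P s T - wT F P (afterB s x) T) := by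
    calc ∑ T ∈ (hubs S F P).filter (fun T => x ∈ T.1), wT F P s T
        = ∑ T ∈ (hubs S F P).filter (fun T => x ∈ T.1),
            (wT F P s T - wT F P (afterB s x) T) := by
          apply sum_congr rfl
          intro T hT
          rw [mem_filter] at hT
          rw [wT_kill_hub hT.2, sub_zero]
      _ ≤ _ := by
          apply sum_le_sum_of_subset_of_nonneg (filter_subset _ _)
          intro T _ _
          exact sub_nonneg.2 (wT_mono H _ _ _)
  linarith

end Pool.H68.MB
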