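import Pool.Agent.H68.MB.Turn

/-!
# The tiny lemma

Proof.  Let `τ1 = c * (K^R * 2^h) * a (j2+1) * (3/2)^(r t')`, so `k L τ1 ≤ τ`.
For `T` with `CT v T` let `e0` be a cold spoke: `unf s1 e0`, `v ∈ core T.2 e0.1`,
`j2 < #(core T.2 e0.1 \ s.M)`, and `T' = (T.1, T.2.erase e0)`, again a valid hub structure.
Then `wT s T ≤ τ1 * wT s T'`: the spoke `e0` has weight at most `c K^R 2^h a(j2+1)`; each of the at
most `r` other spokes `e` has weight at most `(3/2)^t'` times its weight in `T'` (the core of `e`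
loses at most `#(e.1 ∩ e0.1) < t'` points, and `a u ≤ (3/2) a (u+1)`).
Note `e0.2 ∉ s1.M`, `e0.1` alive, so `e0.2 ∈ free S s1`, `e0.2 ≠ v`, `e0.2 ∈ T.1`, `v ∈ e0.1`.
Let `e` be a spoke with `q e`, `p ∈ core T.2 e.1`.
* If (for the chosen `e0`) such an `e ≠ e0` exists: then `T'` has the same property at `p` (the core
  of `e` gets larger), and for given `T'` there are at most `k * L` possible `e0` (`e0.2 ∈ T'.1`:
  `k` choices, then `e0.1` contains `e0.2` and `v`: at most `L` sets by `codeg`).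
* Otherwise `p ∈ e0.1` and `v ∈ e0.1`: at most `L` sets `e0.1`, at most `k` points `e0.2 ∈ e0.1`,
  and for each the sum of `wT s T'` over `T'` with `e0.2 ∈ T'.1` is at most `Λ`.
`T` is determined by `(T', e0)`.
-/

namespace Pool.H68.MB

open Finset
open scoped Classical

variable {X : Type*} [DecidableEq X] {S : Finset X} {F : Finset (Finset X)} {P : Par}
  {k D L R R' : ℕ} {θ τ : ℝ}

theorem tiny_K_ge (H : Hyp S F P k D L R R' θ τ) : 1 ≤ P.K := by
  have h1 := H.δpos
  have h2 := H.δle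
  have h3 := H.Kδ
  by_contra hc
  push Not at hc
  have h4 : P.K * P.δ < 1 * P.δ := mul_lt_mul_of_pos_right hc h1
  linarith

theorem tiny_mult_ge (H : Hyp S F P k D L R R' θ τ) (s : State X) (A : Finset X) :
    1 ≤ mult F P s A := by
  unfold mult
  exact one_le_mul_of_one_le_of_one_le (one_le_pow₀ (tiny_K_ge H)) (one_le_pow₀ (by norm_num))

theorem tiny_mult_le (H : Hyp S F P k D L R R' θ τ) (s : State X) {A : Finset X} (hA : A ∈ F) :
    mult F P s A ≤ P.K ^ R * 2 ^ P.h := by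
  unfold mult
  have h1 : nrel F P s A ≤ R := by
    refine le_trans (Finset.card_le_card ?_) (H.nrel A hA)
    intro A' hA'
    rw [Finset.mem_filter] at hA' ⊢
    exact ⟨hA'.1, hA'.2.1⟩
  have hK := tiny_K_ge H
  exact mul_le_mul (pow_le_pow_right₀ hK h1) (pow_le_pow_right₀ (by norm_num) (Nat.sub_le _ _))
    (by positivity) (by positivity)

theorem tiny_sw_nonneg (H : Hyp S F P k D L R R' θ τ) (s : State X) (σ : Finset (Spoke X))
    (e : Spoke X) : 0 ≤ sw F P s σ e := by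
  have hc : 0 ≤ P.c := zero_le_one.trans H.c1
  unfold sw
  split_ifs
  · exact hc
  · exact mul_nonneg (mul_nonneg hc (zero_le_one.trans (tiny_mult_ge H s _))) (H.apos _).le
  · exact le_rfl

theorem tiny_wT_nonneg (H : Hyp S F P k D L R R' θ τ) (s : State X) (T : Hub X) :
    0 ≤ wT F P s T := by
  unfold wT
  split_ifs
  · exact mul_nonneg H.w0pos.le (Finset.prod_nonneg fun e _ => tiny_sw_nonneg H s _ e)
  · exact le_rfl

theorem tiny_sw_unf (H : Hyp S F P k D L R R' θ τ) {s : State X} {σ : Finset (Spoke X)}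
    {e : Spoke X} (h1 : s.St e.2 ≠ some e.1) (hF : e.1 ∈ F)
    (hj : P.j2 + 1 ≤ #(core σ e.1 \ s.M)) :
    sw F P s σ e ≤ P.c * (P.K ^ R * 2 ^ P.h) * P.a (P.j2 + 1) := by
  have hc : 0 ≤ P.c := zero_le_one.trans H.c1
  have hK := tiny_K_ge H
  have hanti : Antitone P.a := antitone_nat_of_succ_le H.aanti
  have h0 : 0 ≤ P.c * (P.K ^ R * 2 ^ P.h) * P.a (P.j2 + 1) :=
    mul_nonneg (mul_nonneg hc (by positivity)) (H.apos _).le
  unfold sw
  rw [if_neg h1]
  split_ifs
  · exact mul_le_mul (mul_le_mul_of_nonneg_left (tiny_mult_le H s hF) hc) (hanti hj)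
      (H.apos _).le (mul_nonneg hc (by positivity))
  · exact h0

theorem core_erase_subset (σ : Finset (Spoke X)) (e0 : Spoke X) (A : Finset X) :
    core σ A ⊆ core (σ.erase e0) A := by
  unfold core
  refine Finset.sdiff_subset_sdiff (Finset.Subset.refl _) ?_
  refine Finset.biUnion_subset_biUnion_of_subset_left _ ?_
  exact Finset.filter_subset_filter _ (Finset.erase_subset _ _)

theorem core_erase_card (s : State X) (σ : Finset (Spoke X)) (e0 : Spoke X) (A : Finset X) :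
    #(core (σ.erase e0) A \ s.M) ≤ #(core σ A \ s.M) + #(A ∩ e0.1) := by
  refine (Finset.card_le_card ?_).trans (Finset.card_union_le _ _)
  intro x hx
  rw [Finset.mem_sdiff] at hx
  obtain ⟨hx1, hx2⟩ := hx
  unfold core at hx1
  rw [Finset.mem_sdiff, Finset.mem_biUnion] at hx1
  rw [Finset.mem_union, Finset.mem_sdiff, Finset.mem_inter]
  by_cases h : x ∈ e0.1
  · exact Or.inr ⟨hx1.1, h⟩
  · left
    refine ⟨?_, hx2⟩
    unfold core
    rw [Finset.mem_sdiff, Finset.mem_biUnion]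
    refine ⟨hx1.1, ?_⟩
    rintro ⟨e', he', hxe'⟩
    apply hx1.2
    refine ⟨e', ?_, hxe'⟩
    rw [Finset.mem_filter] at he' ⊢
    refine ⟨Finset.mem_erase.2 ⟨?_, he'.1⟩, he'.2⟩
    rintro rfl
    exact h hxe'

theorem tiny_a_le (H : Hyp S F P k D L R R' θ τ) (u m : ℕ) :
    P.a u ≤ (3 / 2) ^ m * P.a (u + m) := by
  induction m with
  | zero => simp
  | succ m ih =>
    refine ih.trans ?_
    have h1 := H.ag (u + m)
    have h2 := H.δpos
    have h3 := H.apos (u + m + 1)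
    have h4 : (3 / 2 - P.δ) * P.a (u + m + 1) ≤ 3 / 2 * P.a (u + m + 1) :=
      mul_le_mul_of_nonneg_right (by linarith) h3.le
    calc (3 / 2 : ℝ) ^ m * P.a (u + m) ≤ (3 / 2) ^ m * (3 / 2 * P.a (u + m + 1)) :=
          mul_le_mul_of_nonneg_left (h1.trans h4) (by positivity)
      _ = (3 / 2) ^ (m + 1) * P.a (u + (m + 1)) := by rw [pow_succ, add_assoc]; ring

theorem tiny_sw_erase (H : Hyp S F P k D L R R' θ τ) {s : State X} {σ : Finset (Spoke X)}
    {e e0 : Spoke X} (hcard : #(e.1 ∩ e0.1) < P.t') :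
    sw F P s σ e ≤ (3 / 2) ^ P.t' * sw F P s (σ.erase e0) e := by
  have hc : 0 ≤ P.c := zero_le_one.trans H.c1
  have hp : (1 : ℝ) ≤ (3 / 2) ^ P.t' := one_le_pow₀ (by norm_num)
  have hanti : Antitone P.a := antitone_nat_of_succ_le H.aanti
  unfold sw
  split_ifs
  · exact le_mul_of_one_le_left hc hp
  · have h1 := core_erase_card s σ e0 e.1
    have h2 : P.a #(core σ e.1 \ s.M) ≤
        (3 / 2) ^ P.t' * P.a #(core (σ.erase e0) e.1 \ s.M) := by
      refine (tiny_a_le H _ P.t').trans (mul_le_mul_of_nonneg_left (hanti ?_) (by positivity))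
      omega
    have h3 : 0 ≤ P.c * mult F P s e.1 :=
      mul_nonneg hc (zero_le_one.trans (tiny_mult_ge H s _))
    calc P.c * mult F P s e.1 * P.a #(core σ e.1 \ s.M)
        ≤ P.c * mult F P s e.1 * ((3 / 2) ^ P.t' * P.a #(core (σ.erase e0) e.1 \ s.M)) :=
          mul_le_mul_of_nonneg_left h2 h3
      _ = _ := by ring
  · simp

/-- removing a cold spoke -/
theorem tiny_wT_erase (H : Hyp S F P k D L R R' θ τ) {s : State X} {T : Hub X}
    (hT : ValidHub F P T) {e0 : Spoke X} (he0 : e0 ∈ T.2) (h1 : s.St e0.2 ≠ some e0.1)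
    (hj : P.j2 + 1 ≤ #(core T.2 e0.1 \ s.M)) :
    wT F P s T ≤ (P.c * (P.K ^ R * 2 ^ P.h) * P.a (P.j2 + 1) * (3 / 2) ^ (P.r * P.t')) *
      wT F P s (T.1, T.2.erase e0) := by
  obtain ⟨hT1, hTr, hTe, hTp⟩ := hT
  have hc : 0 ≤ P.c := zero_le_one.trans H.c1
  have hK := tiny_K_ge H
  unfold wT
  by_cases hd : Disjoint T.1 s.B
  · rw [if_pos hd, if_pos hd, ← Finset.mul_prod_erase T.2 _ he0]
    have h2 := tiny_sw_unf H (σ := T.2) h1 (hTe e0 he0).1 hj
    have h3 : ∏ e ∈ T.2.erase e0, sw F P s T.2 e ≤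
        (3 / 2) ^ (P.r * P.t') * ∏ e ∈ T.2.erase e0, sw F P s (T.2.erase e0) e := by
      have h4 : ∏ e ∈ T.2.erase e0, sw F P s T.2 e ≤
          ∏ e ∈ T.2.erase e0, ((3 / 2) ^ P.t' * sw F P s (T.2.erase e0) e) := by
        refine Finset.prod_le_prod (fun e _ => tiny_sw_nonneg H s _ e) fun e he => ?_
        rw [Finset.mem_erase] at he
        exact tiny_sw_erase H (hTp e he.2 e0 he0 he.1).2.2
      refine h4.trans ?_
      rw [Finset.prod_mul_distrib, Finset.prod_const, ← pow_mul]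
      refine mul_le_mul_of_nonneg_right ?_
        (Finset.prod_nonneg fun e _ => tiny_sw_nonneg H s _ e)
      refine pow_le_pow_right₀ (by norm_num) ?_
      rw [mul_comm]
      exact Nat.mul_le_mul_right _ ((Finset.card_erase_le).trans hTr)
    have h5 : 0 ≤ ∏ e ∈ T.2.erase e0, sw F P s T.2 e :=
      Finset.prod_nonneg fun e _ => tiny_sw_nonneg H s _ e
    have h6 : 0 ≤ P.c * (P.K ^ R * 2 ^ P.h) * P.a (P.j2 + 1) :=
      mul_nonneg (mul_nonneg hc (by positivity)) (H.apos _).le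
    calc P.w0 * (sw F P s T.2 e0 * ∏ e ∈ T.2.erase e0, sw F P s T.2 e)
        ≤ P.w0 * ((P.c * (P.K ^ R * 2 ^ P.h) * P.a (P.j2 + 1)) *
          ((3 / 2) ^ (P.r * P.t') * ∏ e ∈ T.2.erase e0, sw F P s (T.2.erase e0) e)) :=
          mul_le_mul_of_nonneg_left (mul_le_mul h2 h3 h5 h6) H.w0pos.le
      _ = _ := by ring
  · rw [if_neg hd, if_neg hd, mul_zero]

theorem tiny_hub_erase {T : Hub X} (hT : T ∈ hubs S F P) (e0 : Spoke X) :
    ((T.1, T.2.erase e0) : Hub X) ∈ hubs S F P := by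
  unfold hubs at hT ⊢
  rw [Finset.mem_filter, Finset.mem_product, Finset.mem_powerset] at hT ⊢
  obtain ⟨⟨h1, h2⟩, h3, h4, h5, h6⟩ := hT
  refine ⟨⟨h1, (Finset.erase_subset _ _).trans h2⟩, h3, (Finset.card_erase_le).trans h4,
    fun e he => h5 e (Finset.mem_of_mem_erase he),
    fun e he e' he' => h6 e (Finset.mem_of_mem_erase he) e' (Finset.mem_of_mem_erase he')⟩

theorem tiny (H : Hyp S F P k D L R R' θ τ) {s : State X}
    (ch : X → Finset X) {y z : X} {Λ : ℝ} (hΛ0 : 0 ≤ Λ)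
    (hΛ : ∀ x ∈ free S (afterM F P s ch y z),
      ∑ T ∈ (hubs S F P).filter (fun T => x ∈ T.1), wT F P s T ≤ Λ)
    {v p : X} (hv : v = y ∨ v = z) (hpv : p ≠ v) (q : Spoke X → Prop) :
    ∑ T ∈ (hubs S F P).filter (fun T => CT P s (afterM F P s ch y z) v T ∧
        ∃ e ∈ T.2, q e ∧ p ∈ core T.2 e.1), wT F P s T ≤
      τ * (∑ T ∈ (hubs S F P).filter (fun T => ∃ e ∈ T.2, q e ∧ p ∈ core T.2 e.1),
        wT F P s T + Λ) := by
  set s1 := afterM F P s ch y z with hs1
  set τ1 : ℝ := P.c * (P.K ^ R * 2 ^ P.h) * P.a (P.j2 + 1) * (3 / 2) ^ (P.r * P.t') with hτ1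
  have hc : 0 ≤ P.c := zero_le_one.trans H.c1
  have hK := tiny_K_ge H
  have hτ10 : 0 ≤ τ1 := by
    have := (H.apos (P.j2 + 1)).le
    positivity
  have hkL : (k : ℝ) * L * τ1 ≤ τ := H.hτ
  have hvM : v ∈ s1.M := by
    rw [hs1]
    unfold afterM
    simp only [Finset.mem_insert]
    rcases hv with rfl | rfl
    · exact Or.inl rfl
    · exact Or.inr (Or.inl rfl)
  set D' : Finset (Hub X) := (hubs S F P).filter (fun T => ∃ e ∈ T.2, q e ∧ p ∈ core T.2 e.1)
    with hD'
  set TT : Finset (Hub X) := (hubs S F P).filter (fun T => CT P s s1 v T ∧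
        ∃ e ∈ T.2, q e ∧ p ∈ core T.2 e.1) with hTT
  have hchoice : ∀ T : Hub X, ∃ e : Spoke X, T ∈ TT → e ∈ T.2 ∧ unf s1 e ∧ v ∈ core T.2 e.1 ∧
      P.j2 < #(core T.2 e.1 \ s.M) := by
    intro T
    by_cases hT : T ∈ TT
    · have hT' := hT
      rw [hTT, Finset.mem_filter] at hT'
      obtain ⟨e, he⟩ := hT'.2.1
      exact ⟨e, fun _ => he⟩
    · exact ⟨(∅, v), fun h => absurd h hT⟩
  choose e0 he0 using hchoice
  have hvalid : ∀ T ∈ TT, T ∈ hubs S F P ∧ ValidHub F P T := by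
    intro T hT
    rw [hTT, Finset.mem_filter] at hT
    refine ⟨hT.1, ?_⟩
    have := hT.1
    unfold hubs at this
    rw [Finset.mem_filter] at this
    exact this.2
  -- facts on the chosen spoke
  have hfacts : ∀ T ∈ TT, e0 T ∈ T.2 ∧ s.St (e0 T).2 ≠ some (e0 T).1 ∧ (e0 T).1 ∈ F ∧
      (e0 T).2 ∈ (e0 T).1 ∧ (e0 T).2 ∈ T.1 ∧ v ∈ (e0 T).1 ∧ (e0 T).2 ≠ v ∧
      (e0 T).2 ∈ free S s1 := by
    intro T hT
    obtain ⟨h1, h2, h3, h4⟩ := he0 T hT
    obtain ⟨hT1, hT2, hT3, hT4⟩ := (hvalid T hT).2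
    obtain ⟨h5, h6, h7, h8⟩ := hT3 _ h1
    have hM := h2.2.1
    have hne : (e0 T).2 ≠ y ∧ (e0 T).2 ≠ z := by
      rw [hs1] at hM
      unfold afterM at hM
      simp only [Finset.mem_insert, not_or] at hM
      exact ⟨hM.1, hM.2.1⟩
    have hSt : s1.St (e0 T).2 = s.St (e0 T).2 := by
      rw [hs1]
      unfold afterM
      simp only
      rw [if_neg]
      rintro (h | h)
      · exact hne.1 h
      · exact hne.2 h
    have hv1 : v ∈ (e0 T).1 := by
      unfold core at h3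
      exact (Finset.mem_sdiff.1 h3).1
    refine ⟨h1, ?_, h5, h6, h7, hv1, ?_, ?_⟩
    · rw [← hSt]
      exact h2.1
    · intro h
      rw [h] at hM
      exact hM hvM
    · unfold free
      rw [Finset.mem_sdiff, Finset.mem_union, not_or]
      refine ⟨H.sub _ h5 h6, hM, ?_⟩
      exact Finset.disjoint_left.1 h2.2.2 h6
  have hwT : ∀ T ∈ TT, wT F P s T ≤ τ1 * wT F P s (T.1, T.2.erase (e0 T)) := by
    intro T hT
    obtain ⟨h1, h2, _⟩ := hfacts T hT
    exact tiny_wT_erase H (hvalid T hT).2 h1 h2 (he0 T hT).2.2.2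
  have hinj : Set.InjOn (fun T : Hub X => ((e0 T, (T.1, T.2.erase (e0 T))) : Spoke X × Hub X))
      (TT : Set (Hub X)) := by
    intro T hT T' hT' hTT'
    simp only [Prod.mk.injEq] at hTT'
    obtain ⟨h1, h2, h3⟩ := hTT'
    have h4 : insert (e0 T) (T.2.erase (e0 T)) = T.2 := Finset.insert_erase (hfacts T hT).1
    have h5 : insert (e0 T') (T'.2.erase (e0 T')) = T'.2 := Finset.insert_erase (hfacts T' hT').1
    refine Prod.ext h2 ?_
    rw [← h4, ← h5, h3, h1]
  set φ : Hub X → Spoke X × Hub X := fun T => (e0 T, (T.1, T.2.erase (e0 T))) with hφ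
  -- the two classes
  set TA : Finset (Hub X) := TT.filter (fun T => ∃ e ∈ T.2, e ≠ e0 T ∧ q e ∧ p ∈ core T.2 e.1)
    with hTA
  set TB : Finset (Hub X) := TT.filter
    (fun T => ¬ ∃ e ∈ T.2, e ≠ e0 T ∧ q e ∧ p ∈ core T.2 e.1) with hTB
  have hsplit : ∑ T ∈ TT, wT F P s T = ∑ T ∈ TA, wT F P s T + ∑ T ∈ TB, wT F P s T :=
    (Finset.sum_filter_add_sum_filter_not TT _ _).symm
  -- class A
  set EA : Hub X → Finset (Spoke X) := fun T' =>
    T'.1.biUnion (fun x => if x ≠ v then (F.filter (fun A => x ∈ A ∧ v ∈ A)).image (fun A => (A, x))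
      else ∅) with hEA
  have hEAc : ∀ T' ∈ hubs S F P, #(EA T') ≤ k * L := by
    intro T' hT'
    have h1 : T'.1 ∈ F := by
      unfold hubs at hT'
      rw [Finset.mem_filter] at hT'
      exact hT'.2.1
    refine (Finset.card_biUnion_le).trans ?_
    have h2 : ∀ x ∈ T'.1, #(if x ≠ v then (F.filter (fun A => x ∈ A ∧ v ∈ A)).image
        (fun A => ((A, x) : Spoke X)) else ∅) ≤ L := by
      intro x _
      split_ifs with h
      · exact (Finset.card_image_le).trans (H.codeg x v h)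
      · simp
    refine (Finset.sum_le_sum h2).trans ?_
    rw [Finset.sum_const, smul_eq_mul, H.card _ h1]
  have hA : ∑ T ∈ TA, wT F P s T ≤ τ * ∑ T ∈ D', wT F P s T := by
    have h1 : ∑ T ∈ TA, wT F P s T ≤ ∑ T ∈ TA, τ1 * wT F P s (φ T).2 :=
      Finset.sum_le_sum fun T hT => hwT T (Finset.mem_filter.1 hT).1
    have h2 : ∑ T ∈ TA, τ1 * wT F P s (φ T).2 = ∑ x ∈ TA.image φ, τ1 * wT F P s x.2 := by
      rw [Finset.sum_image]
      exact fun T hT T' hT' h => hinj (Finset.mem_filter.1 hT).1 (Finset.mem_filter.1 hT').1 h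
    have h3 : TA.image φ ⊆ D'.biUnion (fun T' => (EA T').image (fun e => (e, T'))) := by
      intro x hx
      rw [Finset.mem_image] at hx
      obtain ⟨T, hT, rfl⟩ := hx
      rw [hTA, Finset.mem_filter] at hT
      obtain ⟨hT, e, he, hee, hqe, hpe⟩ := hT
      obtain ⟨f1, f2, f3, f4, f5, f6, f7, f8⟩ := hfacts T hT
      rw [Finset.mem_biUnion]
      refine ⟨(T.1, T.2.erase (e0 T)), ?_, ?_⟩
      · rw [hD', Finset.mem_filter]
        exact ⟨tiny_hub_erase (hvalid T hT).1 _, e, Finset.mem_erase.2 ⟨hee, he⟩, hqe,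
          core_erase_subset _ _ _ hpe⟩
      · rw [Finset.mem_image]
        refine ⟨e0 T, ?_, rfl⟩
        rw [hEA, Finset.mem_biUnion]
        refine ⟨(e0 T).2, f5, ?_⟩
        rw [if_pos f7, Finset.mem_image]
        exact ⟨(e0 T).1, Finset.mem_filter.2 ⟨f3, f4, f6⟩, rfl⟩
    have h4 : ∑ x ∈ TA.image φ, τ1 * wT F P s x.2 ≤
        ∑ x ∈ D'.biUnion (fun T' => (EA T').image (fun e => ((e, T') : Spoke X × Hub X))),
          τ1 * wT F P s x.2 :=
      Finset.sum_le_sum_of_subset_of_nonneg h3 fun x _ _ =>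
        mul_nonneg hτ10 (tiny_wT_nonneg H s _)
    have h5 : ∑ x ∈ D'.biUnion (fun T' => (EA T').image (fun e => ((e, T') : Spoke X × Hub X))),
          τ1 * wT F P s x.2 ≤ ∑ T' ∈ D', (k : ℝ) * L * τ1 * wT F P s T' := by
      rw [Finset.sum_biUnion]
      · refine Finset.sum_le_sum fun T' hT' => ?_
        have hh : T' ∈ hubs S F P := (Finset.mem_filter.1 hT').1
        have h6 : ∑ x ∈ (EA T').image (fun e => ((e, T') : Spoke X × Hub X)), τ1 * wT F P s x.2 =
            (#(EA T') : ℝ) * (τ1 * wT F P s T') := by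
          rw [Finset.sum_image (fun e _ e' _ h => (Prod.mk.inj h).1)]
          simp only [Finset.sum_const, nsmul_eq_mul]
        rw [h6]
        have h7 : (#(EA T') : ℝ) ≤ k * L := by exact_mod_cast hEAc T' hh
        calc (#(EA T') : ℝ) * (τ1 * wT F P s T') ≤ (k * L) * (τ1 * wT F P s T') :=
              mul_le_mul_of_nonneg_right h7 (mul_nonneg hτ10 (tiny_wT_nonneg H s _))
          _ = _ := by ring
      · intro T1 _ T2 _ hne
        rw [Function.onFun, Finset.disjoint_left]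
        intro x hx1 hx2
        rw [Finset.mem_image] at hx1 hx2
        obtain ⟨e1, _, rfl⟩ := hx1
        obtain ⟨e2, _, h8⟩ := hx2
        exact hne (Prod.mk.inj h8).2.symm
    have h6 : ∑ T' ∈ D', (k : ℝ) * L * τ1 * wT F P s T' ≤ τ * ∑ T ∈ D', wT F P s T := by
      rw [← Finset.mul_sum]
      exact mul_le_mul_of_nonneg_right hkL (Finset.sum_nonneg fun T _ => tiny_wT_nonneg H s T)
    linarith
  -- class B
  set EB : Finset (Spoke X) := ((F.filter (fun A => p ∈ A ∧ v ∈ A)).biUnion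
    (fun A => A.image (fun x => ((A, x) : Spoke X)))).filter (fun e => e.2 ∈ free S s1) with hEB
  have hEBc : #EB ≤ L * k := by
    refine (Finset.card_filter_le _ _).trans ((Finset.card_biUnion_le).trans ?_)
    have h2 : ∀ A ∈ F.filter (fun A => p ∈ A ∧ v ∈ A),
        #(A.image (fun x => ((A, x) : Spoke X))) ≤ k := by
      intro A hA'
      refine (Finset.card_image_le).trans ?_
      rw [H.card A (Finset.mem_filter.1 hA').1]
    refine (Finset.sum_le_sum h2).trans ?_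
    rw [Finset.sum_const, smul_eq_mul]
    exact Nat.mul_le_mul_right _ (H.codeg p v hpv)
  have hB : ∑ T ∈ TB, wT F P s T ≤ τ * Λ := by
    have h1 : ∑ T ∈ TB, wT F P s T ≤ ∑ T ∈ TB, τ1 * wT F P s (φ T).2 :=
      Finset.sum_le_sum fun T hT => hwT T (Finset.mem_filter.1 hT).1
    have h2 : ∑ T ∈ TB, τ1 * wT F P s (φ T).2 = ∑ x ∈ TB.image φ, τ1 * wT F P s x.2 := by
      rw [Finset.sum_image]
      exact fun T hT T' hT' h => hinj (Finset.mem_filter.1 hT).1 (Finset.mem_filter.1 hT').1 h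
    have h3 : TB.image φ ⊆ EB.biUnion (fun e => ((hubs S F P).filter
        (fun T => e.2 ∈ T.1)).image (fun T' => (e, T'))) := by
      intro x hx
      rw [Finset.mem_image] at hx
      obtain ⟨T, hT, rfl⟩ := hx
      rw [hTB, Finset.mem_filter] at hT
      obtain ⟨hT, hno⟩ := hT
      obtain ⟨f1, f2, f3, f4, f5, f6, f7, f8⟩ := hfacts T hT
      have hT' := hT
      rw [hTT, Finset.mem_filter] at hT'
      obtain ⟨e, he, hqe, hpe⟩ := hT'.2.2
      have hee : e = e0 T := by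
        by_contra hc'
        exact hno ⟨e, he, hc', hqe, hpe⟩
      have hp : p ∈ (e0 T).1 := by
        rw [← hee]
        unfold core at hpe
        exact (Finset.mem_sdiff.1 hpe).1
      rw [Finset.mem_biUnion]
      refine ⟨e0 T, ?_, ?_⟩
      · rw [hEB, Finset.mem_filter, Finset.mem_biUnion]
        refine ⟨⟨(e0 T).1, Finset.mem_filter.2 ⟨f3, hp, f6⟩, ?_⟩, f8⟩
        rw [Finset.mem_image]
        exact ⟨(e0 T).2, f4, rfl⟩
      · rw [Finset.mem_image]
        exact ⟨(T.1, T.2.erase (e0 T)), Finset.mem_filter.2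
          ⟨tiny_hub_erase (hvalid T hT).1 _, f5⟩, rfl⟩
    have h4 : ∑ x ∈ TB.image φ, τ1 * wT F P s x.2 ≤
        ∑ x ∈ EB.biUnion (fun e => ((hubs S F P).filter
        (fun T => e.2 ∈ T.1)).image (fun T' => ((e, T') : Spoke X × Hub X))),
          τ1 * wT F P s x.2 :=
      Finset.sum_le_sum_of_subset_of_nonneg h3 fun x _ _ =>
        mul_nonneg hτ10 (tiny_wT_nonneg H s _)
    have h5 : ∑ x ∈ EB.biUnion (fun e => ((hubs S F P).filter
        (fun T => e.2 ∈ T.1)).image (fun T' => ((e, T') : Spoke X × Hub X))),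
          τ1 * wT F P s x.2 ≤ ∑ e ∈ EB, τ1 * Λ := by
      rw [Finset.sum_biUnion]
      · refine Finset.sum_le_sum fun e he => ?_
        have h6 : ∑ x ∈ ((hubs S F P).filter (fun T => e.2 ∈ T.1)).image
            (fun T' => ((e, T') : Spoke X × Hub X)), τ1 * wT F P s x.2 =
            τ1 * ∑ T ∈ (hubs S F P).filter (fun T => e.2 ∈ T.1), wT F P s T := by
          rw [Finset.sum_image (fun e _ e' _ h => (Prod.mk.inj h).2), Finset.mul_sum]
        rw [h6]
        refine mul_le_mul_of_nonneg_left (hΛ _ ?_) hτ10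
        rw [hEB, Finset.mem_filter] at he
        exact he.2
      · intro e1 _ e2 _ hne
        rw [Function.onFun, Finset.disjoint_left]
        intro x hx1 hx2
        rw [Finset.mem_image] at hx1 hx2
        obtain ⟨T1, _, rfl⟩ := hx1
        obtain ⟨T2, _, h8⟩ := hx2
        exact hne (Prod.mk.inj h8).1.symm
    have h6 : ∑ e ∈ EB, τ1 * Λ ≤ τ * Λ := by
      rw [Finset.sum_const, nsmul_eq_mul]
      have h7 : (#EB : ℝ) ≤ L * k := by exact_mod_cast hEBc
      calc (#EB : ℝ) * (τ1 * Λ) ≤ (L * k) * (τ1 * Λ) :=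
            mul_le_mul_of_nonneg_right h7 (mul_nonneg hτ10 hΛ0)
        _ = (k * L * τ1) * Λ := by ring
        _ ≤ τ * Λ := mul_le_mul_of_nonneg_right hkL hΛ0
    linarith
  rw [hsplit, mul_add]
  exact add_le_add hA hB

end Pool.H68.MB
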