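import Pool.Agent.H68.MB.Bad
import Pool.Agent.H68.MB.GrowS
import Pool.Agent.H68.MB.GrowT
import Pool.Agent.H68.MB.Reply
import Pool.Agent.H68.MB.Tiny

/-!
# One turn: Breaker has a good reply
-/

namespace Pool.H68.MB

open Finset
open scoped Classical

variable {X : Type*} [DecidableEq X] {S : Finset X} {F : Finset (Finset X)} {P : Par}
  {k D L R R' : ℕ} {θ τ : ℝ}

/-! ### Elementary facts -/

theorem d_K_ge (H : Hyp S F P k D L R R' θ τ) : 144 ≤ P.K := by
  have h1 := H.Kδ
  have h2 := H.δle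
  have h3 := H.δpos
  have hK : 0 < P.K := by
    by_contra h
    push Not at h
    nlinarith
  nlinarith

theorem four_div_K (H : Hyp S F P k D L R R' θ τ) : 4 / P.K = P.δ / 4 := by
  have h1 := H.Kδ
  have h2 := d_K_ge H
  have hK : P.K ≠ 0 := by linarith
  field_simp
  linarith

theorem W_antitone (H : Hyp S F P k D L R R' θ τ) : Antitone P.W :=
  antitone_nat_of_succ_le H.Wanti

theorem d_mult_pos (H : Hyp S F P k D L R R' θ τ) (s : State X) (A : Finset X) :
    0 < mult F P s A := by
  have := d_K_ge H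
  unfold mult
  positivity

theorem d_mult_le (H : Hyp S F P k D L R R' θ τ) (s : State X) {A : Finset X} (hA : A ∈ F) :
    mult F P s A ≤ P.K ^ R * 2 ^ P.h := by
  have hK := d_K_ge H
  have h1 : nrel F P s A ≤ R := by
    refine le_trans (card_le_card ?_) (H.nrel A hA)
    intro A' hA'
    rw [mem_filter] at hA' ⊢
    exact ⟨hA'.1, hA'.2.1⟩
  unfold mult
  have h2 : P.K ^ nrel F P s A ≤ P.K ^ R := pow_le_pow_right₀ (by linarith) h1
  have h3 : (2 : ℝ) ^ (P.h - hot P s A) ≤ 2 ^ P.h :=
    pow_le_pow_right₀ (by norm_num) (Nat.sub_le _ _)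
  exact mul_le_mul h2 h3 (by positivity) (by positivity)

theorem wt_nonhot_le (H : Hyp S F P k D L R R' θ τ) (s : State X) {A : Finset X} (hA : A ∈ F)
    (hn : nonhot P s A) : wt F P s A ≤ P.K ^ R * 2 ^ P.h * P.W (P.j1 + 1) := by
  have hK := d_K_ge H
  have hW := H.Wpos (P.j1 + 1)
  unfold wt
  split_ifs with h
  · refine mul_le_mul (d_mult_le H s hA) (W_antitone H ?_) (H.Wpos _).le (by positivity)
    exact hn
  · positivity

theorem codeg_sum (H : Hyp S F P k D L R R' θ τ) (s : State X) {p p' : X} (hp : p ≠ p') :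
    ∑ A ∈ F.filter (fun A => nonhot P s A ∧ p ∈ A ∧ p' ∈ A), wt F P s A ≤ θ := by
  have hK := d_K_ge H
  have hW := H.Wpos (P.j1 + 1)
  have h1 : ∑ A ∈ F.filter (fun A => nonhot P s A ∧ p ∈ A ∧ p' ∈ A), wt F P s A ≤
      #(F.filter (fun A => nonhot P s A ∧ p ∈ A ∧ p' ∈ A)) •
        (P.K ^ R * 2 ^ P.h * P.W (P.j1 + 1)) := by
    apply sum_le_card_nsmul
    intro A hA
    rw [mem_filter] at hA
    exact wt_nonhot_le H s hA.1 hA.2.1
  have h2 : #(F.filter (fun A => nonhot P s A ∧ p ∈ A ∧ p' ∈ A)) ≤ L := by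
    refine le_trans (card_le_card ?_) (H.codeg p p' hp)
    intro A hA
    rw [mem_filter] at hA ⊢
    exact ⟨hA.1, hA.2.2⟩
  refine le_trans h1 (le_trans ?_ H.hθ)
  rw [nsmul_eq_mul]
  exact mul_le_mul_of_nonneg_right (by exact_mod_cast h2) (by positivity)

theorem rhoS_ge (H : Hyp S F P k D L R R' θ τ) (s : State X) (ch : X → Finset X) (v : X)
    (A : Finset X) : 1 ≤ rhoS F P s ch v A := by
  have := H.δle
  unfold rhoS
  split_ifs <;> linarith

theorem rhoT_ge (H : Hyp S F P k D L R R' θ τ) (s s1 : State X) (ch : X → Finset X) (v : X)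
    (T : Hub X) : 1 ≤ rhoT F P s s1 ch v T := by
  have := H.δle
  unfold rhoT
  split_ifs <;> linarith

theorem rhoT_le (H : Hyp S F P k D L R R' θ τ) (s s1 : State X) (ch : X → Finset X) (v : X)
    (T : Hub X) : rhoT F P s s1 ch v T ≤ 3 / 2 := by
  have := H.δle
  have := H.δpos
  unfold rhoT
  split_ifs <;> linarith

theorem unf_of_unf {s : State X} {ch : X → Finset X} {y z : X} {e : Spoke X}
    (h : unf (afterM F P s ch y z) e) : unf s e := by
  obtain ⟨h1, h2, h3⟩ := h
  have h4 : e.2 ≠ y ∧ e.2 ≠ z ∧ e.2 ∉ s.M := by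
    simp only [afterM, mem_insert, not_or] at h2
    exact h2
  refine ⟨?_, h4.2.2, h3⟩
  have : (afterM F P s ch y z).St e.2 = s.St e.2 := by
    simp only [afterM]
    rw [if_neg]
    rintro (h | h)
    · exact h4.1 h
    · exact h4.2.1 h
  rwa [this] at h1

theorem d_core_subset (σ : Finset (Spoke X)) (A : Finset X) : core σ A ⊆ A := sdiff_subset

theorem nonhot_of_core {s : State X} {σ : Finset (Spoke X)} {A : Finset X}
    (h : P.j1 < #(core σ A \ s.M)) : nonhot P s A :=
  lt_of_lt_of_le h (card_le_card (sdiff_subset_sdiff (d_core_subset σ A) (Subset.refl _)))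

theorem nh_of_cold {s s1 : State X} {v : X} {T : Hub X} (hT : T ∈ hubs S F P)
    (hs1 : ∀ e, unf s1 e → unf s e) (hv : ¬ hotpt F P s v)
    (h : ∃ e ∈ T.2, unf s1 e ∧ v ∈ core T.2 e.1) : Nh P s v T := by
  obtain ⟨e, he, hu, hc⟩ := h
  have hval : ValidHub F P T := (mem_filter.1 hT).2
  have hu' := hs1 e hu
  refine ⟨e, he, hu', ?_, hc⟩
  by_contra hn
  exact hv ⟨e.1, (hval.2.2.1 e he).1, hu'.2.2, hn, d_core_subset _ _ hc⟩

/-! ### Increments -/

/-- Increment factor of single sets. -/
noncomputable def gS (F : Finset (Finset X)) (P : Par) (s : State X) (ch : X → Finset X)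
    (y z : X) (A : Finset X) : ℝ :=
  if nonhot P s A ∧ y ∈ A ∧ z ∈ A then 3 else rhoS F P s ch y A * rhoS F P s ch z A - 1

/-- Increment factor of hub structures. -/
noncomputable def gT (F : Finset (Finset X)) (P : Par) (s : State X) (ch : X → Finset X)
    (y z : X) (T : Hub X) : ℝ :=
  rhoT F P s (afterM F P s ch y z) ch y T * rhoT F P s (afterM F P s ch y z) ch z T - 1

/-- Bound for the total increment. -/
noncomputable def Jt (S : Finset X) (F : Finset (Finset X)) (P : Par) (s : State X)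
    (ch : X → Finset X) (y z : X) : ℝ :=
  ∑ A ∈ F, gS F P s ch y z A * wt F P s A + ∑ T ∈ hubs S F P, gT F P s ch y z T * wT F P s T

theorem gS_nonneg (H : Hyp S F P k D L R R' θ τ) (s : State X) (ch : X → Finset X) (y z : X)
    (A : Finset X) : 0 ≤ gS F P s ch y z A := by
  have h1 := rhoS_ge H s ch y A
  have h2 := rhoS_ge H s ch z A
  unfold gS
  split_ifs
  · norm_num
  · nlinarith

theorem gT_nonneg (H : Hyp S F P k D L R R' θ τ) (s : State X) (ch : X → Finset X) (y z : X)
    (T : Hub X) : 0 ≤ gT F P s ch y z T := by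
  have h1 := rhoT_ge H s (afterM F P s ch y z) ch y T
  have h2 := rhoT_ge H s (afterM F P s ch y z) ch z T
  unfold gT
  nlinarith

theorem wt1_le (H : Hyp S F P k D L R R' θ τ) {s : State X} (hrec : RecOK F s)
    (hh : ∀ A ∈ F, Disjoint A s.B → hot P s A + 2 ≤ P.h)
    {ch : X → Finset X} (hch : ChOK F P s ch) {y z : X} (hyz : y ≠ z)
    (hy : y ∈ free S s) (hz : z ∈ free S s) {A : Finset X} (hA : A ∈ F) :
    wt F P (afterM F P s ch y z) A ≤ (1 + gS F P s ch y z A) * wt F P s A := by
  unfold gS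
  split_ifs with h
  · have := growS4 H hrec hh hch hyz hy hz hA
    linarith
  · have := growS H hrec hh hch hyz hy hz hA h
    linarith

theorem wT1_le (H : Hyp S F P k D L R R' θ τ) {s : State X} (hrec : RecOK F s)
    (hh : ∀ A ∈ F, Disjoint A s.B → hot P s A + 2 ≤ P.h)
    {ch : X → Finset X} (hch : ChOK F P s ch) {y z : X} (hyz : y ≠ z)
    (hy : y ∈ free S s) (hz : z ∈ free S s) {T : Hub X} (hT : T ∈ hubs S F P) :
    wT F P (afterM F P s ch y z) T ≤ (1 + gT F P s ch y z T) * wT F P s T := by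
  unfold gT
  have := growT H hrec hh hch hyz hy hz hT
  linarith

theorem Phi1_le (H : Hyp S F P k D L R R' θ τ) {s : State X} (hrec : RecOK F s)
    (hh : ∀ A ∈ F, Disjoint A s.B → hot P s A + 2 ≤ P.h)
    {ch : X → Finset X} (hch : ChOK F P s ch) {y z : X} (hyz : y ≠ z)
    (hy : y ∈ free S s) (hz : z ∈ free S s) :
    Phi S F P (afterM F P s ch y z) ≤ Phi S F P s + Jt S F P s ch y z := by
  have h1 : ∑ A ∈ F, wt F P (afterM F P s ch y z) A ≤
      ∑ A ∈ F, wt F P s A + ∑ A ∈ F, gS F P s ch y z A * wt F P s A := by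
    rw [← sum_add_distrib]
    refine sum_le_sum fun A hA => ?_
    have := wt1_le H hrec hh hch hyz hy hz hA
    linarith
  have h2 : ∑ T ∈ hubs S F P, wT F P (afterM F P s ch y z) T ≤
      ∑ T ∈ hubs S F P, wT F P s T + ∑ T ∈ hubs S F P, gT F P s ch y z T * wT F P s T := by
    rw [← sum_add_distrib]
    refine sum_le_sum fun T hT => ?_
    have := wT1_le H hrec hh hch hyz hy hz hT
    linarith
  unfold Phi Jt
  linarith

/-! ### State bookkeeping -/

theorem recOK_after {s : State X} (hrec : RecOK F s) {ch : X → Finset X} (hch : ChOK F P s ch)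
    (y z x : X) : RecOK F (afterB (afterM F P s ch y z) x) := by
  intro v A hv
  simp only [afterB, afterM] at hv ⊢
  split_ifs at hv with h1 h2
  · have h3 := hch v h2
    have h4 : ch v = A := by simpa using hv
    rw [← h4]
    refine ⟨h3.1, h3.2.2.2, ?_⟩
    rcases h1 with h | h <;> simp [h]
  · obtain ⟨h3, h4, h5⟩ := hrec v A hv
    exact ⟨h3, h4, by simp [h5]⟩

theorem disj_after {s : State X} (hd : Disjoint s.M s.B) {ch : X → Finset X} {y z x : X}
    (hy : y ∈ free S s) (hz : z ∈ free S s) (hx : x ∈ free S (afterM F P s ch y z)) :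
    Disjoint (afterB (afterM F P s ch y z) x).M (afterB (afterM F P s ch y z) x).B := by
  simp only [free, mem_sdiff, mem_union, not_or, afterM, mem_insert] at hy hz hx
  simp only [afterB, afterM]
  rw [disjoint_left]
  intro v hv
  simp only [mem_insert, not_or] at hv ⊢
  rcases hv with rfl | rfl | hv
  · exact ⟨fun h => hx.2.1.1 h.symm, hy.2.2⟩
  · exact ⟨fun h => hx.2.1.2.1 h.symm, hz.2.2⟩
  · refine ⟨?_, disjoint_left.1 hd hv⟩
    rintro rfl
    exact hx.2.1.2.2 hv

theorem free_after {s : State X} {ch : X → Finset X} {y z x p : X}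
    (hp : p ∈ free S (afterB (afterM F P s ch y z) x)) : p ∈ free S (afterM F P s ch y z) := by
  simp only [free, mem_sdiff, mem_union, not_or, afterB, mem_insert] at hp ⊢
  exact ⟨hp.1, hp.2.1, hp.2.2.2⟩

theorem free_afterM {s : State X} {ch : X → Finset X} {y z p : X}
    (hp : p ∈ free S (afterM F P s ch y z)) : p ∈ free S s ∧ p ≠ y ∧ p ≠ z := by
  simp only [free, mem_sdiff, mem_union, not_or, afterM, mem_insert] at hp ⊢
  exact ⟨⟨hp.1, hp.2.1.2.2, hp.2.2⟩, hp.2.1.1, hp.2.1.2.1⟩

theorem Phi_mono (H : Hyp S F P k D L R R' θ τ) (s : State X) (x : X) :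
    Phi S F P (afterB s x) ≤ Phi S F P s := by
  unfold Phi
  exact add_le_add (sum_le_sum fun A _ => wt_mono H s x A) (sum_le_sum fun T _ => wT_mono H s x T)

theorem phi_nonneg (H : Hyp S F P k D L R R' θ τ) (s : State X) (p : X) :
    0 ≤ phi S F P s p :=
  add_nonneg (sum_nonneg fun A _ => wt_nonneg H s A) (sum_nonneg fun T _ => wT_nonneg H s T)

/-- Assembling the invariant after the turn. -/
theorem inv_of (H : Hyp S F P k D L R R' θ τ) {s : State X} (hrec : RecOK F s)
    (hd : Disjoint s.M s.B) {ch : X → Finset X} (hch : ChOK F P s ch) {y z x : X}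
    (hy : y ∈ free S s) (hz : z ∈ free S s) (hx : x ∈ free S (afterM F P s ch y z)) {v l' : ℝ}
    (hl' : 0 ≤ l') (hphi : ∀ p ∈ free S (afterM F P s ch y z),
      ∑ A ∈ F.filter (fun A => Disjoint A s.B ∧ nonhot P s A ∧ p ∈ A),
        wt F P (afterB (afterM F P s ch y z) x) A +
      ∑ T ∈ (hubs S F P).filter (Nh P s p), wT F P (afterB (afterM F P s ch y z) x) T ≤ l')
    (hsum : Phi S F P (afterB (afterM F P s ch y z) x) + l' ≤ v) :
    Inv S F P (afterB (afterM F P s ch y z) x) v := by
  refine ⟨recOK_after hrec hch y z x, disj_after hd hy hz hx, l', hl', ?_, hsum⟩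
  intro p hp
  exact le_trans (phi_le H ch x p) (hphi p (free_after hp))

/-! ### Reply types -/

/-- Reply (G), first estimate. -/
theorem reply_G1 (H : Hyp S F P k D L R R' θ τ) {s : State X} {v l : ℝ} (hrec : RecOK F s)
    (hd : Disjoint s.M s.B) (hh : ∀ A ∈ F, Disjoint A s.B → hot P s A + 2 ≤ P.h)
    (hsum : Phi S F P s + l ≤ v)
    {ch : X → Finset X} (hch : ChOK F P s ch) {y z : X} (hyz : y ≠ z)
    (hy : y ∈ free S s) (hz : z ∈ free S s) (hfr : (free S (afterM F P s ch y z)).Nonempty)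
    (hJ : Jt S F P s ch y z ≤ l + 20 * θ) :
    ∃ x ∈ free S (afterM F P s ch y z),
      Inv S F P (afterB (afterM F P s ch y z) x) (v + 20 * θ) := by
  obtain ⟨x, hx, hmin⟩ := exists_min_image (free S (afterM F P s ch y z))
    (fun x => Phi S F P (afterB (afterM F P s ch y z) x)) hfr
  refine ⟨x, hx, inv_of H hrec hd hch hy hz hx
    (l' := Phi S F P (afterM F P s ch y z) - Phi S F P (afterB (afterM F P s ch y z) x)) ?_ ?_ ?_⟩
  · have := Phi_mono H (afterM F P s ch y z) x
    linarith
  · intro p hp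
    have h1 := kill_phi H hch (y := y) (z := z) p
    have h2 := hmin p hp
    have h3 : ∑ A ∈ F.filter (fun A => Disjoint A s.B ∧ nonhot P s A ∧ p ∈ A),
        wt F P (afterB (afterM F P s ch y z) x) A ≤
        ∑ A ∈ F.filter (fun A => Disjoint A s.B ∧ nonhot P s A ∧ p ∈ A),
        wt F P (afterM F P s ch y z) A := sum_le_sum fun A _ => wt_mono H _ x A
    have h4 : ∑ T ∈ (hubs S F P).filter (Nh P s p), wT F P (afterB (afterM F P s ch y z) x) T ≤
        ∑ T ∈ (hubs S F P).filter (Nh P s p), wT F P (afterM F P s ch y z) T :=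
      sum_le_sum fun T _ => wT_mono H _ x T
    linarith
  · have h1 := Phi1_le H hrec hh hch hyz hy hz
    linarith

/-- Reply (G), second estimate: a heavy hub point. -/
theorem reply_G2 (H : Hyp S F P k D L R R' θ τ) {s : State X} {v l : ℝ} (hrec : RecOK F s)
    (hd : Disjoint s.M s.B) (hh : ∀ A ∈ F, Disjoint A s.B → hot P s A + 2 ≤ P.h)
    (hl : 0 ≤ l) (hphi : ∀ p ∈ free S s, phi S F P s p ≤ l) (hsum : Phi S F P s + l ≤ v)
    {ch : X → Finset X} (hch : ChOK F P s ch) {y z : X} (hyz : y ≠ z)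
    (hy : y ∈ free S s) (hz : z ∈ free S s) {x : X} (hx : x ∈ free S (afterM F P s ch y z))
    (hJ : 2 * Jt S F P s ch y z ≤
      ∑ T ∈ (hubs S F P).filter (fun T => x ∈ T.1), wT F P s T) :
    Inv S F P (afterB (afterM F P s ch y z) x) (v + 20 * θ) := by
  have hθ := H.θpos
  have hJ1 : 0 ≤ ∑ A ∈ F, gS F P s ch y z A * wt F P s A :=
    sum_nonneg fun A _ => mul_nonneg (gS_nonneg H s ch y z A) (wt_nonneg H s A)
  have hJ2 : 0 ≤ ∑ T ∈ hubs S F P, gT F P s ch y z T * wT F P s T :=
    sum_nonneg fun T _ => mul_nonneg (gT_nonneg H s ch y z T) (wT_nonneg H s T)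
  have hJ0 : 0 ≤ Jt S F P s ch y z := add_nonneg hJ1 hJ2
  refine inv_of H hrec hd hch hy hz hx (l' := l + Jt S F P s ch y z) (by linarith) ?_ ?_
  · intro p hp
    have h0 := hphi p (free_afterM hp).1
    have h3 : ∑ A ∈ F.filter (fun A => Disjoint A s.B ∧ nonhot P s A ∧ p ∈ A),
        wt F P (afterB (afterM F P s ch y z) x) A ≤
        ∑ A ∈ F.filter (fun A => Disjoint A s.B ∧ nonhot P s A ∧ p ∈ A), wt F P s A +
        ∑ A ∈ F, gS F P s ch y z A * wt F P s A := by
      have h5 : ∑ A ∈ F.filter (fun A => Disjoint A s.B ∧ nonhot P s A ∧ p ∈ A),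
          gS F P s ch y z A * wt F P s A ≤ ∑ A ∈ F, gS F P s ch y z A * wt F P s A :=
        sum_le_sum_of_subset_of_nonneg (filter_subset _ _)
          fun A _ _ => mul_nonneg (gS_nonneg H s ch y z A) (wt_nonneg H s A)
      refine le_trans ?_ (add_le_add_right h5 _)
      rw [← sum_add_distrib]
      refine sum_le_sum fun A hA => ?_
      have h6 := wt_mono H (afterM F P s ch y z) x A
      have h7 := wt1_le H hrec hh hch hyz hy hz (mem_filter.1 hA).1
      linarith
    have h4 : ∑ T ∈ (hubs S F P).filter (Nh P s p), wT F P (afterB (afterM F P s ch y z) x) T ≤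
        ∑ T ∈ (hubs S F P).filter (Nh P s p), wT F P s T +
        ∑ T ∈ hubs S F P, gT F P s ch y z T * wT F P s T := by
      have h5 : ∑ T ∈ (hubs S F P).filter (Nh P s p), gT F P s ch y z T * wT F P s T ≤
          ∑ T ∈ hubs S F P, gT F P s ch y z T * wT F P s T :=
        sum_le_sum_of_subset_of_nonneg (filter_subset _ _)
          fun T _ _ => mul_nonneg (gT_nonneg H s ch y z T) (wT_nonneg H s T)
      refine le_trans ?_ (add_le_add_right h5 _)
      rw [← sum_add_distrib]
      refine sum_le_sum fun T hT => ?_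
      have h6 := wT_mono H (afterM F P s ch y z) x T
      have h7 := wT1_le H hrec hh hch hyz hy hz (mem_filter.1 hT).1
      linarith
    unfold phi at h0
    unfold Jt
    linarith
  · have h1 := kill_hub H (afterM F P s ch y z) x
    have h3 : ∑ A ∈ F, wt F P (afterB (afterM F P s ch y z) x) A ≤
        ∑ A ∈ F, wt F P s A + ∑ A ∈ F, gS F P s ch y z A * wt F P s A := by
      rw [← sum_add_distrib]
      refine sum_le_sum fun A hA => ?_
      have h6 := wt_mono H (afterM F P s ch y z) x A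
      have h7 := wt1_le H hrec hh hch hyz hy hz hA
      linarith
    have h4 : ∑ T ∈ hubs S F P, wT F P (afterB (afterM F P s ch y z) x) T ≤
        ∑ T ∈ (hubs S F P).filter (fun T => ¬ x ∈ T.1), wT F P s T +
        ∑ T ∈ hubs S F P, gT F P s ch y z T * wT F P s T := by
      rw [← sum_filter_add_sum_filter_not (hubs S F P) (fun T => x ∈ T.1)
        (fun T => wT F P (afterB (afterM F P s ch y z) x) T)]
      have h8 : ∑ T ∈ (hubs S F P).filter (fun T => x ∈ T.1),
          wT F P (afterB (afterM F P s ch y z) x) T = 0 := by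
        refine sum_eq_zero fun T hT => ?_
        exact wT_kill_hub (mem_filter.1 hT).2
      have h5 : ∑ T ∈ (hubs S F P).filter (fun T => ¬ x ∈ T.1),
          gT F P s ch y z T * wT F P s T ≤
          ∑ T ∈ hubs S F P, gT F P s ch y z T * wT F P s T :=
        sum_le_sum_of_subset_of_nonneg (filter_subset _ _)
          fun T _ _ => mul_nonneg (gT_nonneg H s ch y z T) (wT_nonneg H s T)
      rw [h8, zero_add]
      refine le_trans ?_ (add_le_add_right h5 _)
      rw [← sum_add_distrib]
      refine sum_le_sum fun T hT => ?_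
      have h6 := wT_mono H (afterM F P s ch y z) x T
      have h7 := wT1_le H hrec hh hch hyz hy hz (mem_filter.1 hT).1
      linarith
    have h9 := sum_filter_add_sum_filter_not (hubs S F P) (fun T => x ∈ T.1)
        (fun T => wT F P s T)
    unfold Phi at hsum ⊢
    unfold Jt at hJ ⊢
    linarith

theorem rhoS_hot {s : State X} {ch : X → Finset X} {v : X} {A : Finset X}
    (hv : hotpt F P s v) (hA : ¬ RS P ch v A) : rhoS F P s ch v A = 1 := by
  unfold rhoS
  split_ifs <;> rfl

theorem rhoT_hot {s s1 : State X} {ch : X → Finset X} {v : X} {T : Hub X}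
    (hv : hotpt F P s v) (hT : ¬ RT P s1 ch v T) : rhoT F P s s1 ch v T = 1 := by
  unfold rhoT
  split_ifs
  rfl

/-- Reply (H). -/
theorem reply_H (H : Hyp S F P k D L R R' θ τ) {s : State X} {v l : ℝ} (hrec : RecOK F s)
    (hd : Disjoint s.M s.B) (hh : ∀ A ∈ F, Disjoint A s.B → hot P s A + 2 ≤ P.h)
    (h3 : ∀ A ∈ F, Disjoint A s.B → 3 ≤ #(A \ s.M))
    (hl : 0 ≤ l) (hphi : ∀ p ∈ free S s, phi S F P s p ≤ l) (hsum : Phi S F P s + l ≤ v)
    {ch : X → Finset X} (hch : ChOK F P s ch) {y z : X} (hyz : y ≠ z)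
    (hy : y ∈ free S s) (hz : z ∈ free S s) (hyh : hotpt F P s y) {E : ℝ} (hE0 : 0 ≤ E)
    (hE : ∀ p ∈ free S (afterM F P s ch y z), ∑ T ∈ (hubs S F P).filter (Nh P s p),
      (rhoT F P s (afterM F P s ch y z) ch z T - 1) * wT F P s T ≤ E)
    (hbal : ∑ A ∈ F, (rhoS F P s ch z A - 1) * wt F P s A +
      ∑ T ∈ hubs S F P, (rhoT F P s (afterM F P s ch y z) ch z T - 1) * wT F P s T + E ≤
      (1 - P.δ / 4) * (∑ A ∈ F.filter (RS P ch y), wt F P s A +
        ∑ T ∈ (hubs S F P).filter (RT P (afterM F P s ch y z) ch y), wT F P s T) + 11 * θ) :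
    ∃ x ∈ free S (afterM F P s ch y z),
      Inv S F P (afterB (afterM F P s ch y z) x) (v + 20 * θ) := by
  have hδ := H.δpos
  have hδ' := H.δle
  have hK := d_K_ge H
  have hKδ := H.Kδ
  have hθ := H.θpos
  obtain ⟨c1, c2, c3, c4⟩ := hch y hyh
  -- a free point in `ch y`
  obtain ⟨x, hx⟩ : ((ch y \ s.M) \ {y, z}).Nonempty := by
    rw [← card_pos]
    have h5 := h3 (ch y) c1 c2
    have h6 := le_card_sdiff {y, z} (ch y \ s.M)
    have h7 : #({y, z} : Finset X) ≤ 2 := card_le_two
    omega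
  have hxc : x ∈ ch y := (mem_sdiff.1 (mem_sdiff.1 hx).1).1
  have hxM : x ∉ s.M := (mem_sdiff.1 (mem_sdiff.1 hx).1).2
  have hxyz : x ≠ y ∧ x ≠ z := by
    have := (mem_sdiff.1 hx).2
    simpa using this
  have hxB : x ∉ s.B := disjoint_left.1 c2 hxc
  have hxf : x ∈ free S (afterM F P s ch y z) := by
    simp only [free, mem_sdiff, mem_union, not_or, afterM, mem_insert]
    exact ⟨H.sub _ c1 hxc, ⟨hxyz.1, hxyz.2, hxM⟩, hxB⟩
  -- pointwise estimates
  have hk1 : ∀ a b : ℝ, P.K * a ≤ 4 * b → a ≤ P.δ / 4 * b := by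
    intro a b hab
    have h5 : P.K * a ≤ P.K * (P.δ / 4 * b) := by
      have : P.K * (P.δ / 4 * b) = 4 * b := by
        have : P.K * (P.δ / 4 * b) = (P.K * P.δ) / 4 * b := by ring
        rw [this, hKδ]; ring
      linarith
    exact le_of_mul_le_mul_left h5 (by linarith)
  have hS1 : ∀ A ∈ F, wt F P (afterB (afterM F P s ch y z) x) A ≤
      wt F P s A - (1 - P.δ / 4) * (if RS P ch y A then wt F P s A else 0) +
      (rhoS F P s ch z A - 1) * wt F P s A +
      3 * (if nonhot P s A ∧ y ∈ A ∧ z ∈ A then wt F P s A else 0) := by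
    intro A hA
    have h4 := growS4 H hrec hh hch hyz hy hz hA
    have h5 := wt_mono H (afterM F P s ch y z) x A
    have h6 := wt_nonneg H s A
    have h7 := rhoS_ge H s ch z A
    have h8 : 0 ≤ (rhoS F P s ch z A - 1) * wt F P s A := mul_nonneg (by linarith) h6
    have h9 : 0 ≤ (if nonhot P s A ∧ y ∈ A ∧ z ∈ A then wt F P s A else 0) := by
      split_ifs
      · exact h6
      · exact le_refl _
    by_cases hr : RS P ch y A
    · rw [if_pos hr]
      have := wt_class H hch (y := y) (z := z) hyh hxc hr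
      have := hk1 _ _ (le_trans this h4)
      linarith
    · rw [if_neg hr]
      by_cases hn : nonhot P s A ∧ y ∈ A ∧ z ∈ A
      · rw [if_pos hn]
        linarith
      · rw [if_neg hn]
        have h10 := growS H hrec hh hch hyz hy hz hA hn
        rw [rhoS_hot hyh hr] at h10
        linarith
  have hT1 : ∀ T ∈ hubs S F P, wT F P (afterB (afterM F P s ch y z) x) T ≤
      wT F P s T - (1 - P.δ / 4) * (if RT P (afterM F P s ch y z) ch y T then wT F P s T else 0) +
      (rhoT F P s (afterM F P s ch y z) ch z T - 1) * wT F P s T := by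
    intro T hT
    have h4 := growT H hrec hh hch hyz hy hz hT
    have h5 := wT_mono H (afterM F P s ch y z) x T
    have h6 := wT_nonneg H s T
    have h7 := rhoT_ge H s (afterM F P s ch y z) ch z T
    have h7' := rhoT_le H s (afterM F P s ch y z) ch z T
    have h7a := rhoT_ge H s (afterM F P s ch y z) ch y T
    have h7b := rhoT_le H s (afterM F P s ch y z) ch y T
    have h8 : 0 ≤ (rhoT F P s (afterM F P s ch y z) ch z T - 1) * wT F P s T :=
      mul_nonneg (by linarith) h6
    by_cases hr : RT P (afterM F P s ch y z) ch y T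
    · rw [if_pos hr]
      have h9 := wT_class H hch (y := y) (z := z) hyh hxc hr
      have h10 : rhoT F P s (afterM F P s ch y z) ch y T *
          rhoT F P s (afterM F P s ch y z) ch z T * wT F P s T ≤ 4 * wT F P s T := by
        refine mul_le_mul_of_nonneg_right ?_ h6
        nlinarith
      have := hk1 _ _ (le_trans h9 (le_trans h4 h10))
      linarith
    · rw [if_neg hr]
      rw [rhoT_hot hyh hr] at h4
      linarith
  refine ⟨x, hxf, inv_of H hrec hd hch hy hz hxf (l' := l + 6 * θ + E) (by linarith) ?_ ?_⟩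
  · intro p hp
    obtain ⟨hp1, hpy, hpz⟩ := free_afterM hp
    have h0 := hphi p hp1
    have hE' := hE p hp
    have hcy := codeg_sum H s hpy
    have hcz := codeg_sum H s hpz
    have hs : ∑ A ∈ F.filter (fun A => Disjoint A s.B ∧ nonhot P s A ∧ p ∈ A),
        wt F P (afterB (afterM F P s ch y z) x) A ≤
        ∑ A ∈ F.filter (fun A => Disjoint A s.B ∧ nonhot P s A ∧ p ∈ A), wt F P s A + 6 * θ := by
      have e1 : ∀ A ∈ F.filter (fun A => Disjoint A s.B ∧ nonhot P s A ∧ p ∈ A),
          wt F P (afterB (afterM F P s ch y z) x) A ≤ wt F P s A +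
            3 * (if y ∈ A then wt F P s A else 0) + 3 * (if z ∈ A then wt F P s A else 0) := by
        intro A hA
        have hAF := (mem_filter.1 hA).1
        have h4 := growS4 H hrec hh hch hyz hy hz hAF
        have h5 := wt_mono H (afterM F P s ch y z) x A
        have h6 := wt_nonneg H s A
        by_cases hyA : y ∈ A
        · rw [if_pos hyA]
          split_ifs <;> linarith
        · by_cases hzA : z ∈ A
          · rw [if_pos hzA, if_neg hyA]
            linarith
          · rw [if_neg hyA, if_neg hzA]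
            have h10 := growS H hrec hh hch hyz hy hz hAF (fun h => hyA h.2.1)
            have e2 : rhoS F P s ch y A = 1 := by unfold rhoS; rw [if_pos hyA]
            have e3 : rhoS F P s ch z A = 1 := by unfold rhoS; rw [if_pos hzA]
            rw [e2, e3] at h10
            linarith
      refine le_trans (sum_le_sum e1) ?_
      rw [sum_add_distrib, sum_add_distrib, ← mul_sum, ← mul_sum, ← sum_filter, ← sum_filter,
        filter_filter, filter_filter]
      have e4 : ∑ A ∈ F.filter (fun A => (Disjoint A s.B ∧ nonhot P s A ∧ p ∈ A) ∧ y ∈ A),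
          wt F P s A ≤ θ := by
        refine le_trans (sum_le_sum_of_subset_of_nonneg ?_ fun A _ _ => wt_nonneg H s A) hcy
        intro A hA
        rw [mem_filter] at hA ⊢
        exact ⟨hA.1, hA.2.1.2.1, hA.2.1.2.2, hA.2.2⟩
      have e5 : ∑ A ∈ F.filter (fun A => (Disjoint A s.B ∧ nonhot P s A ∧ p ∈ A) ∧ z ∈ A),
          wt F P s A ≤ θ := by
        refine le_trans (sum_le_sum_of_subset_of_nonneg ?_ fun A _ _ => wt_nonneg H s A) hcz
        intro A hA
        rw [mem_filter] at hA ⊢
        exact ⟨hA.1, hA.2.1.2.1, hA.2.1.2.2, hA.2.2⟩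
      linarith
    have ht : ∑ T ∈ (hubs S F P).filter (Nh P s p),
        wT F P (afterB (afterM F P s ch y z) x) T ≤
        ∑ T ∈ (hubs S F P).filter (Nh P s p), wT F P s T +
        ∑ T ∈ (hubs S F P).filter (Nh P s p),
          (rhoT F P s (afterM F P s ch y z) ch z T - 1) * wT F P s T := by
      rw [← sum_add_distrib]
      refine sum_le_sum fun T hT => ?_
      have h5 := hT1 T (mem_filter.1 hT).1
      have h6 : 0 ≤ (1 - P.δ / 4) *
          (if RT P (afterM F P s ch y z) ch y T then wT F P s T else 0) := by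
        refine mul_nonneg (by linarith) ?_
        split_ifs
        · exact wT_nonneg H s T
        · exact le_refl _
      linarith
    unfold phi at h0
    linarith
  · have hs := sum_le_sum hS1
    have ht := sum_le_sum hT1
    rw [sum_add_distrib, sum_add_distrib, sum_sub_distrib, ← mul_sum, ← mul_sum, ← sum_filter,
      ← sum_filter] at hs
    rw [sum_add_distrib, sum_sub_distrib, ← mul_sum, ← sum_filter] at ht
    have hc := codeg_sum H s hyz
    unfold Phi at hsum ⊢
    linarith

/-! ### Sums at a cold point -/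

theorem rhoS_cold {s : State X} {ch : X → Finset X} {v : X} (hv : ¬ hotpt F P s v)
    (A : Finset X) :
    rhoS F P s ch v A = 1 + (1 / 2 - P.δ) * (if v ∈ A then 1 else 0) := by
  unfold rhoS
  split_ifs <;> ring

theorem rhoT_cold {s s1 : State X} {ch : X → Finset X} {v : X} (hv : ¬ hotpt F P s v)
    (T : Hub X) :
    rhoT F P s s1 ch v T = 1 + (1 / 2 - P.δ) * (if CT P s s1 v T then 1 else 0) +
      1 / 3 * (if ¬ CT P s s1 v T ∧ WmT P s s1 v T then 1 else 0) := by
  unfold rhoT
  rw [if_neg hv]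
  by_cases h1 : CT P s s1 v T
  · simp only [h1, if_true, not_true_eq_false, false_and, if_false]
    ring
  · by_cases h2 : WmT P s s1 v T
    · simp only [h1, h2, if_true, if_false, not_false_eq_true, and_self]
      ring
    · simp only [h1, h2, if_false, and_false]
      ring

theorem cold_S (H : Hyp S F P k D L R R' θ τ) {s : State X} {ch : X → Finset X} {v : X}
    (hv : ¬ hotpt F P s v) :
    ∑ A ∈ F, (rhoS F P s ch v A - 1) * wt F P s A =
      (1 / 2 - P.δ) * ∑ A ∈ F.filter (fun A => v ∈ A), wt F P s A := by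
  rw [sum_filter, mul_sum]
  refine sum_congr rfl fun A _ => ?_
  rw [rhoS_cold hv]
  split_ifs <;> ring

theorem cold_T (H : Hyp S F P k D L R R' θ τ) {s s1 : State X} {ch : X → Finset X} {v : X}
    (hv : ¬ hotpt F P s v) :
    ∑ T ∈ hubs S F P, (rhoT F P s s1 ch v T - 1) * wT F P s T =
      (1 / 2 - P.δ) * ∑ T ∈ (hubs S F P).filter (CT P s s1 v), wT F P s T +
      1 / 3 * ∑ T ∈ (hubs S F P).filter (fun T => ¬ CT P s s1 v T ∧ WmT P s s1 v T),
        wT F P s T := by
  rw [sum_filter, sum_filter, mul_sum, mul_sum, ← sum_add_distrib]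
  refine sum_congr rfl fun T _ => ?_
  rw [rhoT_cold hv]
  split_ifs <;> ring

theorem wm_nh {s s1 : State X} {v : X} {T : Hub X} (hT : T ∈ hubs S F P)
    (hs1 : ∀ e, unf s1 e → unf s e) (hv : ¬ hotpt F P s v)
    (h : CT P s s1 v T ∨ WmT P s s1 v T) : Nh P s v T := by
  refine nh_of_cold hT hs1 hv ?_
  rcases h with ⟨e, h1, h2, h3, _⟩ | ⟨e, h1, h2, h3, _, _⟩
  · exact ⟨e, h1, h2, h3⟩
  · exact ⟨e, h1, h2, h3⟩

theorem cold_price (H : Hyp S F P k D L R R' θ τ) {s s1 : State X} {v : X}
    (hs1 : ∀ e, unf s1 e → unf s e) (hv : ¬ hotpt F P s v) :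
    ∑ A ∈ F.filter (fun A => v ∈ A), wt F P s A +
      (∑ T ∈ (hubs S F P).filter (CT P s s1 v), wT F P s T +
      ∑ T ∈ (hubs S F P).filter (fun T => ¬ CT P s s1 v T ∧ WmT P s s1 v T), wT F P s T) ≤
      phi S F P s v := by
  unfold phi
  refine add_le_add ?_ ?_
  · rw [sum_filter, sum_filter]
    refine sum_le_sum fun A hA => ?_
    have h0 := wt_nonneg H s A
    split_ifs with h1 h2 h2
    · exact le_refl _
    · have h3 : ¬ Disjoint A s.B := by
        intro h3
        apply h2
        refine ⟨h3, ?_, h1⟩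
        by_contra h4
        exact hv ⟨A, hA, h3, h4, h1⟩
      unfold wt
      rw [if_neg h3]
    · exact h0
    · exact le_refl _
  · rw [sum_filter, sum_filter, sum_filter, ← sum_add_distrib]
    refine sum_le_sum fun T hT => ?_
    have h0 := wT_nonneg H s T
    by_cases h1 : CT P s s1 v T
    · have h2 := wm_nh hT hs1 hv (Or.inl h1)
      simp [h1, h2]
    · by_cases h3 : WmT P s s1 v T
      · have h2 := wm_nh hT hs1 hv (Or.inr h3)
        simp [h1, h2, h3]
      · simp only [h1, h3, if_false, and_false, add_zero]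
        split_ifs
        · exact h0
        · exact le_refl _

/-- The tiny lemma for structures counted at `p`. -/
theorem tiny_nh (H : Hyp S F P k D L R R' θ τ) {s : State X}
    (ch : X → Finset X) {y z : X} {Λ : ℝ} (hΛ0 : 0 ≤ Λ)
    (hΛ : ∀ x ∈ free S (afterM F P s ch y z),
      ∑ T ∈ (hubs S F P).filter (fun T => x ∈ T.1), wT F P s T ≤ Λ)
    {v p : X} (hv : v = y ∨ v = z) (hpv : p ≠ v) :
    ∑ T ∈ (hubs S F P).filter (fun T => CT P s (afterM F P s ch y z) v T ∧ Nh P s p T),
      wT F P s T ≤ τ * (∑ T ∈ (hubs S F P).filter (Nh P s p), wT F P s T + Λ) := by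
  have h := tiny H ch hΛ0 hΛ hv hpv (fun e => unf s e ∧ nonhot P s e.1)
  have e1 : ∀ T : Hub X, (∃ e ∈ T.2, (unf s e ∧ nonhot P s e.1) ∧ p ∈ core T.2 e.1) ↔
      Nh P s p T := by
    intro T
    unfold Nh
    simp only [and_assoc]
  simp only [e1] at h
  exact h

/-- Price increase due to the cold point `v`. -/
theorem cold_E (H : Hyp S F P k D L R R' θ τ) {s : State X} (ch : X → Finset X) {y z : X}
    {Λ : ℝ} (hΛ0 : 0 ≤ Λ)
    (hΛ : ∀ x ∈ free S (afterM F P s ch y z),
      ∑ T ∈ (hubs S F P).filter (fun T => x ∈ T.1), wT F P s T ≤ Λ)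
    {v p : X} (hv : v = y ∨ v = z) (hpv : p ≠ v) (hvc : ¬ hotpt F P s v) :
    ∑ T ∈ (hubs S F P).filter (Nh P s p),
      (rhoT F P s (afterM F P s ch y z) ch v T - 1) * wT F P s T ≤
      1 / 2 * (τ * (∑ T ∈ (hubs S F P).filter (Nh P s p), wT F P s T + Λ)) +
      1 / 3 * ∑ T ∈ (hubs S F P).filter (fun T => ¬ CT P s (afterM F P s ch y z) v T ∧
        WmT P s (afterM F P s ch y z) v T), wT F P s T := by
  have hδ := H.δpos
  have h := tiny_nh H ch hΛ0 hΛ hv hpv
  have e1 : ∑ T ∈ (hubs S F P).filter (Nh P s p),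
      (rhoT F P s (afterM F P s ch y z) ch v T - 1) * wT F P s T ≤
      1 / 2 * ∑ T ∈ (hubs S F P).filter (fun T => CT P s (afterM F P s ch y z) v T ∧
        Nh P s p T), wT F P s T +
      1 / 3 * ∑ T ∈ (hubs S F P).filter (fun T => ¬ CT P s (afterM F P s ch y z) v T ∧
        WmT P s (afterM F P s ch y z) v T), wT F P s T := by
    rw [sum_filter, sum_filter, sum_filter, mul_sum, mul_sum, ← sum_add_distrib]
    refine sum_le_sum fun T _ => ?_
    have h0 := wT_nonneg H s T
    rw [rhoT_cold hvc]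
    have h1 : 0 ≤ P.δ * wT F P s T := mul_nonneg hδ.le h0
    split_ifs <;> first | (exfalso; tauto) | nlinarith
  linarith

/-! ### Sums at a hot point -/

theorem hot_S (H : Hyp S F P k D L R R' θ τ) {s : State X} {ch : X → Finset X} {v : X}
    (hv : hotpt F P s v) :
    ∑ A ∈ F, (rhoS F P s ch v A - 1) * wt F P s A =
      (1 - P.δ) * ∑ A ∈ F.filter (RS P ch v), wt F P s A := by
  rw [sum_filter, mul_sum]
  refine sum_congr rfl fun A _ => ?_
  by_cases h1 : RS P ch v A
  · have h2 : v ∈ A := h1.1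
    unfold rhoS
    simp only [h2, h1, hv, not_true_eq_false, if_true, if_false]
    ring
  · rw [rhoS_hot hv h1, if_neg h1]
    ring

theorem hot_T (H : Hyp S F P k D L R R' θ τ) {s s1 : State X} {ch : X → Finset X} {v : X}
    (hv : hotpt F P s v) :
    ∑ T ∈ hubs S F P, (rhoT F P s s1 ch v T - 1) * wT F P s T =
      (1 / 2 - P.δ) * ∑ T ∈ (hubs S F P).filter (RT P s1 ch v), wT F P s T := by
  rw [sum_filter, mul_sum]
  refine sum_congr rfl fun T _ => ?_
  unfold rhoT
  rw [if_pos hv]
  split_ifs <;> ring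

/-! ### Bounds for the total increment -/

theorem dead_wt {s : State X} {A : Finset X} (h : ¬ Disjoint A s.B) : wt F P s A = 0 := by
  unfold wt
  rw [if_neg h]

/-- Singles, both points cold. -/
theorem JS_CC (H : Hyp S F P k D L R R' θ τ) {s : State X} {ch : X → Finset X} {y z : X}
    (hyz : y ≠ z) (hyc : ¬ hotpt F P s y) (hzc : ¬ hotpt F P s z) :
    ∑ A ∈ F, gS F P s ch y z A * wt F P s A ≤
      (1 / 2 - P.δ) * ∑ A ∈ F.filter (fun A => y ∈ A), wt F P s A +
      (1 / 2 - P.δ) * ∑ A ∈ F.filter (fun A => z ∈ A), wt F P s A + 3 * θ := by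
  have hδ := H.δpos
  have hδ' := H.δle
  have h1 := codeg_sum H s hyz
  have h2 : ∀ A ∈ F, gS F P s ch y z A * wt F P s A ≤
      (1 / 2 - P.δ) * (if y ∈ A then wt F P s A else 0) +
      (1 / 2 - P.δ) * (if z ∈ A then wt F P s A else 0) +
      3 * (if nonhot P s A ∧ y ∈ A ∧ z ∈ A then wt F P s A else 0) := by
    intro A hA
    have h0 := wt_nonneg H s A
    have hx : 0 ≤ (1 / 2 - P.δ) * wt F P s A := mul_nonneg (by linarith) h0
    by_cases hd : Disjoint A s.B
    · unfold gS
      by_cases hy : y ∈ A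
      · have hn : nonhot P s A := by
          by_contra hn
          exact hyc ⟨A, hA, hd, hn, hy⟩
        by_cases hz : z ∈ A
        · simp only [hy, hz, hn, and_self, if_true]
          linarith
        · rw [rhoS_cold hyc, rhoS_cold hzc]
          simp only [hy, hz, and_false, if_true, if_false]
          linarith
      · rw [rhoS_cold hyc, rhoS_cold hzc]
        by_cases hz : z ∈ A
        · simp only [hy, hz, and_false, false_and, if_true, if_false]
          linarith
        · simp only [hy, hz, and_false, if_false]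
          linarith
    · rw [dead_wt hd]
      simp
  refine le_trans (sum_le_sum h2) ?_
  rw [sum_add_distrib, sum_add_distrib, ← mul_sum, ← mul_sum, ← mul_sum, ← sum_filter,
    ← sum_filter, ← sum_filter]
  linarith

/-- Singles, `y` hot and `z` cold. -/
theorem JS_HC (H : Hyp S F P k D L R R' θ τ) {s : State X} {ch : X → Finset X} {y z : X}
    (hyz : y ≠ z) (hyh : hotpt F P s y) (hzc : ¬ hotpt F P s z) :
    ∑ A ∈ F, gS F P s ch y z A * wt F P s A ≤
      (1 - P.δ) * ∑ A ∈ F.filter (RS P ch y), wt F P s A +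
      (1 / 2 - P.δ) * ∑ A ∈ F.filter (fun A => z ∈ A), wt F P s A + 3 * θ := by
  have hδ := H.δpos
  have hδ' := H.δle
  have h1 := codeg_sum H s hyz
  have h2 : ∀ A ∈ F, gS F P s ch y z A * wt F P s A ≤
      (1 - P.δ) * (if RS P ch y A then wt F P s A else 0) +
      (1 / 2 - P.δ) * (if z ∈ A then wt F P s A else 0) +
      3 * (if nonhot P s A ∧ y ∈ A ∧ z ∈ A then wt F P s A else 0) := by
    intro A hA
    have h0 := wt_nonneg H s A
    have hx : 0 ≤ (1 / 2 - P.δ) * wt F P s A := mul_nonneg (by linarith) h0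
    have hx' : 0 ≤ (1 - P.δ) * wt F P s A := mul_nonneg (by linarith) h0
    have hx1 : 0 ≤ (1 / 2 - P.δ) * (if z ∈ A then wt F P s A else 0) := by
      split_ifs
      · exact hx
      · simp
    have hx2 : 0 ≤ (1 - P.δ) * (if RS P ch y A then wt F P s A else 0) := by
      split_ifs
      · exact hx'
      · simp
    by_cases hd : Disjoint A s.B
    · unfold gS
      by_cases hnb : nonhot P s A ∧ y ∈ A ∧ z ∈ A
      · rw [if_pos hnb, if_pos hnb]
        linarith
      · rw [if_neg hnb, if_neg hnb]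
        by_cases hz : z ∈ A
        · have hn : nonhot P s A := by
            by_contra hn
            exact hzc ⟨A, hA, hd, hn, hz⟩
          have hy : y ∉ A := fun hy => hnb ⟨hn, hy, hz⟩
          have hr : ¬ RS P ch y A := fun h => hy h.1
          rw [rhoS_hot hyh hr, rhoS_cold hzc, if_pos hz, if_pos hz, if_neg hr]
          linarith
        · rw [rhoS_cold hzc, if_neg hz, if_neg hz]
          by_cases hr : RS P ch y A
          · have h3 : rhoS F P s ch y A = 2 - P.δ := by
              unfold rhoS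
              simp only [hr.1, not_true_eq_false, if_false, hyh, hr, if_true]
            rw [h3, if_pos hr]
            linarith
          · rw [rhoS_hot hyh hr, if_neg hr]
            linarith
    · rw [dead_wt hd]
      simp
  refine le_trans (sum_le_sum h2) ?_
  rw [sum_add_distrib, sum_add_distrib, ← mul_sum, ← mul_sum, ← mul_sum, ← sum_filter,
    ← sum_filter, ← sum_filter]
  linarith

/-- Hub structures, both points cold. -/
theorem JT_CC (H : Hyp S F P k D L R R' θ τ) {s : State X} {ch : X → Finset X} {y z : X}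
    (hyc : ¬ hotpt F P s y) (hzc : ¬ hotpt F P s z) :
    ∑ T ∈ hubs S F P, gT F P s ch y z T * wT F P s T ≤
      ((1 / 2 - P.δ) * ∑ T ∈ (hubs S F P).filter (CT P s (afterM F P s ch y z) y), wT F P s T +
      7 / 18 * ∑ T ∈ (hubs S F P).filter (fun T => ¬ CT P s (afterM F P s ch y z) y T ∧
        WmT P s (afterM F P s ch y z) y T), wT F P s T) +
      ((1 / 2 - P.δ) * ∑ T ∈ (hubs S F P).filter (CT P s (afterM F P s ch y z) z), wT F P s T +
      7 / 18 * ∑ T ∈ (hubs S F P).filter (fun T => ¬ CT P s (afterM F P s ch y z) z T ∧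
        WmT P s (afterM F P s ch y z) z T), wT F P s T) +
      1 / 4 * ∑ T ∈ (hubs S F P).filter (fun T => CT P s (afterM F P s ch y z) y T ∧
        Nh P s z T), wT F P s T +
      1 / 4 * ∑ T ∈ (hubs S F P).filter (fun T => CT P s (afterM F P s ch y z) z T ∧
        Nh P s y T), wT F P s T := by
  have hδ := H.δpos
  have hδ' := H.δle
  simp only [sum_filter, mul_sum, ← sum_add_distrib]
  refine sum_le_sum fun T hT => ?_
  have h0 := wT_nonneg H s T
  have hx : 0 ≤ P.δ * wT F P s T := mul_nonneg hδ.le h0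
  have hx2 : P.δ * wT F P s T ≤ 1 / 9 * wT F P s T := mul_le_mul_of_nonneg_right hδ' h0
  have hx3 : 0 ≤ P.δ * (P.δ * wT F P s T) := mul_nonneg hδ.le hx
  have hx4 : P.δ * (P.δ * wT F P s T) ≤ 1 / 9 * (P.δ * wT F P s T) :=
    mul_le_mul_of_nonneg_right hδ' hx
  unfold gT
  rw [rhoT_cold hyc, rhoT_cold hzc]
  have hs1 : ∀ e, unf (afterM F P s ch y z) e → unf s e := fun e he => unf_of_unf he
  by_cases c1 : CT P s (afterM F P s ch y z) y T
  · have n1 := wm_nh hT hs1 hyc (Or.inl c1)
    by_cases c2 : CT P s (afterM F P s ch y z) z T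
    · have n2 := wm_nh hT hs1 hzc (Or.inl c2)
      simp only [c1, c2, n1, n2, and_self, not_true_eq_false, false_and, if_true, if_false]
      nlinarith
    · by_cases w2 : WmT P s (afterM F P s ch y z) z T
      · have n2 := wm_nh hT hs1 hzc (Or.inr w2)
        simp only [c1, c2, w2, n2, and_self, not_true_eq_false, false_and, if_true, if_false,
          not_false_eq_true]
        nlinarith
      · simp only [c1, c2, w2, not_true_eq_false, false_and, and_false, if_true, if_false]
        split_ifs <;> nlinarith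
  · by_cases w1 : WmT P s (afterM F P s ch y z) y T
    · have n1 := wm_nh hT hs1 hyc (Or.inr w1)
      by_cases c2 : CT P s (afterM F P s ch y z) z T
      · have n2 := wm_nh hT hs1 hzc (Or.inl c2)
        simp only [c1, c2, w1, n1, and_self, not_true_eq_false, false_and, if_true, if_false,
          not_false_eq_true]
        nlinarith
      · by_cases w2 : WmT P s (afterM F P s ch y z) z T
        · simp only [c1, c2, w1, w2, and_self, false_and, if_true, if_false,
            not_false_eq_true]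
          nlinarith
        · simp only [c1, c2, w1, w2, and_self, false_and, and_false, if_true, if_false,
            not_false_eq_true]
          nlinarith
    · by_cases c2 : CT P s (afterM F P s ch y z) z T
      · simp only [c1, c2, w1, not_true_eq_false, false_and, true_and, and_false, if_true,
          if_false]
        split_ifs <;> nlinarith
      · by_cases w2 : WmT P s (afterM F P s ch y z) z T
        · simp only [c1, c2, w1, w2, and_self, false_and, and_false, if_true, if_false,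
            not_false_eq_true]
          nlinarith
        · simp only [c1, c2, w1, w2, false_and, and_false, if_false]
          nlinarith

/-- Hub structures, `y` hot and `z` cold. -/
theorem JT_HC (H : Hyp S F P k D L R R' θ τ) {s : State X} {ch : X → Finset X} {y z : X}
    (hyh : hotpt F P s y) (hzc : ¬ hotpt F P s z) :
    ∑ T ∈ hubs S F P, gT F P s ch y z T * wT F P s T ≤
      (1 - P.δ) * ∑ T ∈ (hubs S F P).filter (RT P (afterM F P s ch y z) ch y), wT F P s T +
      ((1 / 2 - P.δ) * ∑ T ∈ (hubs S F P).filter (CT P s (afterM F P s ch y z) z), wT F P s T +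
      1 / 3 * ∑ T ∈ (hubs S F P).filter (fun T => ¬ CT P s (afterM F P s ch y z) z T ∧
        WmT P s (afterM F P s ch y z) z T), wT F P s T) +
      1 / 4 * ∑ T ∈ (hubs S F P).filter (fun T => CT P s (afterM F P s ch y z) z T ∧
        RT P (afterM F P s ch y z) ch y T), wT F P s T := by
  have hδ := H.δpos
  have hδ' := H.δle
  simp only [sum_filter, mul_sum, ← sum_add_distrib]
  refine sum_le_sum fun T hT => ?_
  have h0 := wT_nonneg H s T
  have hx : 0 ≤ P.δ * wT F P s T := mul_nonneg hδ.le h0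
  have hx2 : P.δ * wT F P s T ≤ 1 / 9 * wT F P s T := mul_le_mul_of_nonneg_right hδ' h0
  have hx3 : 0 ≤ P.δ * (P.δ * wT F P s T) := mul_nonneg hδ.le hx
  have hx4 : P.δ * (P.δ * wT F P s T) ≤ 1 / 9 * (P.δ * wT F P s T) :=
    mul_le_mul_of_nonneg_right hδ' hx
  have hρ : rhoT F P s (afterM F P s ch y z) ch y T =
      if RT P (afterM F P s ch y z) ch y T then 3 / 2 - P.δ else 1 := by
    unfold rhoT
    rw [if_pos hyh]
  unfold gT
  rw [rhoT_cold hzc, hρ]
  by_cases r1 : RT P (afterM F P s ch y z) ch y T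
  · by_cases c2 : CT P s (afterM F P s ch y z) z T
    · simp only [r1, c2, and_self, not_true_eq_false, false_and, if_true, if_false]
      nlinarith
    · by_cases w2 : WmT P s (afterM F P s ch y z) z T
      · simp only [r1, c2, w2, and_self, false_and, if_true, if_false,
          not_false_eq_true]
        nlinarith
      · simp only [r1, c2, w2, false_and, and_false, if_true, if_false]
        nlinarith
  · by_cases c2 : CT P s (afterM F P s ch y z) z T
    · simp only [r1, c2, not_true_eq_false, false_and, and_false, if_true, if_false]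
      nlinarith
    · by_cases w2 : WmT P s (afterM F P s ch y z) z T
      · simp only [r1, c2, w2, and_self, and_false, if_true, if_false,
          not_false_eq_true]
        nlinarith
      · simp only [r1, c2, w2, and_false, if_false]
        nlinarith

/-! ### The decision -/

theorem afterM_comm (s : State X) (ch : X → Finset X) (y z : X) :
    afterM F P s ch y z = afterM F P s ch z y := by
  unfold afterM
  congr 1
  · exact Finset.insert_comm y z s.M
  · funext v
    simp only [or_comm]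

theorem filter_sum_le_phi (H : Hyp S F P k D L R R' θ τ) (s : State X) (p : X) :
    ∑ T ∈ (hubs S F P).filter (Nh P s p), wT F P s T ≤ phi S F P s p := by
  unfold phi
  have : 0 ≤ ∑ A ∈ F.filter (fun A => Disjoint A s.B ∧ nonhot P s A ∧ p ∈ A), wt F P s A :=
    sum_nonneg fun A _ => wt_nonneg H s A
  linarith

/-- `y` hot, and `z` either cold or with a smaller class. -/
theorem turn_hot (H : Hyp S F P k D L R R' θ τ) {s : State X} {v l : ℝ} (hrec : RecOK F s)
    (hd : Disjoint s.M s.B) (hh : ∀ A ∈ F, Disjoint A s.B → hot P s A + 2 ≤ P.h)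
    (h3 : ∀ A ∈ F, Disjoint A s.B → 3 ≤ #(A \ s.M))
    (hl : 0 ≤ l) (hphi : ∀ p ∈ free S s, phi S F P s p ≤ l) (hsum : Phi S F P s + l ≤ v)
    {ch : X → Finset X} (hch : ChOK F P s ch) {y z : X} (hyz : y ≠ z)
    (hy : y ∈ free S s) (hz : z ∈ free S s) (hfr : (free S (afterM F P s ch y z)).Nonempty)
    (hyh : hotpt F P s y)
    (hcase : ¬ hotpt F P s z ∨
      (hotpt F P s z ∧ ∑ A ∈ F.filter (RS P ch z), wt F P s A +
        ∑ T ∈ (hubs S F P).filter (RT P (afterM F P s ch y z) ch z), wT F P s T ≤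
      ∑ A ∈ F.filter (RS P ch y), wt F P s A +
        ∑ T ∈ (hubs S F P).filter (RT P (afterM F P s ch y z) ch y), wT F P s T)) :
    ∃ x ∈ free S (afterM F P s ch y z),
      Inv S F P (afterB (afterM F P s ch y z) x) (v + 20 * θ) := by
  have hδ := H.δpos
  have hδ' := H.δle
  have hθ := H.θpos
  have hτ0 := H.τpos
  have hτ := H.τle
  rcases hcase with hzc | ⟨hzh, hle⟩
  · -- `z` is cold
    obtain ⟨x0, hx0, hmax⟩ := exists_max_image (free S (afterM F P s ch y z))
      (fun x => ∑ T ∈ (hubs S F P).filter (fun T : Hub X => x ∈ T.1), wT F P s T) hfr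
    set Λ := ∑ T ∈ (hubs S F P).filter (fun T : Hub X => x0 ∈ T.1), wT F P s T with hΛ
    have hΛ0 : 0 ≤ Λ := sum_nonneg fun T _ => wT_nonneg H s T
    by_cases hJ2 : 2 * Jt S F P s ch y z ≤ Λ
    · exact ⟨x0, hx0, reply_G2 H hrec hd hh hl hphi hsum hch hyz hy hz hx0 hJ2⟩
    by_cases hJ1 : Jt S F P s ch y z ≤ l + 20 * θ
    · exact reply_G1 H hrec hd hh hsum hch hyz hy hz hfr hJ1
    rw [not_le] at hJ1 hJ2
    have hs1 : ∀ e, unf (afterM F P s ch y z) e → unf s e := fun e he => unf_of_unf he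
    have hprice := cold_price H (s1 := afterM F P s ch y z) hs1 hzc
    have hpl := hphi z hz
    have hJS := JS_HC H (ch := ch) hyz hyh hzc
    have hJT := JT_HC H (ch := ch) (y := y) hyh hzc
    have htin := tiny H ch hΛ0 hmax (Or.inr rfl : z = y ∨ z = z) hyz
      (fun e => unf (afterM F P s ch y z) e ∧ (e.1 = ch y ∨ rel P e.1 (ch y)))
    have e1 : ∀ T : Hub X, (∃ e ∈ T.2, (unf (afterM F P s ch y z) e ∧
        (e.1 = ch y ∨ rel P e.1 (ch y))) ∧ y ∈ core T.2 e.1) ↔
        RT P (afterM F P s ch y z) ch y T := by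
      intro T
      unfold RT
      constructor
      · rintro ⟨e, he, ⟨h1, h2⟩, h3⟩
        exact ⟨e, he, h1, h3, h2⟩
      · rintro ⟨e, he, h1, h3, h2⟩
        exact ⟨e, he, ⟨h1, h2⟩, h3⟩
    simp only [e1] at htin
    have hGz := cold_S H (ch := ch) hzc
    have hHz := cold_T H (s1 := afterM F P s ch y z) (ch := ch) hzc
    set Sz := ∑ A ∈ F.filter (fun A => z ∈ A), wt F P s A with hSz
    set Cz := ∑ T ∈ (hubs S F P).filter (CT P s (afterM F P s ch y z) z), wT F P s T with hCz
    set wz := ∑ T ∈ (hubs S F P).filter (fun T => ¬ CT P s (afterM F P s ch y z) z T ∧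
        WmT P s (afterM F P s ch y z) z T), wT F P s T with hwz
    set py := ∑ A ∈ F.filter (RS P ch y), wt F P s A with hpy
    set ty := ∑ T ∈ (hubs S F P).filter (RT P (afterM F P s ch y z) ch y), wT F P s T with hty
    have hSz0 : 0 ≤ Sz := sum_nonneg fun A _ => wt_nonneg H s A
    have hCz0 : 0 ≤ Cz := sum_nonneg fun T _ => wT_nonneg H s T
    have hwz0 : 0 ≤ wz := sum_nonneg fun T _ => wT_nonneg H s T
    have hpy0 : 0 ≤ py := sum_nonneg fun A _ => wt_nonneg H s A
    have hty0 : 0 ≤ ty := sum_nonneg fun T _ => wT_nonneg H s T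
    by_cases hbal : (1 / 2 - P.δ) * (Sz + Cz) + 2 / 3 * wz + 1 / 2 * (τ * (l + Λ)) ≤
        (1 - P.δ / 4) * (py + ty)
    · -- reply in `ch y`
      refine reply_H H hrec hd hh h3 hl hphi hsum hch hyz hy hz hyh
        (E := 1 / 2 * (τ * (l + Λ)) + 1 / 3 * wz) ?_ ?_ ?_
      · positivity
      · intro p hp
        obtain ⟨hp1, hpy', hpz⟩ := free_afterM hp
        have h5 := cold_E H ch hΛ0 hmax (Or.inr rfl : z = y ∨ z = z) hpz hzc
        have h6 := filter_sum_le_phi H s p
        have h7 := hphi p hp1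
        have h8 : τ * (∑ T ∈ (hubs S F P).filter (Nh P s p), wT F P s T + Λ) ≤
            τ * (l + Λ) := mul_le_mul_of_nonneg_left (by linarith) hτ0
        linarith
      · rw [hGz, hHz]
        linarith
    · exfalso
      rw [not_le] at hbal
      unfold Jt at hJ1 hJ2
      set J := ∑ A ∈ F, gS F P s ch y z A * wt F P s A +
        ∑ T ∈ hubs S F P, gT F P s ch y z T * wT F P s T with hJ
      -- J ≤ (1-δ)(py+ty) + (1/2-δ)(Sz+Cz) + wz/3 + τ(ty+Λ)/4 + 3θ
      have hJb : J ≤ (1 - P.δ) * (py + ty) + (1 / 2 - P.δ) * (Sz + Cz) + 1 / 3 * wz +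
          1 / 4 * (τ * (ty + Λ)) + 3 * θ := by
        linarith
      -- products
      have a1 : 0 ≤ P.δ * (Sz + Cz) := by positivity
      have a2 : 0 ≤ P.δ * wz := by positivity
      have a3 : P.δ * (Sz + Cz) ≤ 1 / 9 * (Sz + Cz) :=
        mul_le_mul_of_nonneg_right hδ' (by positivity)
      have b1 : 0 ≤ P.δ * (py + ty) := by positivity
      have b2 : P.δ * (py + ty) ≤ 1 / 9 * (py + ty) :=
        mul_le_mul_of_nonneg_right hδ' (by positivity)
      have t1 : 0 ≤ τ * (l + Λ) := by positivity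
      have t2 : τ * (l + Λ) ≤ 1 / 324 * (l + Λ) :=
        mul_le_mul_of_nonneg_right (by linarith) (by positivity)
      -- ty ≤ l + Λ
      have hP : py + ty ≤ l + Λ := by linarith
      have t3 : τ * (ty + Λ) ≤ τ * (l + 2 * Λ) :=
        mul_le_mul_of_nonneg_left (by linarith) hτ0
      -- (1-δ)(py+ty) ≤ (1 - 3δ/4) * [...]
      have c0 : (1 - P.δ) * (py + ty) ≤ (1 - 3 / 4 * P.δ) * ((1 - P.δ / 4) * (py + ty)) := by
        have : 0 ≤ P.δ * (P.δ * (py + ty)) := by positivity
        nlinarith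
      have c1 : (1 - 3 / 4 * P.δ) * ((1 - P.δ / 4) * (py + ty)) ≤
          (1 - 3 / 4 * P.δ) * ((1 / 2 - P.δ) * (Sz + Cz) + 2 / 3 * wz +
            1 / 2 * (τ * (l + Λ))) :=
        mul_le_mul_of_nonneg_left hbal.le (by linarith)
      have c2 : (1 - 3 / 4 * P.δ) * ((1 / 2 - P.δ) * (Sz + Cz) + 2 / 3 * wz +
            1 / 2 * (τ * (l + Λ))) ≤
          (1 / 2 - P.δ) * (Sz + Cz) + 2 / 3 * wz - 1 / 2 * (P.δ * wz) +
            1 / 2 * (τ * (l + Λ)) := by
        have q1 : 0 ≤ P.δ * ((1 / 2 - P.δ) * (Sz + Cz)) := by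
          have : 0 ≤ (1 / 2 - P.δ) := by linarith
          positivity
        have q2 : 0 ≤ P.δ * (τ * (l + Λ)) := by positivity
        nlinarith
      -- so J ≤ (1-δ/2)(Sz+Cz+wz) + ...
      have d1 : J ≤ (Sz + Cz + wz) - 1 / 2 * (P.δ * (Sz + Cz + wz)) +
          1 / 2 * (τ * (l + Λ)) + 1 / 4 * (τ * (l + 2 * Λ)) + 3 * θ := by
        have e2 : P.δ * (Sz + Cz + wz) = P.δ * (Sz + Cz) + P.δ * wz := by ring
        rw [e2]
        linarith
      have d2 : (Sz + Cz + wz) - 1 / 2 * (P.δ * (Sz + Cz + wz)) ≤ l - 1 / 2 * (P.δ * l) := by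
        have : (1 - P.δ / 2) * (Sz + Cz + wz) ≤ (1 - P.δ / 2) * l :=
          mul_le_mul_of_nonneg_left (by linarith) (by linarith)
        linarith
      have d3 : τ * l ≤ P.δ / 36 * l := mul_le_mul_of_nonneg_right hτ hl
      have d4 : τ * Λ ≤ P.δ / 36 * Λ := mul_le_mul_of_nonneg_right hτ hΛ0
      have d5 : P.δ / 36 * Λ ≤ P.δ / 36 * (2 * J) :=
        mul_le_mul_of_nonneg_left hJ2.le (by positivity)
      -- J (1 - δ/18) ≤ l (1 - δ/2 + δ/48) + 3θ, contradiction
      have d6 : (1 - P.δ / 18) * (l + 20 * θ) < (1 - P.δ / 18) * J :=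
        mul_lt_mul_of_pos_left hJ1 (by linarith)
      have d7 : 0 ≤ P.δ * l := by positivity
      have d8 : P.δ * θ ≤ 1 / 9 * θ := mul_le_mul_of_nonneg_right hδ' hθ
      nlinarith
  · -- both hot
    have hGz := hot_S H (ch := ch) hzh
    have hHz := hot_T H (s1 := afterM F P s ch y z) (ch := ch) hzh
    have hp0 : 0 ≤ ∑ A ∈ F.filter (RS P ch z), wt F P s A :=
      sum_nonneg fun A _ => wt_nonneg H s A
    have ht0 : 0 ≤ ∑ T ∈ (hubs S F P).filter (RT P (afterM F P s ch y z) ch z), wT F P s T :=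
      sum_nonneg fun T _ => wT_nonneg H s T
    have hp1 : 0 ≤ ∑ A ∈ F.filter (RS P ch y), wt F P s A :=
      sum_nonneg fun A _ => wt_nonneg H s A
    have ht1 : 0 ≤ ∑ T ∈ (hubs S F P).filter (RT P (afterM F P s ch y z) ch y), wT F P s T :=
      sum_nonneg fun T _ => wT_nonneg H s T
    refine reply_H H hrec hd hh h3 hl hphi hsum hch hyz hy hz hyh
      (E := (1 / 2 - P.δ) *
        ∑ T ∈ (hubs S F P).filter (RT P (afterM F P s ch y z) ch z), wT F P s T) ?_ ?_ ?_
    · have : 0 ≤ 1 / 2 - P.δ := by linarith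
      positivity
    · intro p hp
      rw [← hHz]
      refine sum_le_sum_of_subset_of_nonneg (filter_subset _ _) fun T _ _ => ?_
      exact mul_nonneg (by linarith [rhoT_ge H s (afterM F P s ch y z) ch z T])
        (wT_nonneg H s T)
    · rw [hGz, hHz]
      set pz := ∑ A ∈ F.filter (RS P ch z), wt F P s A
      set tz := ∑ T ∈ (hubs S F P).filter (RT P (afterM F P s ch y z) ch z), wT F P s T
      set py := ∑ A ∈ F.filter (RS P ch y), wt F P s A
      set ty := ∑ T ∈ (hubs S F P).filter (RT P (afterM F P s ch y z) ch y), wT F P s T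
      have q1 : (1 - P.δ) * (pz + tz) ≤ (1 - P.δ) * (py + ty) :=
        mul_le_mul_of_nonneg_left hle (by linarith)
      have q2 : 0 ≤ P.δ * (py + ty) := by positivity
      have q3 : 0 ≤ P.δ * tz := by positivity
      nlinarith

theorem turn (H : Hyp S F P k D L R R' θ τ) {s : State X} {v : ℝ} (hI : Inv S F P s v)
    (hv : v < 1 / 8) {ch : X → Finset X} (hch : ChOK F P s ch) {y z : X} (hyz : y ≠ z)
    (hy : y ∈ free S s) (hz : z ∈ free S s) (hfr : (free S (afterM F P s ch y z)).Nonempty) :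
    ∃ x ∈ free S (afterM F P s ch y z),
      Inv S F P (afterB (afterM F P s ch y z) x) (v + 20 * θ) := by
  have hh := hot_le H hI (by linarith)
  have h3 := three_le H hI hv
  obtain ⟨hrec, hd, l, hl, hphi, hsum⟩ := hI
  have hδ := H.δpos
  have hδ' := H.δle
  have hθ := H.θpos
  have hτ0 := H.τpos
  have hτ := H.τle
  by_cases hyh : hotpt F P s y
  · by_cases hzh : hotpt F P s z
    · rcases le_total (∑ A ∈ F.filter (RS P ch z), wt F P s A +
        ∑ T ∈ (hubs S F P).filter (RT P (afterM F P s ch y z) ch z), wT F P s T)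
        (∑ A ∈ F.filter (RS P ch y), wt F P s A +
        ∑ T ∈ (hubs S F P).filter (RT P (afterM F P s ch y z) ch y), wT F P s T) with hle | hle
      · exact turn_hot H hrec hd hh h3 hl hphi hsum hch hyz hy hz hfr hyh (Or.inr ⟨hzh, hle⟩)
      · rw [afterM_comm s ch y z] at hfr hle ⊢
        exact turn_hot H hrec hd hh h3 hl hphi hsum hch hyz.symm hz hy hfr hzh
          (Or.inr ⟨hyh, hle⟩)
    · exact turn_hot H hrec hd hh h3 hl hphi hsum hch hyz hy hz hfr hyh (Or.inl hzh)
  · by_cases hzh : hotpt F P s z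
    · rw [afterM_comm s ch y z] at hfr ⊢
      exact turn_hot H hrec hd hh h3 hl hphi hsum hch hyz.symm hz hy hfr hzh (Or.inl hyh)
    · -- both cold
      obtain ⟨x0, hx0, hmax⟩ := exists_max_image (free S (afterM F P s ch y z))
        (fun x => ∑ T ∈ (hubs S F P).filter (fun T : Hub X => x ∈ T.1), wT F P s T) hfr
      set Λ := ∑ T ∈ (hubs S F P).filter (fun T : Hub X => x0 ∈ T.1), wT F P s T with hΛ
      have hΛ0 : 0 ≤ Λ := sum_nonneg fun T _ => wT_nonneg H s T
      by_cases hJ2 : 2 * Jt S F P s ch y z ≤ Λ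
      · exact ⟨x0, hx0, reply_G2 H hrec hd hh hl hphi hsum hch hyz hy hz hx0 hJ2⟩
      by_cases hJ1 : Jt S F P s ch y z ≤ l + 20 * θ
      · exact reply_G1 H hrec hd hh hsum hch hyz hy hz hfr hJ1
      exfalso
      rw [not_le] at hJ1 hJ2
      have hs1 : ∀ e, unf (afterM F P s ch y z) e → unf s e := fun e he => unf_of_unf he
      have hp1 := cold_price H (s1 := afterM F P s ch y z) hs1 hyh
      have hp2 := cold_price H (s1 := afterM F P s ch y z) hs1 hzh
      have hl1 := hphi y hy
      have hl2 := hphi z hz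
      have hJS := JS_CC H (ch := ch) hyz hyh hzh
      have hJT := JT_CC H (ch := ch) hyh hzh
      have ht1 := tiny_nh H ch hΛ0 hmax (Or.inl rfl : y = y ∨ y = z) hyz.symm
      have ht2 := tiny_nh H ch hΛ0 hmax (Or.inr rfl : z = y ∨ z = z) hyz
      have hf1 := filter_sum_le_phi H s y
      have hf2 := filter_sum_le_phi H s z
      unfold Jt at hJ1 hJ2
      set J := ∑ A ∈ F, gS F P s ch y z A * wt F P s A +
        ∑ T ∈ hubs S F P, gT F P s ch y z T * wT F P s T with hJ
      set Sy := ∑ A ∈ F.filter (fun A => y ∈ A), wt F P s A with hSy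
      set Sz := ∑ A ∈ F.filter (fun A => z ∈ A), wt F P s A with hSz
      set Cy := ∑ T ∈ (hubs S F P).filter (CT P s (afterM F P s ch y z) y), wT F P s T with hCy
      set Cz := ∑ T ∈ (hubs S F P).filter (CT P s (afterM F P s ch y z) z), wT F P s T with hCz
      set wy := ∑ T ∈ (hubs S F P).filter (fun T => ¬ CT P s (afterM F P s ch y z) y T ∧
        WmT P s (afterM F P s ch y z) y T), wT F P s T with hwy
      set wz := ∑ T ∈ (hubs S F P).filter (fun T => ¬ CT P s (afterM F P s ch y z) z T ∧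
        WmT P s (afterM F P s ch y z) z T), wT F P s T with hwz
      have hwy0 : 0 ≤ wy := sum_nonneg fun T _ => wT_nonneg H s T
      have hwz0 : 0 ≤ wz := sum_nonneg fun T _ => wT_nonneg H s T
      have u1 : τ * (∑ T ∈ (hubs S F P).filter (Nh P s z), wT F P s T + Λ) ≤ τ * (l + Λ) :=
        mul_le_mul_of_nonneg_left (by linarith) hτ0
      have u2 : τ * (∑ T ∈ (hubs S F P).filter (Nh P s y), wT F P s T + Λ) ≤ τ * (l + Λ) :=
        mul_le_mul_of_nonneg_left (by linarith) hτ0
      have v1 : 7 / 18 * wy ≤ (1 / 2 - P.δ) * wy :=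
        mul_le_mul_of_nonneg_right (by linarith) hwy0
      have v2 : 7 / 18 * wz ≤ (1 / 2 - P.δ) * wz :=
        mul_le_mul_of_nonneg_right (by linarith) hwz0
      have v3 : (1 / 2 - P.δ) * (Sy + (Cy + wy)) ≤ (1 / 2 - P.δ) * l :=
        mul_le_mul_of_nonneg_left (by linarith) (by linarith)
      have v4 : (1 / 2 - P.δ) * (Sz + (Cz + wz)) ≤ (1 / 2 - P.δ) * l :=
        mul_le_mul_of_nonneg_left (by linarith) (by linarith)
      have hJb : J ≤ (1 - 2 * P.δ) * l + 1 / 2 * (τ * (l + Λ)) + 3 * θ := by linarith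
      have d3 : τ * l ≤ P.δ / 36 * l := mul_le_mul_of_nonneg_right hτ hl
      have d4 : τ * Λ ≤ P.δ / 36 * Λ := mul_le_mul_of_nonneg_right hτ hΛ0
      have d5 : P.δ / 36 * Λ ≤ P.δ / 36 * (2 * J) :=
        mul_le_mul_of_nonneg_left hJ2.le (by positivity)
      have d6 : (1 - P.δ / 36) * (l + 20 * θ) < (1 - P.δ / 36) * J :=
        mul_lt_mul_of_pos_left hJ1 (by linarith)
      have d7 : 0 ≤ P.δ * l := by positivity
      have d8 : P.δ * θ ≤ 1 / 9 * θ := mul_le_mul_of_nonneg_right hδ' hθ
      nlinarith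

end Pool.H68.MB
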