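import Pool.Agent.H68.MB.Game

/-!
# Engine for the (2:1) game: definitions

`F` is a family of `k`-element winning sets of the board `S`.  A state consists of Maker's points
`M`, Breaker's points `B` and a record `St`: `St v = some A0` means that when Maker claimed `v`,
the point `v` lay in a hot set and `A0` was the hot set chosen for it.
-/

namespace Pool.H68.MB

open Finset
open scoped Classical

variable {X : Type*} [DecidableEq X]

/-- Parameters of the potential. -/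
structure Par where
  δ : ℝ
  K : ℝ
  c : ℝ
  w0 : ℝ
  W : ℕ → ℝ
  a : ℕ → ℝ
  h : ℕ
  r : ℕ
  t : ℕ
  t' : ℕ
  j1 : ℕ
  j2 : ℕ

/-- State: Maker's points, Breaker's points, record of hot moves. -/
structure State (X : Type*) where
  M : Finset X
  B : Finset X
  St : X → Option (Finset X)

/-- Two different sets are related if they have at least `t` common points. -/
def rel (P : Par) (A A' : Finset X) : Prop := A' ≠ A ∧ P.t ≤ #(A ∩ A')

/-- `A0` counts as an unrelated hitting set of `A`. -/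
def unrel (P : Par) (A A0 : Finset X) : Prop := A0 ≠ A ∧ #(A ∩ A0) < P.t

/-- Number of alive relatives of `A`. -/
noncomputable def nrel (F : Finset (Finset X)) (P : Par) (s : State X) (A : Finset X) : ℕ :=
  #{A' ∈ F | rel P A A' ∧ Disjoint A' s.B}

/-- Number of hot hits of `A` by unrelated sets. -/
noncomputable def hot (P : Par) (s : State X) (A : Finset X) : ℕ :=
  #{v ∈ A | ∃ A0, s.St v = some A0 ∧ unrel P A A0}

/-- The multiplier `K^nrel * 2^(h - hot)`. -/
noncomputable def mult (F : Finset (Finset X)) (P : Par) (s : State X) (A : Finset X) : ℝ :=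
  P.K ^ nrel F P s A * 2 ^ (P.h - hot P s A)

/-- Weight of a single set. -/
noncomputable def wt (F : Finset (Finset X)) (P : Par) (s : State X) (A : Finset X) : ℝ :=
  if Disjoint A s.B then mult F P s A * P.W #(A \ s.M) else 0

/-- A spoke is a pair (set, link point). -/
abbrev Spoke (X : Type*) := Finset X × X

/-- A hub structure: hub and spokes. -/
abbrev Hub (X : Type*) := Finset X × Finset (Finset X × X)

/-- The core of a set `A` with respect to a set of spokes: remove the points of the other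
spokes. -/
noncomputable def core (σ : Finset (Spoke X)) (A : Finset X) : Finset X :=
  A \ (σ.filter (fun e => e.1 ≠ A)).biUnion Prod.fst

/-- Weight of a spoke. -/
noncomputable def sw (F : Finset (Finset X)) (P : Par) (s : State X) (σ : Finset (Spoke X))
    (e : Spoke X) : ℝ :=
  if s.St e.2 = some e.1 then P.c
  else if e.2 ∉ s.M ∧ Disjoint e.1 s.B then P.c * mult F P s e.1 * P.a #(core σ e.1 \ s.M)
  else 0

/-- Weight of a hub structure. -/
noncomputable def wT (F : Finset (Finset X)) (P : Par) (s : State X) (T : Hub X) : ℝ :=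
  if Disjoint T.1 s.B then P.w0 * ∏ e ∈ T.2, sw F P s T.2 e else 0

/-- Valid hub structures. -/
def ValidHub (F : Finset (Finset X)) (P : Par) (T : Hub X) : Prop :=
  T.1 ∈ F ∧ #T.2 ≤ P.r ∧
  (∀ e ∈ T.2, e.1 ∈ F ∧ e.2 ∈ e.1 ∧ e.2 ∈ T.1 ∧ unrel P T.1 e.1) ∧
  (∀ e ∈ T.2, ∀ e' ∈ T.2, e ≠ e' → e.1 ≠ e'.1 ∧ e.2 ≠ e'.2 ∧ #(e.1 ∩ e'.1) < P.t')

/-- The finite set of all valid hub structures. -/
noncomputable def hubs (S : Finset X) (F : Finset (Finset X)) (P : Par) : Finset (Hub X) :=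
  (F ×ˢ (F ×ˢ S).powerset).filter (ValidHub F P)

/-- `A` is not hot: it has more than `j1` points not claimed by Maker. -/
def nonhot (P : Par) (s : State X) (A : Finset X) : Prop := P.j1 < #(A \ s.M)

/-- An unfrozen spoke that is alive. -/
def unf (s : State X) (e : Spoke X) : Prop :=
  s.St e.2 ≠ some e.1 ∧ e.2 ∉ s.M ∧ Disjoint e.1 s.B

/-- `T` is counted at the point `p`: an unfrozen alive non-hot spoke has `p` in its core. -/
def Nh (P : Par) (s : State X) (p : X) (T : Hub X) : Prop :=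
  ∃ e ∈ T.2, unf s e ∧ nonhot P s e.1 ∧ p ∈ core T.2 e.1

/-- The total potential. -/
noncomputable def Phi (S : Finset X) (F : Finset (Finset X)) (P : Par) (s : State X) : ℝ :=
  ∑ A ∈ F, wt F P s A + ∑ T ∈ hubs S F P, wT F P s T

/-- The price of a point (non-hot part). -/
noncomputable def phi (S : Finset X) (F : Finset (Finset X)) (P : Par) (s : State X) (p : X) :
    ℝ :=
  ∑ A ∈ F.filter (fun A => Disjoint A s.B ∧ nonhot P s A ∧ p ∈ A), wt F P s A +
  ∑ T ∈ (hubs S F P).filter (Nh P s p), wT F P s T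

/-- The unclaimed points. -/
def free (S : Finset X) (s : State X) : Finset X := S \ (s.M ∪ s.B)

/-- The record is consistent. -/
def RecOK (F : Finset (Finset X)) (s : State X) : Prop :=
  ∀ v A, s.St v = some A → A ∈ F ∧ v ∈ A ∧ v ∈ s.M

/-- The invariant: potential plus reserve at most `v`. -/
def Inv (S : Finset X) (F : Finset (Finset X)) (P : Par) (s : State X) (v : ℝ) : Prop :=
  RecOK F s ∧ Disjoint s.M s.B ∧ ∃ l : ℝ, 0 ≤ l ∧ (∀ p ∈ free S s, phi S F P s p ≤ l) ∧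
    Phi S F P s + l ≤ v

/-- Hypotheses on the family. -/
structure Fam (S : Finset X) (F : Finset (Finset X)) (P : Par) (k D L R R' : ℕ) : Prop where
  sub : ∀ A ∈ F, A ⊆ S
  card : ∀ A ∈ F, #A = k
  deg : ∀ p, #(F.filter (fun A => p ∈ A)) ≤ D
  codeg : ∀ p q, p ≠ q → #(F.filter (fun A => p ∈ A ∧ q ∈ A)) ≤ L
  nrel : ∀ A ∈ F, #(F.filter (fun A' => rel P A A')) ≤ R
  ncl : ∀ A ∈ F, #(F.filter (fun A' => P.t' ≤ #(A ∩ A'))) ≤ R'

/-- Hypotheses on the parameters. -/
structure Num (P : Par) (k L R R' : ℕ) (θ τ : ℝ) : Prop where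
  δpos : 0 < P.δ
  δle : P.δ ≤ 1 / 9
  Kδ : P.K * P.δ = 16
  c1 : 1 ≤ P.c
  w0pos : 0 < P.w0
  W0 : P.W 0 = 1
  Wpos : ∀ u, 0 < P.W u
  Wanti : ∀ u, P.W (u + 1) ≤ P.W u
  Wg : ∀ u, P.W u ≤ (2 - P.δ) * P.W (u + 1)
  Wg' : ∀ u, P.j1 ≤ u → P.W u ≤ (3 / 2 - P.δ) * P.W (u + 1)
  a1 : ∀ u, u ≤ P.j1 → P.a u = 1
  apos : ∀ u, 0 < P.a u
  aanti : ∀ u, P.a (u + 1) ≤ P.a u
  ag : ∀ u, P.a u ≤ (3 / 2 - P.δ) * P.a (u + 1)
  ag' : ∀ u, u < P.j2 → P.a u ≤ 4 / 3 * P.a (u + 1)
  θpos : 0 ≤ θ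
  hθ : (L : ℝ) * (P.K ^ R * 2 ^ P.h * P.W (P.j1 + 1)) ≤ θ
  hτ : (k : ℝ) * L * (P.c * (P.K ^ R * 2 ^ P.h) * P.a (P.j2 + 1) * (3 / 2) ^ (P.r * P.t')) ≤ τ
  τpos : 0 ≤ τ
  τle : τ ≤ P.δ / 36
  hub : 1 ≤ P.w0 * P.c ^ P.r
  bad : P.r * (R' + 1) * P.t + 2 ≤ P.h

/-- Hypotheses on the family and the parameters. -/
structure Hyp (S : Finset X) (F : Finset (Finset X)) (P : Par) (k D L R R' : ℕ) (θ τ : ℝ) :
    Prop extends Fam S F P k D L R R', Num P k L R R' θ τ

end Pool.H68.MB
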