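import Pool.Agent.H68.MB.Lattice

/-!
# A core lattice has boundedly many relatives

Proof of `core_rel`.  Let `A = lat m a b d`, `A' = lat m a' b' d'` be members with
`#(A ∩ A') ≥ ζ m^2`.  `A ∩ A' = (X ∩ X') ×ˢ (Y ∩ Y')` with `X = {a + i d}`, `X' = {a' + i d'}` etc.,
so `#(X ∩ X') ≥ ζ m` and `#(Y ∩ Y') ≥ ζ m`.  Write `g = gcd d d'`, `d = β g`, `d' = α g`; points of
`X ∩ X'` differ by multiples of `lcm d d' = α d = β d'`, so `#(X ∩ X') ≤ (m-1)/α + 1` and
`≤ (m-1)/β + 1`; hence (`ζ m ≥ 2`) `α, β ≤ 2/ζ ≤ C := ⌊2/ζ⌋₊`.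
There are `i0, j0 < α ≤ C` with `a' ≡ a + i0 d`, `b' ≡ b + j0 d (mod d')` (a common point gives
`a + i d ≡ a'`, and `i` may be reduced mod `α` as `α d ≡ 0 mod d'`).
Put `Q = a / d'`; a common point `a + i d = a' + i' d'` gives `Q ≤ a' / d' + m`,
`a' / d' ≤ Q + m β / α + 1 ≤ Q + m C + 1`, and `w ∣ a' / d'`; so `a' / d' = w ((Q - m) / w + e)` with
`e ≤ (m (C + 1) + 1) / w + 1 ≤ (C + 2) / θ0 + 1`.
Hence `A'` is determined by `(α, β, i0, j0, e_x, e_y)`: `d' = α d / β`,
`a' = w ((a / d' - m) / w + e_x) d' + (a + i0 d) % d'`, same for `b'`; each of the six numbers has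
boundedly many values.
-/

namespace Pool.H68.MB

open Finset
open scoped Classical

namespace LR

/-- The arithmetic progression of first coordinates. -/
def ap (m a d : ℕ) : Finset ℕ := (range m).image (fun i => a + i * d)

theorem mem_ap {m a d x : ℕ} : x ∈ ap m a d ↔ ∃ i, i < m ∧ x = a + i * d := by
  simp only [ap, mem_image, mem_range]
  constructor
  · rintro ⟨i, hi, rfl⟩
    exact ⟨i, hi, rfl⟩
  · rintro ⟨i, hi, rfl⟩
    exact ⟨i, hi, rfl⟩

theorem card_ap_le (m a d : ℕ) : #(ap m a d) ≤ m := by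
  refine card_image_le.trans ?_
  rw [card_range]

theorem lat_inter_subset (m a b d a' b' d' : ℕ) :
    lat m a b d ∩ lat m a' b' d' ⊆ (ap m a d ∩ ap m a' d') ×ˢ (ap m b d ∩ ap m b' d') := by
  intro p hp
  rw [mem_inter] at hp
  obtain ⟨i, j, hi, hj, hpe⟩ := Lt.mem_lat.1 hp.1
  obtain ⟨i', j', hi', hj', hpe'⟩ := Lt.mem_lat.1 hp.2
  simp only [mem_product, mem_inter, mem_ap]
  refine ⟨⟨⟨i, hi, ?_⟩, ⟨i', hi', ?_⟩⟩, ⟨⟨j, hj, ?_⟩, ⟨j', hj', ?_⟩⟩⟩
  · rw [hpe]
  · rw [hpe']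
  · rw [hpe]
  · rw [hpe']

/-- Two progressions with gaps `d`, `d'` and `α d = β d'`, `α = d' / gcd`, have at most
`m / α + 1` common points. -/
theorem card_inter_le {m a d a' d' : ℕ} (hd : 1 ≤ d) (hd' : 1 ≤ d') :
    #(ap m a d ∩ ap m a' d') ≤ m / (d' / Nat.gcd d d') + 1 := by
  set g := Nat.gcd d d' with hg
  have hgpos : 0 < g := Nat.gcd_pos_of_pos_left _ (by omega)
  obtain ⟨α, hα⟩ : g ∣ d' := Nat.gcd_dvd_right d d'
  have hαe : d' / g = α := by rw [hα, Nat.mul_div_cancel_left _ hgpos]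
  have hαpos : 0 < α := by
    rcases Nat.eq_zero_or_pos α with h | h
    · rw [h, mul_zero] at hα
      omega
    · exact h
  rw [hαe]
  have hlcm : Nat.lcm d d' = α * d := by
    rw [Nat.lcm, ← hg]
    have h1 : d * d' = g * (α * d) := by rw [hα]; ring
    rw [h1, Nat.mul_div_cancel_left _ hgpos]
  have hMpos : 0 < α * d := Nat.mul_pos hαpos (by omega)
  have key : ∀ x ∈ ap m a d ∩ ap m a' d', (x - a) / (α * d) < m / α + 1 := by
    intro x hx
    rw [mem_inter, mem_ap] at hx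
    obtain ⟨i, hi, hxe⟩ := hx.1
    have h1 : x - a = d * i := by rw [hxe, mul_comm]; omega
    rw [h1, mul_comm α d, Nat.mul_div_mul_left _ _ (by omega)]
    exact Nat.lt_succ_of_le (Nat.div_le_div_right hi.le)
  have hinj : Set.InjOn (fun x => (x - a) / (α * d)) (ap m a d ∩ ap m a' d' : Finset ℕ) := by
    intro x hx y hy hxy
    simp only [coe_inter, Set.mem_inter_iff, mem_coe, mem_ap] at hx hy
    obtain ⟨⟨i, hi, hxi⟩, ⟨i', hi', hxi'⟩⟩ := hx
    obtain ⟨⟨j, hj, hyj⟩, ⟨j', hj', hyj'⟩⟩ := hy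
    have hmodd : x ≡ y [MOD d] := by
      rw [hxi, hyj]
      exact (Nat.ModEq.refl a).add (((Nat.modEq_zero_iff_dvd.2 (dvd_mul_left d i))).trans
        ((Nat.modEq_zero_iff_dvd.2 (dvd_mul_left d j))).symm)
    have hmodd' : x ≡ y [MOD d'] := by
      rw [hxi', hyj']
      exact (Nat.ModEq.refl a').add (((Nat.modEq_zero_iff_dvd.2 (dvd_mul_left d' i'))).trans
        ((Nat.modEq_zero_iff_dvd.2 (dvd_mul_left d' j'))).symm)
    have hmod : x ≡ y [MOD α * d] := by
      rw [← hlcm]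
      exact Nat.mod_lcm hmodd hmodd'
    have hxa : a ≤ x := by rw [hxi]; omega
    have hya : a ≤ y := by rw [hyj]; omega
    have hmod2 : (x - a) % (α * d) = (y - a) % (α * d) := by
      have : (x - a) + a ≡ (y - a) + a [MOD α * d] := by
        rwa [Nat.sub_add_cancel hxa, Nat.sub_add_cancel hya]
      exact Nat.ModEq.add_right_cancel' a this
    have e1 := Nat.div_add_mod (x - a) (α * d)
    have e2 := Nat.div_add_mod (y - a) (α * d)
    simp only at hxy
    rw [hxy, hmod2] at e1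
    omega
  calc #(ap m a d ∩ ap m a' d') ≤ #(range (m / α + 1)) :=
        card_le_card_of_injOn _ (fun x hx => by
          simpa using key x hx) hinj
    _ = m / α + 1 := card_range _

/-- One coordinate: the coarse coordinate is determined by two bounded numbers. -/
theorem one_dim {m w C E a d a' d' α β : ℕ} (hd' : 1 ≤ d') (hw : 1 ≤ w)
    (hwa' : w ∣ a' / d') (hαβ : α * d = β * d') (hα : 1 ≤ α) (hβC : β ≤ C) {x : ℕ}
    (hx : x ∈ ap m a d ∩ ap m a' d') (hE : m * (C + 1) / w + 1 ≤ E) :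
    ∃ i0 < α, ∃ e ≤ E, a' = d' * (w * ((a / d' - m) / w + e)) + (a + i0 * d) % d' := by
  rw [mem_inter, mem_ap, mem_ap] at hx
  obtain ⟨⟨i, hi, hxi⟩, ⟨i', hi', hxi'⟩⟩ := hx
  obtain ⟨k, hk⟩ := hwa'
  have hlow : a / d' ≤ a' / d' + m := by
    have h1 : a ≤ a' + i' * d' := by rw [← hxi', hxi]; omega
    have h2 : a / d' ≤ a' / d' + i' := by
      calc a / d' ≤ (a' + i' * d') / d' := Nat.div_le_div_right h1
        _ = a' / d' + i' := Nat.add_mul_div_right _ _ (by omega)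
    omega
  have hup : a' / d' ≤ a / d' + m * C := by
    have h0 : d ≤ C * d' := by
      calc d = 1 * d := (one_mul d).symm
        _ ≤ α * d := Nat.mul_le_mul_right _ hα
        _ = β * d' := hαβ
        _ ≤ C * d' := Nat.mul_le_mul_right _ hβC
    have h1 : a' ≤ a + (m * C) * d' := by
      have : i * d ≤ m * (C * d') := Nat.mul_le_mul hi.le h0
      rw [← mul_assoc] at this
      omega
    calc a' / d' ≤ (a + (m * C) * d') / d' := Nat.div_le_div_right h1
      _ = a / d' + m * C := Nat.add_mul_div_right _ _ (by omega)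
  have hk1 : (a / d' - m) / w ≤ k := by
    refine Nat.div_le_of_le_mul ?_
    rw [← hk]
    omega
  have hk2 : k ≤ (a / d' - m) / w + (m * (C + 1) / w + 1) := by
    have h1 : w * k ≤ (a / d' - m) + m * (C + 1) := by
      rw [← hk, mul_add, mul_one]
      omega
    have e1 := Nat.div_add_mod (a / d' - m) w
    have e2 := Nat.div_add_mod (m * (C + 1)) w
    have e3 := Nat.mod_lt (a / d' - m) (show w > 0 by omega)
    have e4 := Nat.mod_lt (m * (C + 1)) (show w > 0 by omega)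
    by_contra hcon
    have h3 : (a / d' - m) / w + m * (C + 1) / w + 2 ≤ k := by omega
    have h4 := Nat.mul_le_mul_left w h3
    have h5 : w * ((a / d' - m) / w + m * (C + 1) / w + 2) =
        w * ((a / d' - m) / w) + w * (m * (C + 1) / w) + 2 * w := by ring
    omega
  refine ⟨i % α, Nat.mod_lt _ (by omega), k - (a / d' - m) / w, by omega, ?_⟩
  rw [Nat.add_sub_cancel' hk1, ← hk]
  have hmod : (a + (i % α) * d) % d' = a' % d' := by
    have h1 : (i % α) * d + (i / α) * β * d' = i * d := by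
      have h2 : (i / α) * β * d' = (i / α) * (α * d) := by rw [hαβ]; ring
      rw [h2]
      conv_rhs => rw [← Nat.div_add_mod i α]
      ring
    have h3 : (a + (i % α) * d) + (i / α) * β * d' = a' + i' * d' := by
      rw [← hxi', hxi]
      omega
    calc (a + (i % α) * d) % d' = ((a + (i % α) * d) + (i / α) * β * d') % d' :=
          (Nat.add_mul_mod_self_right _ _ _).symm
      _ = (a' + i' * d') % d' := by rw [h3]
      _ = a' % d' := Nat.add_mul_mod_self_right _ _ _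
  rw [hmod, Nat.div_add_mod]

/-- If two progressions have at least `ζ m` common points (`ζ m ≥ 2`) then the reduced gap is
at most `2 / ζ`. -/
theorem gap_le {m a d a' d' : ℕ} {ζ : ℝ} (hζ : 0 < ζ) (hm : 2 ≤ ζ * m) (hd : 1 ≤ d)
    (hd' : 1 ≤ d') (h : ζ * m ≤ (#(ap m a d ∩ ap m a' d') : ℝ)) :
    d' / Nat.gcd d d' ≤ ⌊2 / ζ⌋₊ := by
  have h1 : (#(ap m a d ∩ ap m a' d') : ℝ) ≤ (m / (d' / Nat.gcd d d') : ℕ) + 1 := by
    exact_mod_cast card_inter_le (m := m) (a := a) (a' := a') hd hd'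
  have h2 : ((m / (d' / Nat.gcd d d') : ℕ) : ℝ) ≤ (m : ℝ) / ((d' / Nat.gcd d d' : ℕ) : ℝ) :=
    Nat.cast_div_le
  set α := d' / Nat.gcd d d' with hα
  have hαpos : 0 < α := by
    refine Nat.div_pos ?_ (Nat.gcd_pos_of_pos_left _ (by omega))
    exact Nat.le_of_dvd (by omega) (Nat.gcd_dvd_right d d')
  have hαR : (0 : ℝ) < α := by exact_mod_cast hαpos
  rw [Nat.le_floor_iff (by positivity), le_div_iff₀ hζ]
  have h3 : ζ * m ≤ (m : ℝ) / α + 1 := by linarith
  have h4 : ζ * m ≤ 2 * ((m : ℝ) / α) := by linarith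
  have hmpos : (0 : ℝ) < m := by
    by_contra hcon
    have : (m : ℝ) = 0 := le_antisymm (not_lt.1 hcon) (Nat.cast_nonneg m)
    rw [this] at hm
    linarith
  have h5 : ζ * m * α ≤ 2 * m := by
    have := mul_le_mul_of_nonneg_right h4 hαR.le
    rw [mul_assoc 2, div_mul_cancel₀ _ hαR.ne'] at this
    exact this
  have h6 : (α * ζ) * m ≤ 2 * m := by linarith
  exact le_of_mul_le_mul_right h6 hmpos

end LR

theorem core_rel (ζ θ0 : ℝ) (hζ : 0 < ζ) (hθ0 : 0 < θ0) :
    ∃ R m0 : ℕ, ∀ N m w : ℕ, m0 ≤ m → θ0 * m ≤ w → ∀ A ∈ coreFam N m w,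
      #((coreFam N m w).filter (fun A' => ζ * (m : ℝ) ^ 2 ≤ (#(A ∩ A') : ℝ))) ≤ R := by
  set C : ℕ := ⌊2 / ζ⌋₊ with hC
  set E : ℕ := ⌈((C : ℝ) + 1) / θ0⌉₊ + 1 with hE
  refine ⟨((C + 1) * (C + 1)) * (((C + 1) * (C + 1)) * ((E + 1) * (E + 1))),
    ⌈2 / ζ⌉₊ + 1, fun N m w hm hw A hA => ?_⟩
  have hm1 : 1 ≤ m := by omega
  have hmR : (0 : ℝ) < m := by exact_mod_cast hm1
  have hζm : 2 ≤ ζ * m := by
    have h1 : (2 / ζ : ℝ) ≤ m := by
      refine (Nat.le_ceil _).trans ?_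
      exact_mod_cast (by omega : ⌈2 / ζ⌉₊ ≤ m)
    rw [div_le_iff₀ hζ] at h1
    linarith
  have hw1 : 1 ≤ w := by
    have : (0 : ℝ) < w := lt_of_lt_of_le (mul_pos hθ0 hmR) hw
    exact_mod_cast this
  have hEE : m * (C + 1) / w + 1 ≤ E := by
    have h1 : ((m * (C + 1) / w : ℕ) : ℝ) ≤ ((C : ℝ) + 1) / θ0 := by
      refine Nat.cast_div_le.trans ?_
      have hwR : (0 : ℝ) < w := by exact_mod_cast hw1
      rw [div_le_div_iff₀ hwR hθ0]
      push_cast
      have : (0 : ℝ) ≤ C + 1 := by positivity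
      nlinarith [mul_le_mul_of_nonneg_left hw this]
    have h2 : m * (C + 1) / w ≤ ⌈((C : ℝ) + 1) / θ0⌉₊ := by
      exact_mod_cast h1.trans (Nat.le_ceil _)
    omega
  obtain ⟨a, b, d, -, -, hd, -, -, -, rfl⟩ := mem_coreFam.1 hA
  have hsub : (coreFam N m w).filter
      (fun A' => ζ * (m : ℝ) ^ 2 ≤ (#(lat m a b d ∩ A') : ℝ)) ⊆
      ((range (C + 1) ×ˢ range (C + 1)) ×ˢ ((range (C + 1) ×ˢ range (C + 1)) ×ˢ
        (range (E + 1) ×ˢ range (E + 1)))).image
        (fun t => lat m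
          (t.1.1 * d / t.1.2 * (w * ((a / (t.1.1 * d / t.1.2) - m) / w + t.2.2.1)) +
            (a + t.2.1.1 * d) % (t.1.1 * d / t.1.2))
          (t.1.1 * d / t.1.2 * (w * ((b / (t.1.1 * d / t.1.2) - m) / w + t.2.2.2)) +
            (b + t.2.1.2 * d) % (t.1.1 * d / t.1.2))
          (t.1.1 * d / t.1.2)) := by
    intro A' hA'
    rw [mem_filter] at hA'
    obtain ⟨hA'F, hbig⟩ := hA'
    obtain ⟨a', b', d', -, -, hd', -, hwa', hwb', rfl⟩ := mem_coreFam.1 hA'F
    have hprod : (#(lat m a b d ∩ lat m a' b' d') : ℝ) ≤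
        (#(LR.ap m a d ∩ LR.ap m a' d') : ℝ) * (#(LR.ap m b d ∩ LR.ap m b' d') : ℝ) := by
      have := card_le_card (LR.lat_inter_subset m a b d a' b' d')
      rw [card_product] at this
      exact_mod_cast this
    have hXm : (#(LR.ap m a d ∩ LR.ap m a' d') : ℝ) ≤ m := by
      exact_mod_cast (card_le_card inter_subset_left).trans (LR.card_ap_le m a d)
    have hYm : (#(LR.ap m b d ∩ LR.ap m b' d') : ℝ) ≤ m := by
      exact_mod_cast (card_le_card inter_subset_left).trans (LR.card_ap_le m b d)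
    have hX : ζ * m ≤ (#(LR.ap m a d ∩ LR.ap m a' d') : ℝ) := by
      refine le_of_mul_le_mul_right ?_ hmR
      calc ζ * m * m = ζ * (m : ℝ) ^ 2 := by ring
        _ ≤ _ := hbig.trans hprod
        _ ≤ _ := mul_le_mul_of_nonneg_left hYm (Nat.cast_nonneg _)
    have hY : ζ * m ≤ (#(LR.ap m b d ∩ LR.ap m b' d') : ℝ) := by
      refine le_of_mul_le_mul_right ?_ hmR
      calc ζ * m * m = ζ * (m : ℝ) ^ 2 := by ring
        _ ≤ _ := hbig.trans hprod
        _ ≤ (m : ℝ) * _ := mul_le_mul_of_nonneg_right hXm (Nat.cast_nonneg _)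
        _ = _ := mul_comm _ _
    have hαC : d' / Nat.gcd d d' ≤ C := LR.gap_le hζ hζm hd.1 hd'.1 hX
    have hβC : d / Nat.gcd d' d ≤ C := by
      refine LR.gap_le (a := a') (a' := a) hζ hζm hd'.1 hd.1 ?_
      rwa [inter_comm]
    rw [Nat.gcd_comm d' d] at hβC
    have hgpos : 0 < Nat.gcd d d' := Nat.gcd_pos_of_pos_left _ (by omega)
    obtain ⟨α, hα⟩ : Nat.gcd d d' ∣ d' := Nat.gcd_dvd_right d d'
    obtain ⟨β, hβ⟩ : Nat.gcd d d' ∣ d := Nat.gcd_dvd_left d d'
    have hαe : d' / Nat.gcd d d' = α := by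
      rw [Nat.div_eq_iff_eq_mul_right hgpos (Nat.gcd_dvd_right d d')]
      exact hα
    have hβe : d / Nat.gcd d d' = β := by
      rw [Nat.div_eq_iff_eq_mul_right hgpos (Nat.gcd_dvd_left d d')]
      exact hβ
    rw [hαe] at hαC
    rw [hβe] at hβC
    have hαβ : α * d = β * d' := by
      calc α * d = α * (Nat.gcd d d' * β) := by rw [← hβ]
        _ = β * (Nat.gcd d d' * α) := by ring
        _ = β * d' := by rw [← hα]
    have hα1 : 1 ≤ α := by
      rcases Nat.eq_zero_or_pos α with h | h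
      · rw [h, mul_zero] at hα
        omega
      · exact h
    have hβ1 : 1 ≤ β := by
      rcases Nat.eq_zero_or_pos β with h | h
      · rw [h, mul_zero] at hβ
        omega
      · exact h
    have hdd : α * d / β = d' := by
      rw [hαβ, Nat.mul_div_cancel_left _ (by omega)]
    have hXne : (LR.ap m a d ∩ LR.ap m a' d').Nonempty := by
      rw [← card_pos]
      have : (0 : ℝ) < (#(LR.ap m a d ∩ LR.ap m a' d') : ℝ) := by linarith
      exact_mod_cast this
    have hYne : (LR.ap m b d ∩ LR.ap m b' d').Nonempty := by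
      rw [← card_pos]
      have : (0 : ℝ) < (#(LR.ap m b d ∩ LR.ap m b' d') : ℝ) := by linarith
      exact_mod_cast this
    obtain ⟨x, hx⟩ := hXne
    obtain ⟨y, hy⟩ := hYne
    obtain ⟨i0, hi0, e, he, ha'⟩ := LR.one_dim hd'.1 hw1 hwa' hαβ hα1 hβC hx hEE
    obtain ⟨j0, hj0, e', he', hb'⟩ := LR.one_dim hd'.1 hw1 hwb' hαβ hα1 hβC hy hEE
    refine mem_image.2 ⟨((α, β), ((i0, j0), (e, e'))), ?_, ?_⟩
    · simp only [mem_product, mem_range]
      refine ⟨⟨by omega, by omega⟩, ⟨by omega, by omega⟩, by omega, by omega⟩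
    · simp only [hdd]
      rw [← ha', ← hb']
  refine (card_le_card hsub).trans (card_image_le.trans ?_)
  simp only [card_product, card_range]
  exact le_refl _

end Pool.H68.MB
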