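import Pool.Agent.H68.MB.Defs

/-!
# Choice of the parameters

Let `n = log_2 N`, so `f N = (1/log_2(3/2) + 2) n` and `(1+ε) f N ≤ k ≤ 16 f N`, `k = Θ(n)`.
Choose, in this order,
* `δ ≤ 1/9` small, `K = 16/δ`; `r` large and `c = N^(4/r)`, `w0 = N^(-4)` (so `w0 c^r = 1`);
  `η` small, `h = ⌈η n⌉`;
* `ζ'` so small that `t' = ⌈ζ' k⌉` has `(3/2)^(r t') ≤ N^η` and `r t' ≤ η n` for large `N`;
  `R' = Rf ζ'`;
* `ζ` so small that `t = ⌈ζ k⌉` has `r (R'+1) t + 2 ≤ h` for large `N`; `R = Rf ζ`.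
* `W u = (2-δ)^(-u)` for `u ≤ j1`, `W u = (2-δ)^(-j1) (3/2-δ)^(-(u-j1))` for `u ≥ j1`, with
  `j1 = ⌈(2+3η) n / log_2(2-δ)⌉`;
* `a u = 1` for `u ≤ j1`, `a u = (3/4)^(u-j1)` for `j1 ≤ u ≤ j2`,
  `a u = (3/4)^(j2-j1) (3/2-δ)^(-(u-j2))` for `u ≥ j2`, with `j2 = j1 + ⌈(4/r+4η) n / log_2(4/3)⌉`;
* `θ = k^2 (K^R 2^h W (j1+1))`, `τ = δ/36`.
Everything of the form `k^O(1) K^R` is at most `N^(η/2)`, say, for large `N`.  The conditions at the
start hold as soon as `k - r t' ≥ j2 + n / log_2(3/2-δ) + O(1)`, and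
`j2 + n/log_2(3/2-δ) + η n ≤ (1+ε/2) f N` if `δ, 1/r, η` are small enough.
-/

namespace Pool.H68.MB

open Finset

namespace Params

/-- The weight function `W`. -/
noncomputable def WW (q2 q3 : ℝ) (j1 : ℕ) (u : ℕ) : ℝ := q2 ^ (min u j1) * q3 ^ (u - j1)

/-- The weight function `a`. -/
noncomputable def aa (q3 : ℝ) (j1 j2 : ℕ) (u : ℕ) : ℝ :=
  (3 / 4 : ℝ) ^ (min u j2 - j1) * q3 ^ (u - j2)

theorem WW_lt {q2 q3 : ℝ} {j1 u : ℕ} (h : u < j1) : WW q2 q3 j1 (u + 1) = q2 * WW q2 q3 j1 u := by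
  unfold WW
  rw [min_eq_left (by omega : u + 1 ≤ j1), min_eq_left (by omega : u ≤ j1),
    Nat.sub_eq_zero_of_le (by omega : u + 1 ≤ j1), Nat.sub_eq_zero_of_le (by omega : u ≤ j1)]
  ring

theorem WW_ge {q2 q3 : ℝ} {j1 u : ℕ} (h : j1 ≤ u) : WW q2 q3 j1 (u + 1) = q3 * WW q2 q3 j1 u := by
  unfold WW
  rw [min_eq_right (by omega : j1 ≤ u + 1), min_eq_right (by omega : j1 ≤ u),
    (by omega : u + 1 - j1 = (u - j1) + 1)]
  ring

theorem WW_pos {q2 q3 : ℝ} (h2 : 0 < q2) (h3 : 0 < q3) (j1 u : ℕ) : 0 < WW q2 q3 j1 u := by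
  unfold WW; positivity

theorem aa_lt {q3 : ℝ} {j1 j2 u : ℕ} (h12 : j1 ≤ j2) (h : u < j1) :
    aa q3 j1 j2 (u + 1) = aa q3 j1 j2 u := by
  unfold aa
  rw [(by omega : min (u + 1) j2 - j1 = 0), (by omega : min u j2 - j1 = 0),
    (by omega : u + 1 - j2 = 0), (by omega : u - j2 = 0)]

theorem aa_mid {q3 : ℝ} {j1 j2 u : ℕ} (h1 : j1 ≤ u) (h : u < j2) :
    aa q3 j1 j2 (u + 1) = 3 / 4 * aa q3 j1 j2 u := by
  unfold aa
  rw [(by omega : min (u + 1) j2 - j1 = (min u j2 - j1) + 1),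
    (by omega : u + 1 - j2 = 0), (by omega : u - j2 = 0)]
  ring

theorem aa_ge {q3 : ℝ} {j1 j2 u : ℕ} (h : j2 ≤ u) :
    aa q3 j1 j2 (u + 1) = q3 * aa q3 j1 j2 u := by
  unfold aa
  rw [(by omega : min (u + 1) j2 = min u j2),
    (by omega : u + 1 - j2 = (u - j2) + 1)]
  ring

theorem aa_pos {q3 : ℝ} (h3 : 0 < q3) (j1 j2 u : ℕ) : 0 < aa q3 j1 j2 u := by
  unfold aa; positivity

theorem WW_anti {q2 q3 : ℝ} (h2 : 0 < q2) (h3 : 0 < q3) (h21 : q2 ≤ 1) (h31 : q3 ≤ 1)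
    (j1 u : ℕ) : WW q2 q3 j1 (u + 1) ≤ WW q2 q3 j1 u := by
  have hp := WW_pos h2 h3 j1 u
  rcases lt_or_ge u j1 with hu | hu
  · rw [WW_lt hu]; nlinarith
  · rw [WW_ge hu]; nlinarith

theorem WW_g {b2 b3 q2 q3 : ℝ} (h2 : 0 < q2) (h3 : 0 < q3) (hb : b3 ≤ b2)
    (h2m : b2 * q2 = 1) (h3m : b3 * q3 = 1) (j1 u : ℕ) :
    WW q2 q3 j1 u ≤ b2 * WW q2 q3 j1 (u + 1) := by
  have hp := WW_pos h2 h3 j1 u
  rcases lt_or_ge u j1 with hu | hu
  · rw [WW_lt hu, ← mul_assoc, h2m, one_mul]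
  · rw [WW_ge hu, ← mul_assoc]
    have : 1 ≤ b2 * q3 := by nlinarith
    nlinarith

theorem WW_g' {b3 q2 q3 : ℝ} (h3m : b3 * q3 = 1) {j1 u : ℕ} (hu : j1 ≤ u) :
    WW q2 q3 j1 u ≤ b3 * WW q2 q3 j1 (u + 1) := by
  rw [WW_ge hu, ← mul_assoc, h3m, one_mul]

theorem aa_one {q3 : ℝ} {j1 j2 u : ℕ} (h12 : j1 ≤ j2) (h : u ≤ j1) : aa q3 j1 j2 u = 1 := by
  unfold aa
  rw [(by omega : min u j2 - j1 = 0), (by omega : u - j2 = 0)]
  simp

theorem aa_anti {q3 : ℝ} (h3 : 0 < q3) (h31 : q3 ≤ 1) {j1 j2 : ℕ} (h12 : j1 ≤ j2) (u : ℕ) :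
    aa q3 j1 j2 (u + 1) ≤ aa q3 j1 j2 u := by
  have hp := aa_pos h3 j1 j2 u
  rcases lt_or_ge u j1 with hu | hu
  · rw [aa_lt h12 hu]
  · rcases lt_or_ge u j2 with hu2 | hu2
    · rw [aa_mid hu hu2]; linarith
    · rw [aa_ge hu2]; nlinarith

theorem aa_g {b3 q3 : ℝ} (h3 : 0 < q3) (hb : 4 / 3 ≤ b3) (h3m : b3 * q3 = 1) {j1 j2 : ℕ}
    (h12 : j1 ≤ j2) (u : ℕ) : aa q3 j1 j2 u ≤ b3 * aa q3 j1 j2 (u + 1) := by
  have hp := aa_pos h3 j1 j2 u
  rcases lt_or_ge u j1 with hu | hu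
  · rw [aa_lt h12 hu]; nlinarith
  · rcases lt_or_ge u j2 with hu2 | hu2
    · rw [aa_mid hu hu2]; nlinarith
    · rw [aa_ge hu2, ← mul_assoc, h3m, one_mul]

theorem aa_g' {q3 : ℝ} (h3 : 0 < q3) {j1 j2 u : ℕ} (h12 : j1 ≤ j2) (hu3 : u < j2) :
    aa q3 j1 j2 u ≤ 4 / 3 * aa q3 j1 j2 (u + 1) := by
  have hp := aa_pos h3 j1 j2 u
  rcases lt_or_ge u j1 with hu1 | hu1
  · rw [aa_lt h12 hu1]; linarith
  · rw [aa_mid hu1 hu3]; linarith

/-- The choice of `δ`. -/
theorem exists_delta {ε : ℝ} (hε : 0 < ε) : ∃ δ : ℝ, 0 < δ ∧ δ ≤ 1 / 9 ∧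
    2 / Real.log (2 - δ) + 1 / Real.log (3 / 2 - δ)
      < (1 + ε / 4) * (2 / Real.log 2 + 1 / Real.log (3 / 2)) := by
  have h2 : 0 < Real.log 2 := Real.log_pos (by norm_num)
  have h3 : 0 < Real.log (3 / 2) := Real.log_pos (by norm_num)
  have hc : ContinuousAt (fun δ : ℝ => 2 / Real.log (2 - δ) + 1 / Real.log (3 / 2 - δ)) 0 := by
    apply ContinuousAt.add
    · apply ContinuousAt.div continuousAt_const
      · apply ContinuousAt.log (by fun_prop) (by norm_num)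
      · simpa using h2.ne'
    · apply ContinuousAt.div continuousAt_const
      · apply ContinuousAt.log (by fun_prop) (by norm_num)
      · simpa using h3.ne'
  have hlt : (fun δ : ℝ => 2 / Real.log (2 - δ) + 1 / Real.log (3 / 2 - δ)) 0
      < (1 + ε / 4) * (2 / Real.log 2 + 1 / Real.log (3 / 2)) := by
    simp only [sub_zero]
    have : 0 < 2 / Real.log 2 + 1 / Real.log (3 / 2) := by positivity
    nlinarith
  have hev := hc.eventually (gt_mem_nhds hlt)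
  rw [Metric.eventually_nhds_iff] at hev
  obtain ⟨e, he, h⟩ := hev
  refine ⟨min (e / 2) (1 / 9), by positivity, min_le_right _ _, ?_⟩
  apply h
  rw [Real.dist_eq, sub_zero, abs_of_pos (by positivity)]
  exact (min_le_left _ _).trans_lt (by linarith)

theorem eventually_exp {A η : ℝ} (hη : 0 < η) :
    ∃ x0 : ℝ, ∀ x : ℝ, x0 ≤ x → A * x ^ 3 ≤ Real.exp (2 * η * x) := by
  have h1 : Filter.Tendsto (fun x : ℝ => x ^ 3 * Real.exp (-(2 * η) * x)) Filter.atTop (nhds 0) := by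
    have := Real.tendsto_pow_mul_exp_neg_atTop_nhds_zero 3
    have h2 := this.comp (Filter.tendsto_id.const_mul_atTop (by positivity : 0 < 2 * η))
    have h3 := h2.const_mul ((2 * η) ^ 3)⁻¹
    rw [mul_zero] at h3
    refine h3.congr fun x => ?_
    simp only [Function.comp, id]
    have : (2 * η) ^ 3 ≠ 0 := by positivity
    rw [mul_pow]
    field_simp
  have h2 := (h1.const_mul A)
  rw [mul_zero] at h2
  have h3 := h2.eventually (gt_mem_nhds (zero_lt_one : (0 : ℝ) < 1))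
  rw [Filter.eventually_atTop] at h3
  obtain ⟨x0, hx0⟩ := h3
  refine ⟨x0, fun x hx => ?_⟩
  have h4 := hx0 x hx
  have h5 : 0 < Real.exp (2 * η * x) := Real.exp_pos _
  have h6 : Real.exp (-(2 * η) * x) * Real.exp (2 * η * x) = 1 := by
    rw [← Real.exp_add]; simp
  calc A * x ^ 3 = A * x ^ 3 * (Real.exp (-(2 * η) * x) * Real.exp (2 * η * x)) := by
        rw [h6, mul_one]
    _ = (A * (x ^ 3 * Real.exp (-(2 * η) * x))) * Real.exp (2 * η * x) := by ring
    _ ≤ 1 * Real.exp (2 * η * x) := mul_le_mul_of_nonneg_right h4.le h5.le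
    _ = _ := one_mul _

theorem inv_pow_le {b y : ℝ} {j : ℕ} (hb : 1 < b) (hj : y / Real.log b ≤ j) :
    (b⁻¹) ^ j ≤ Real.exp (-y) := by
  have hb0 : 0 < b := by linarith
  have hl : 0 < Real.log b := Real.log_pos hb
  rw [div_le_iff₀ hl] at hj
  have h1 : b⁻¹ ^ j = Real.exp (j * (-Real.log b)) := by
    rw [Real.exp_nat_mul, Real.exp_neg, Real.exp_log hb0]
  rw [h1]
  apply Real.exp_le_exp.2
  linarith

theorem pow_le_exp {b y : ℝ} {j : ℕ} (hb : 1 < b) (hb' : b ≤ 2) (hj : (j : ℝ) ≤ y) :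
    b ^ j ≤ Real.exp y := by
  have hb0 : 0 < b := by linarith
  have hl : 0 < Real.log b := Real.log_pos hb
  have hl1 : Real.log b ≤ 1 := by
    have := Real.log_le_sub_one_of_pos hb0
    linarith
  have h1 : b ^ j = Real.exp (j * Real.log b) := by
    rw [Real.exp_nat_mul, Real.exp_log hb0]
  rw [h1]
  apply Real.exp_le_exp.2
  have hj0 : (0 : ℝ) ≤ j := Nat.cast_nonneg j
  nlinarith

end Params

open Params in
theorem params (ε : ℝ) (hε : 0 < ε) (hε1 : ε ≤ 1) (Rf : ℝ → ℕ) :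
    ∃ ζ ζ' : ℝ, 0 < ζ ∧ 0 < ζ' ∧ ∃ N0 : ℕ, ∀ N : ℕ, N0 ≤ N → ∀ k : ℕ, (1 + ε) * f N ≤ k →
      (k : ℝ) ≤ 16 * f N → ∃ (P : Par) (θ τ : ℝ), Num P k (k ^ 2) (Rf ζ) (Rf ζ') θ τ ∧
        ζ * k ≤ P.t ∧ ζ' * k ≤ P.t' ∧
        (N : ℝ) ^ 3 * (P.K ^ Rf ζ * 2 ^ P.h * P.W k + 3 * P.w0) ≤ 1 / 32 ∧
        (k : ℝ) * (N * k : ℕ) * (P.c * (P.K ^ Rf ζ * 2 ^ P.h) * P.a (k - P.r * P.t')) ≤ 1 ∧
        (N : ℝ) ^ 2 * (20 * θ) ≤ 1 / 32 := by
  have hl2 : 0 < Real.log 2 := Real.log_pos (by norm_num)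
  have hl3 : 0 < Real.log (3 / 2) := Real.log_pos (by norm_num)
  have hL4 : 0 < Real.log (4 / 3) := Real.log_pos (by norm_num)
  set F : ℝ := 2 / Real.log 2 + 1 / Real.log (3 / 2) with hF
  have hF0 : 0 < F := by positivity
  have hF1 : 1 ≤ F := by
    have h1 : Real.log 2 ≤ 1 := by
      have := Real.log_two_lt_d9; linarith
    have : 1 ≤ 2 / Real.log 2 := by rw [le_div_iff₀ hl2]; linarith
    have : 0 ≤ 1 / Real.log (3 / 2) := by positivity
    linarith
  obtain ⟨δ, hδ0, hδ9, hδ⟩ := exists_delta hε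
  have hb2 : 1 < 2 - δ := by linarith
  have hb3 : 1 < 3 / 2 - δ := by linarith
  have hL2 : 0 < Real.log (2 - δ) := Real.log_pos hb2
  have hL3 : 0 < Real.log (3 / 2 - δ) := Real.log_pos hb3
  -- η
  obtain ⟨η, hη0, hη⟩ : ∃ η : ℝ, 0 < η ∧
      η * (3 / Real.log (2 - δ) + 4 / Real.log (4 / 3) + 1) ≤ ε * F / 8 := by
    refine ⟨ε * F / 8 / (3 / Real.log (2 - δ) + 4 / Real.log (4 / 3) + 1), by positivity, ?_⟩
    rw [div_mul_cancel₀]
    positivity
  -- r
  obtain ⟨r, hr⟩ := exists_nat_gt (4 / Real.log (4 / 3) / (ε * F / 8))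
  have hr0' : (0 : ℝ) < r := lt_trans (by positivity) hr
  have hr0 : 0 < r := by exact_mod_cast hr0'
  have hr1 : (1 : ℝ) ≤ r := by exact_mod_cast hr0
  have hr2 : 4 / r / Real.log (4 / 3) ≤ ε * F / 8 := by
    rw [div_lt_iff₀ (by positivity)] at hr
    rw [div_div, mul_comm, ← div_div, div_le_iff₀ hr0']
    linarith
  set C : ℝ := 16 * F with hC
  have hC0 : 0 < C := by positivity
  set ζ' : ℝ := η / (2 * r * C) with hζ'
  have hζ'0 : 0 < ζ' := by positivity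
  set R' : ℕ := Rf ζ' with hR'
  set ζ : ℝ := η / (2 * r * (R' + 1) * C) with hζ
  have hζ0 : 0 < ζ := by positivity
  set R : ℕ := Rf ζ with hR
  set K : ℝ := 16 / δ with hK
  have hK1 : 1 ≤ K := by
    rw [hK, le_div_iff₀ hδ0]; linarith
  set M : ℝ := K ^ R with hM
  have hM1 : 1 ≤ M := one_le_pow₀ hK1
  set A : ℝ := 1280 * M / δ with hA
  have hA0 : 0 < A := by positivity
  obtain ⟨x0, hx0⟩ := eventually_exp (A := A * C ^ 3) hη0
  -- threshold for x
  set X : ℝ := max (max x0 (max 6 (6 / (ε * F)))) (max (2 * (r * (R' + 1) + 2) / η) 1) with hX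
  refine ⟨ζ, ζ', hζ0, hζ'0, ⌈Real.exp X⌉₊, ?_⟩
  intro N hN k hk1 hk2
  have hNX : Real.exp X ≤ N := (Nat.le_ceil _).trans (by exact_mod_cast hN)
  have hN0 : (0 : ℝ) < N := (Real.exp_pos _).trans_le hNX
  set x : ℝ := Real.log N with hx
  have hNx : (N : ℝ) = Real.exp x := (Real.exp_log hN0).symm
  have hXx : X ≤ x := by
    rw [hx, Real.le_log_iff_exp_le hN0]; exact hNX
  have hx_0 : x0 ≤ x := (le_max_left _ _).trans ((le_max_left _ _).trans hXx)
  have hx6 : 6 ≤ x := (le_max_left _ _).trans ((le_max_right _ _).trans ((le_max_left _ _).trans hXx))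
  have hxε : 6 / (ε * F) ≤ x :=
    (le_max_right _ _).trans ((le_max_right _ _).trans ((le_max_left _ _).trans hXx))
  have hxr : 2 * (r * (R' + 1) + 2) / η ≤ x :=
    (le_max_left _ _).trans ((le_max_right _ _).trans hXx)
  have hxpos : 0 < x := by linarith
  have hfN : f N = F * x := by
    simp only [f, Real.logb, hF, hx]
    ring
  rw [hfN] at hk1 hk2
  have hkC : (k : ℝ) ≤ C * x := by rw [hC]; linarith
  have hk1' : (1 : ℝ) ≤ k := by
    have h1 : 1 * 1 ≤ (1 + ε) * (F * x) := by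
      apply mul_le_mul (by linarith) _ (by norm_num) (by linarith)
      nlinarith
    linarith
  have hkA : A * (k : ℝ) ^ 3 ≤ Real.exp (2 * η * x) := by
    refine le_trans ?_ (hx0 x hx_0)
    have : (k : ℝ) ^ 3 ≤ (C * x) ^ 3 := pow_le_pow_left₀ (by positivity) hkC 3
    calc A * (k : ℝ) ^ 3 ≤ A * (C * x) ^ 3 := mul_le_mul_of_nonneg_left this hA0.le
      _ = _ := by ring
  -- the parameters
  set h : ℕ := ⌈η * x⌉₊ with hh
  set j1 : ℕ := ⌈(2 + 3 * η) * x / Real.log (2 - δ)⌉₊ with hj1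
  set d : ℕ := ⌈(4 / r + 4 * η) * x / Real.log (4 / 3)⌉₊ with hd
  set t : ℕ := ⌈ζ * k⌉₊ with ht
  set t' : ℕ := ⌈ζ' * k⌉₊ with ht'
  set q2 : ℝ := (2 - δ)⁻¹ with hq2
  set q3 : ℝ := (3 / 2 - δ)⁻¹ with hq3
  have hq20 : 0 < q2 := by rw [hq2]; positivity
  have hq30 : 0 < q3 := by rw [hq3]; positivity
  have hq21 : q2 ≤ 1 := inv_le_one_of_one_le₀ hb2.le
  have hq31 : q3 ≤ 1 := inv_le_one_of_one_le₀ hb3.le
  have hq2m : (2 - δ) * q2 = 1 := mul_inv_cancel₀ (by linarith)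
  have hq3m : (3 / 2 - δ) * q3 = 1 := mul_inv_cancel₀ (by linarith)
  -- size of r t'
  have hrt' : (r : ℝ) * t' ≤ η * x := by
    have h1 : (t' : ℝ) ≤ ζ' * k + 1 := (Nat.ceil_lt_add_one (by positivity)).le
    have h2 : ζ' * k ≤ η * x / (2 * r) := by
      calc ζ' * k ≤ ζ' * (C * x) := mul_le_mul_of_nonneg_left hkC hζ'0.le
        _ = η * x / (2 * r) := by rw [hζ']; field_simp
    have h3 : (r : ℝ) * t' ≤ r * (η * x / (2 * r) + 1) :=
      mul_le_mul_of_nonneg_left (by linarith) hr0'.le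
    have h4 : (r : ℝ) * (η * x / (2 * r) + 1) = η * x / 2 + r := by field_simp
    have h5 : (r : ℝ) ≤ η * x / 2 := by
      rw [div_le_iff₀ hη0] at hxr
      have : (0 : ℝ) ≤ r * R' := by positivity
      linarith
    linarith
  have hbad : r * (R' + 1) * t + 2 ≤ h := by
    have h1 : (t : ℝ) ≤ ζ * k + 1 := (Nat.ceil_lt_add_one (by positivity)).le
    have h2 : ζ * k ≤ η * x / (2 * r * (R' + 1)) := by
      calc ζ * k ≤ ζ * (C * x) := mul_le_mul_of_nonneg_left hkC hζ0.le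
        _ = η * x / (2 * r * (R' + 1)) := by rw [hζ]; field_simp
    have h3 : (r : ℝ) * (R' + 1) * t ≤ r * (R' + 1) * (η * x / (2 * r * (R' + 1)) + 1) :=
      mul_le_mul_of_nonneg_left (by linarith) (by positivity)
    have h4 : (r : ℝ) * (R' + 1) * (η * x / (2 * r * (R' + 1)) + 1)
        = η * x / 2 + r * (R' + 1) := by field_simp
    have h5 : (r : ℝ) * (R' + 1) + 2 ≤ η * x / 2 := by
      rw [div_le_iff₀ hη0] at hxr
      linarith
    have h6 : η * x ≤ h := Nat.le_ceil _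
    have h7 : ((r * (R' + 1) * t + 2 : ℕ) : ℝ) ≤ h := by
      push_cast
      linarith
    exact_mod_cast h7
  -- exponentials
  have e2h : (2 : ℝ) ^ h ≤ 2 * Real.exp (η * x) := by
    have h1 : (h : ℝ) ≤ η * x + 1 := (Nat.ceil_lt_add_one (by positivity)).le
    rcases Nat.eq_zero_or_pos h with h0 | h0
    · rw [h0, pow_zero]
      have := Real.one_le_exp (by positivity : 0 ≤ η * x)
      linarith
    · obtain ⟨h', hh'⟩ : ∃ h', h = h' + 1 := ⟨h - 1, by omega⟩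
      rw [hh', pow_succ, mul_comm]
      apply mul_le_mul_of_nonneg_left _ (by norm_num)
      apply pow_le_exp (by norm_num) le_rfl
      rw [hh'] at h1
      push_cast at h1
      linarith
  have ej1 : q2 ^ j1 ≤ Real.exp (-((2 + 3 * η) * x)) := inv_pow_le hb2 (Nat.le_ceil _)
  have ed : (3 / 4 : ℝ) ^ d ≤ Real.exp (-((4 / r + 4 * η) * x)) := by
    have h1 : (3 / 4 : ℝ) = (4 / 3 : ℝ)⁻¹ := by norm_num
    rw [h1]
    exact inv_pow_le (by norm_num) (Nat.le_ceil _)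
  have ert : (3 / 2 : ℝ) ^ (r * t') ≤ Real.exp (η * x) := by
    apply pow_le_exp (by norm_num) (by norm_num)
    push_cast
    exact hrt'
  -- main size condition
  have hmain : (j1 : ℝ) + d + r * t' + x / Real.log (3 / 2 - δ) ≤ k := by
    have h1 : (j1 : ℝ) ≤ (2 + 3 * η) * x / Real.log (2 - δ) + 1 :=
      (Nat.ceil_lt_add_one (by positivity)).le
    have h2 : (d : ℝ) ≤ (4 / r + 4 * η) * x / Real.log (4 / 3) + 1 :=
      (Nat.ceil_lt_add_one (by positivity)).le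
    have h3 : (2 + 3 * η) * x / Real.log (2 - δ) + (4 / r + 4 * η) * x / Real.log (4 / 3)
        + η * x + x / Real.log (3 / 2 - δ)
        = x * ((2 / Real.log (2 - δ) + 1 / Real.log (3 / 2 - δ))
          + η * (3 / Real.log (2 - δ) + 4 / Real.log (4 / 3) + 1)
          + 4 / r / Real.log (4 / 3)) := by
      ring
    have h4 : x * ((2 / Real.log (2 - δ) + 1 / Real.log (3 / 2 - δ))
          + η * (3 / Real.log (2 - δ) + 4 / Real.log (4 / 3) + 1)
          + 4 / r / Real.log (4 / 3)) ≤ x * ((1 + ε / 4) * F + ε * F / 8 + ε * F / 8) := by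
      apply mul_le_mul_of_nonneg_left _ hxpos.le
      linarith
    have h5 : 2 ≤ ε / 2 * F * x := by
      rw [div_le_iff₀ (by positivity)] at hxε
      linarith
    have h6 : x * ((1 + ε / 4) * F + ε * F / 8 + ε * F / 8) + ε / 2 * F * x
        = (1 + ε) * (F * x) := by ring
    linarith
  have hj2k : j1 + d + r * t' ≤ k := by
    have h1 : 0 ≤ x / Real.log (3 / 2 - δ) := by positivity
    have h2 : ((j1 + d + r * t' : ℕ) : ℝ) ≤ k := by
      push_cast
      linarith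
    exact_mod_cast h2
  have e3k : q3 ^ (k - r * t' - (j1 + d)) ≤ Real.exp (-x) := by
    apply inv_pow_le hb3
    have : ((k - r * t' - (j1 + d) : ℕ) : ℝ) = k - r * t' - (j1 + d) := by
      rw [Nat.cast_sub (by omega), Nat.cast_sub (by omega)]
      push_cast
      ring
    rw [this]
    linarith
  have e3k' : q3 ^ (k - j1) ≤ Real.exp (-x) :=
    (pow_le_pow_of_le_one hq30.le hq31 (by omega)).trans e3k
  have hWk : WW q2 q3 j1 k ≤ Real.exp (-((2 + 3 * η) * x)) * Real.exp (-x) := by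
    unfold WW
    rw [min_eq_right (by omega : j1 ≤ k)]
    exact mul_le_mul ej1 e3k' (by positivity) (Real.exp_pos _).le
  have hWj : WW q2 q3 j1 (j1 + 1) ≤ Real.exp (-((2 + 3 * η) * x)) := by
    rw [WW_ge le_rfl]
    have h1 : WW q2 q3 j1 j1 = q2 ^ j1 := by
      unfold WW; simp
    rw [h1]
    calc q3 * q2 ^ j1 ≤ 1 * q2 ^ j1 := mul_le_mul_of_nonneg_right hq31 (by positivity)
      _ = q2 ^ j1 := one_mul _
      _ ≤ _ := ej1
  have haj : aa q3 j1 (j1 + d) (j1 + d + 1) ≤ Real.exp (-((4 / r + 4 * η) * x)) := by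
    rw [aa_ge le_rfl]
    have h1 : aa q3 j1 (j1 + d) (j1 + d) = (3 / 4) ^ d := by
      unfold aa; simp
    rw [h1]
    calc q3 * (3 / 4) ^ d ≤ 1 * (3 / 4) ^ d := mul_le_mul_of_nonneg_right hq31 (by positivity)
      _ = (3 / 4) ^ d := one_mul _
      _ ≤ _ := ed
  have hak : aa q3 j1 (j1 + d) (k - r * t')
      ≤ Real.exp (-((4 / r + 4 * η) * x)) * Real.exp (-x) := by
    unfold aa
    rw [min_eq_right (by omega : j1 + d ≤ k - r * t'), Nat.add_sub_cancel_left]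
    exact mul_le_mul ed e3k (by positivity) (Real.exp_pos _).le
  have hk2pos : (0 : ℝ) ≤ (k : ℝ) ^ 2 := by positivity
  have hE := Real.exp_pos (2 * η * x)
  have hMδ : M ≤ M / δ := by
    rw [le_div_iff₀ hδ0]
    nlinarith
  have hk23 : (k : ℝ) ^ 2 ≤ (k : ℝ) ^ 3 := pow_le_pow_right₀ hk1' (by norm_num)
  have hk13 : (1 : ℝ) ≤ (k : ℝ) ^ 3 := one_le_pow₀ hk1'
  -- consequences
  have c1 : 1280 * M * (k : ℝ) ^ 2 ≤ Real.exp (2 * η * x) := by
    refine le_trans ?_ hkA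
    calc 1280 * M * (k : ℝ) ^ 2 ≤ 1280 * (M / δ) * (k : ℝ) ^ 3 := by gcongr
      _ = A * (k : ℝ) ^ 3 := by rw [hA]; ring
  have c2 : 1280 * M / δ * (k : ℝ) ^ 3 ≤ Real.exp (2 * η * x) := hkA
  have c3 : 1280 * M ≤ Real.exp (2 * η * x) := by
    refine le_trans ?_ c1
    have : (1 : ℝ) ≤ (k : ℝ) ^ 2 := one_le_pow₀ hk1'
    have hM0 : 0 < 1280 * M := by positivity
    nlinarith
  have hM0 : 0 < M := by positivity
  refine ⟨⟨δ, K, Real.exp (4 * x / r), Real.exp (-(4 * x)), WW q2 q3 j1, aa q3 j1 (j1 + d), h, r, t,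
    t', j1, j1 + d⟩, (k : ℝ) ^ 2 * (M * 2 ^ h * WW q2 q3 j1 (j1 + 1)), δ / 36, ?_, Nat.le_ceil _,
    Nat.le_ceil _, ?_, ?_, ?_⟩
  · constructor
    · exact hδ0
    · exact hδ9
    · show 16 / δ * δ = 16
      field_simp
    · exact Real.one_le_exp (by positivity)
    · exact Real.exp_pos _
    · show WW q2 q3 j1 0 = 1
      unfold WW; simp
    · exact WW_pos hq20 hq30 j1
    · exact WW_anti hq20 hq30 hq21 hq31 j1
    · exact WW_g hq20 hq30 (by linarith) hq2m hq3m j1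
    · intro u hu
      exact WW_g' hq3m hu
    · intro u hu
      exact aa_one (Nat.le_add_right j1 d) hu
    · exact aa_pos hq30 j1 (j1 + d)
    · exact aa_anti hq30 hq31 (Nat.le_add_right j1 d)
    · exact aa_g hq30 (by linarith) hq3m (Nat.le_add_right j1 d)
    · intro u hu
      exact aa_g' hq30 (Nat.le_add_right j1 d) hu
    · have := WW_pos hq20 hq30 j1 (j1 + 1)
      positivity
    · show (((k ^ 2 : ℕ) : ℝ)) * (K ^ R * 2 ^ h * WW q2 q3 j1 (j1 + 1)) ≤ _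
      push_cast
      exact le_rfl
    · show (k : ℝ) * ((k ^ 2 : ℕ) : ℝ) * (Real.exp (4 * x / r) * (M * 2 ^ h)
        * aa q3 j1 (j1 + d) (j1 + d + 1) * (3 / 2) ^ (r * t')) ≤ δ / 36
      have hap := aa_pos hq30 j1 (j1 + d) (j1 + d + 1)
      have h1 : Real.exp (4 * x / r) * (M * 2 ^ h) * aa q3 j1 (j1 + d) (j1 + d + 1)
          * (3 / 2) ^ (r * t')
          ≤ Real.exp (4 * x / r) * (M * (2 * Real.exp (η * x)))
            * Real.exp (-((4 / r + 4 * η) * x)) * Real.exp (η * x) := by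
        gcongr
      have h2 : Real.exp (4 * x / r) * (M * (2 * Real.exp (η * x)))
            * Real.exp (-((4 / r + 4 * η) * x)) * Real.exp (η * x)
          = 2 * M * Real.exp (-(2 * η * x)) := by
        have : Real.exp (4 * x / r) * Real.exp (η * x) * Real.exp (-((4 / r + 4 * η) * x))
            * Real.exp (η * x) = Real.exp (-(2 * η * x)) := by
          rw [← Real.exp_add, ← Real.exp_add, ← Real.exp_add]
          congr 1
          ring
        rw [← this]; ring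
      push_cast
      calc (k : ℝ) * (k : ℝ) ^ 2 * (Real.exp (4 * x / r) * (M * 2 ^ h)
          * aa q3 j1 (j1 + d) (j1 + d + 1) * (3 / 2) ^ (r * t'))
          ≤ (k : ℝ) * (k : ℝ) ^ 2 * (2 * M * Real.exp (-(2 * η * x))) := by
            apply mul_le_mul_of_nonneg_left _ (by positivity)
            exact h1.trans_eq h2
        _ = 2 * M * (k : ℝ) ^ 3 * Real.exp (-(2 * η * x)) := by ring
        _ ≤ δ / 36 := by
            rw [Real.exp_neg, ← div_eq_mul_inv, div_le_iff₀ hE]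
            have h3 : 1280 * M * (k : ℝ) ^ 3 ≤ δ * Real.exp (2 * η * x) := by
              have h4 := mul_le_mul_of_nonneg_left c2 hδ0.le
              have h5 : δ * (1280 * M / δ * (k : ℝ) ^ 3) = 1280 * M * (k : ℝ) ^ 3 := by
                field_simp
              linarith
            have h6 : 0 ≤ M * (k : ℝ) ^ 3 := by positivity
            linarith
    · positivity
    · exact le_rfl
    · show 1 ≤ Real.exp (-(4 * x)) * Real.exp (4 * x / r) ^ r
      rw [← Real.exp_nat_mul, ← Real.exp_add]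
      have : -(4 * x) + r * (4 * x / r) = 0 := by field_simp; ring
      rw [this, Real.exp_zero]
    · exact hbad
  · show (N : ℝ) ^ 3 * (M * 2 ^ h * WW q2 q3 j1 k + 3 * Real.exp (-(4 * x))) ≤ 1 / 32
    have h1 : (N : ℝ) ^ 3 = Real.exp (3 * x) := by
      rw [hNx, ← Real.exp_nat_mul]; norm_num
    have h2 : M * 2 ^ h * WW q2 q3 j1 k
        ≤ M * (2 * Real.exp (η * x)) * (Real.exp (-((2 + 3 * η) * x)) * Real.exp (-x)) := by
      have := WW_pos hq20 hq30 j1 k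
      gcongr
    have h3 : Real.exp (3 * x) * (M * (2 * Real.exp (η * x))
        * (Real.exp (-((2 + 3 * η) * x)) * Real.exp (-x))) = 2 * M * Real.exp (-(2 * η * x)) := by
      have : Real.exp (3 * x) * Real.exp (η * x) * Real.exp (-((2 + 3 * η) * x)) * Real.exp (-x)
          = Real.exp (-(2 * η * x)) := by
        rw [← Real.exp_add, ← Real.exp_add, ← Real.exp_add]
        congr 1
        ring
      rw [← this]; ring
    have h4 : 2 * M * Real.exp (-(2 * η * x)) ≤ 1 / 64 := by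
      rw [Real.exp_neg, ← div_eq_mul_inv, div_le_iff₀ hE]
      linarith
    have h5 : Real.exp (3 * x) * (3 * Real.exp (-(4 * x))) = 3 * Real.exp (-x) := by
      have : Real.exp (3 * x) * Real.exp (-(4 * x)) = Real.exp (-x) := by
        rw [← Real.exp_add]; congr 1; ring
      rw [← this]; ring
    have h6 : 3 * Real.exp (-x) ≤ 1 / 64 := by
      have h7 : Real.exp 6 ≤ Real.exp x := Real.exp_le_exp.2 hx6
      have h8 : (2.7 : ℝ) ^ 6 ≤ Real.exp 6 := by
        have h9 : Real.exp 6 = Real.exp 1 ^ 6 := by rw [← Real.exp_nat_mul]; norm_num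
        rw [h9]
        apply pow_le_pow_left₀ (by norm_num)
        have := Real.exp_one_gt_d9
        linarith
      have h10 : (192 : ℝ) ≤ Real.exp x := by
        have : (192 : ℝ) ≤ (2.7 : ℝ) ^ 6 := by norm_num
        linarith
      rw [Real.exp_neg, ← div_eq_mul_inv, div_le_iff₀ (Real.exp_pos x)]
      linarith
    rw [h1, mul_add, h5]
    have h7 : Real.exp (3 * x) * (M * 2 ^ h * WW q2 q3 j1 k) ≤ 2 * M * Real.exp (-(2 * η * x)) := by
      rw [← h3]
      exact mul_le_mul_of_nonneg_left h2 (Real.exp_pos _).le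
    linarith
  · show (k : ℝ) * (N * k : ℕ) * (Real.exp (4 * x / r) * (M * 2 ^ h)
      * aa q3 j1 (j1 + d) (k - r * t')) ≤ 1
    have hap := aa_pos hq30 j1 (j1 + d) (k - r * t')
    have h1 : Real.exp (4 * x / r) * (M * 2 ^ h) * aa q3 j1 (j1 + d) (k - r * t')
        ≤ Real.exp (4 * x / r) * (M * (2 * Real.exp (η * x)))
          * (Real.exp (-((4 / r + 4 * η) * x)) * Real.exp (-x)) := by
      gcongr
    have h2 : Real.exp x * (Real.exp (4 * x / r) * (M * (2 * Real.exp (η * x)))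
          * (Real.exp (-((4 / r + 4 * η) * x)) * Real.exp (-x)))
        = 2 * M * Real.exp (-(3 * η * x)) := by
      have : Real.exp x * Real.exp (4 * x / r) * Real.exp (η * x)
          * Real.exp (-((4 / r + 4 * η) * x)) * Real.exp (-x) = Real.exp (-(3 * η * x)) := by
        rw [← Real.exp_add, ← Real.exp_add, ← Real.exp_add, ← Real.exp_add]
        congr 1
        ring
      rw [← this]; ring
    have h3 : Real.exp (-(3 * η * x)) ≤ Real.exp (-(2 * η * x)) := by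
      apply Real.exp_le_exp.2
      have : 0 ≤ η * x := by positivity
      linarith
    push_cast
    calc (k : ℝ) * (N * k) * (Real.exp (4 * x / r) * (M * 2 ^ h)
          * aa q3 j1 (j1 + d) (k - r * t'))
        = (k : ℝ) ^ 2 * (Real.exp x * (Real.exp (4 * x / r) * (M * 2 ^ h)
          * aa q3 j1 (j1 + d) (k - r * t'))) := by rw [hNx]; ring
      _ ≤ (k : ℝ) ^ 2 * (Real.exp x * (Real.exp (4 * x / r) * (M * (2 * Real.exp (η * x)))
          * (Real.exp (-((4 / r + 4 * η) * x)) * Real.exp (-x)))) := by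
          apply mul_le_mul_of_nonneg_left _ hk2pos
          exact mul_le_mul_of_nonneg_left h1 (Real.exp_pos _).le
      _ = (k : ℝ) ^ 2 * (2 * M * Real.exp (-(3 * η * x))) := by rw [h2]
      _ ≤ (k : ℝ) ^ 2 * (2 * M * Real.exp (-(2 * η * x))) := by gcongr
      _ = 2 * M * (k : ℝ) ^ 2 * Real.exp (-(2 * η * x)) := by ring
      _ ≤ 1 := by
          rw [Real.exp_neg, ← div_eq_mul_inv, div_le_iff₀ hE]
          have h6 : 0 ≤ M * (k : ℝ) ^ 2 := by positivity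
          linarith
  · show (N : ℝ) ^ 2 * (20 * ((k : ℝ) ^ 2 * (M * 2 ^ h * WW q2 q3 j1 (j1 + 1)))) ≤ 1 / 32
    have hWp := WW_pos hq20 hq30 j1 (j1 + 1)
    have h1 : (N : ℝ) ^ 2 = Real.exp (2 * x) := by
      rw [hNx, ← Real.exp_nat_mul]; norm_num
    have h2 : M * 2 ^ h * WW q2 q3 j1 (j1 + 1)
        ≤ M * (2 * Real.exp (η * x)) * Real.exp (-((2 + 3 * η) * x)) := by
      gcongr
    have h3 : Real.exp (2 * x) * (M * (2 * Real.exp (η * x))
        * Real.exp (-((2 + 3 * η) * x))) = 2 * M * Real.exp (-(2 * η * x)) := by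
      have : Real.exp (2 * x) * Real.exp (η * x) * Real.exp (-((2 + 3 * η) * x))
          = Real.exp (-(2 * η * x)) := by
        rw [← Real.exp_add, ← Real.exp_add]
        congr 1
        ring
      rw [← this]; ring
    calc (N : ℝ) ^ 2 * (20 * ((k : ℝ) ^ 2 * (M * 2 ^ h * WW q2 q3 j1 (j1 + 1))))
        = 20 * (k : ℝ) ^ 2 * (Real.exp (2 * x) * (M * 2 ^ h * WW q2 q3 j1 (j1 + 1))) := by
          rw [h1]; ring
      _ ≤ 20 * (k : ℝ) ^ 2 * (Real.exp (2 * x) * (M * (2 * Real.exp (η * x))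
          * Real.exp (-((2 + 3 * η) * x)))) := by
          apply mul_le_mul_of_nonneg_left _ (by positivity)
          exact mul_le_mul_of_nonneg_left h2 (Real.exp_pos _).le
      _ = 40 * M * (k : ℝ) ^ 2 * Real.exp (-(2 * η * x)) := by rw [h3]; ring
      _ ≤ 1 / 32 := by
          rw [Real.exp_neg, ← div_eq_mul_inv, div_le_iff₀ hE]
          linarith

end Pool.H68.MB
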