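import Pool.Agent.H68.MB.Play
import Pool.Agent.H68.MB.LatRel
import Pool.Agent.H68.MB.Params

/-!
# The aligned square lattice game
-/

namespace Pool.H68.MB

open Finset
open scoped Classical

theorem f_large (C : ℝ) : ∃ N0 : ℕ, 1 ≤ N0 ∧ ∀ N : ℕ, N0 ≤ N → C ≤ f N := by
  have h1 : Filter.Tendsto (fun N : ℕ => Real.logb 2 (N : ℝ)) Filter.atTop Filter.atTop :=
    (Real.tendsto_logb_atTop (by norm_num)).comp tendsto_natCast_atTop_atTop
  obtain ⟨N0, hN0⟩ := Filter.eventually_atTop.1 (h1.eventually_ge_atTop C)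
  refine ⟨max N0 1, le_max_right _ _, fun N hN => ?_⟩
  have h2 := hN0 N (le_trans (le_max_left _ _) hN)
  have hN1 : 1 ≤ N := le_trans (le_max_right _ _) hN
  have hN1' : (1 : ℝ) ≤ N := by exact_mod_cast hN1
  have h3 : 0 ≤ Real.logb (3 / 2) (N : ℝ) := Real.logb_nonneg (by norm_num) hN1'
  have h4 : 0 ≤ Real.logb 2 (N : ℝ) := Real.logb_nonneg (by norm_num) hN1'
  unfold f
  linarith

/-- The main theorem for `ε ≤ 1`. -/
theorem main_aux (ε : ℝ) (hε : 0 < ε) (hε1 : ε ≤ 1) : ∃ N0 : ℕ, ∀ N : ℕ, N0 ≤ N → ∀ q : ℕ,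
    (1 + ε) * Real.sqrt (f N) ≤ q → ¬ MakerWins (board N) (lattices N q) ∅ ∅ := by
  have hθ0 : 0 < ε / 8 := by positivity
  -- bounded number of relatives
  have hrel : ∀ ζ : ℝ, ∃ R m0 : ℕ, 0 < ζ → ∀ N m w : ℕ, m0 ≤ m → ε / 8 * m ≤ w →
      ∀ A ∈ coreFam N m w,
      #((coreFam N m w).filter (fun A' => ζ * (m : ℝ) ^ 2 ≤ (#(A ∩ A') : ℝ))) ≤ R := by
    intro ζ
    by_cases hζ : 0 < ζ
    · obtain ⟨R, m0, h⟩ := core_rel ζ (ε / 8) hζ hθ0
      exact ⟨R, m0, fun _ => h⟩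
    · exact ⟨0, 0, fun h => absurd h hζ⟩
  choose Rf m0 hRf using hrel
  obtain ⟨ζ, ζ', hζ, hζ', N1, hpar⟩ := params ε hε hε1 Rf
  obtain ⟨N2, hN2, hf⟩ := f_large ((max (max (m0 ζ) (m0 ζ')) 2 : ℕ) : ℝ)
  obtain ⟨N3, hN3, hf3⟩ := f_large (((max (max (m0 ζ) (m0 ζ')) 2 : ℕ) : ℝ) ^ 2)
  refine ⟨max N1 (max N2 N3), fun N hN q hq => ?_⟩
  have hN1 : N1 ≤ N := le_trans (le_max_left _ _) hN
  have hN2' : N2 ≤ N := le_trans (le_max_left _ _) (le_trans (le_max_right _ _) hN)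
  have hN3' : N3 ≤ N := le_trans (le_max_right _ _) (le_trans (le_max_right _ _) hN)
  set C := max (max (m0 ζ) (m0 ζ')) 2 with hC
  have hC2 : 2 ≤ C := le_max_right _ _
  have hC2' : (2 : ℝ) ≤ C := by exact_mod_cast hC2
  have hfN : (C : ℝ) ^ 2 ≤ f N := hf3 N hN3'
  have hf4 : 4 ≤ f N := by nlinarith
  set g := Real.sqrt (f N) with hg
  have hg2 : g ^ 2 = f N := Real.sq_sqrt (by linarith)
  have hgC : (C : ℝ) ≤ g := Real.le_sqrt_of_sq_le hfN
  have hg0 : 2 ≤ g := le_trans hC2' hgC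
  -- the size of the core
  set m := ⌈Real.sqrt (1 + ε) * g⌉₊ with hm
  have hs1 : 1 ≤ Real.sqrt (1 + ε) := by
    rw [Real.one_le_sqrt]; linarith
  have hs2 : Real.sqrt (1 + ε) ≤ 1 + ε / 2 := by
    rw [Real.sqrt_le_left (by linarith)]
    nlinarith
  have hs3 : Real.sqrt (1 + ε) ^ 2 = 1 + ε := Real.sq_sqrt (by linarith)
  have hm1 : Real.sqrt (1 + ε) * g ≤ m := Nat.le_ceil _
  have hm2 : (m : ℝ) < Real.sqrt (1 + ε) * g + 1 := Nat.ceil_lt_add_one (by positivity)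
  have hmg : g ≤ m := by nlinarith
  have hmC : C ≤ m := by exact_mod_cast le_trans hgC hmg
  have hm2' : (m : ℝ) < (1 + ε / 2) * g + 1 := by
    have := mul_le_mul_of_nonneg_right hs2 (by linarith : 0 ≤ g)
    linarith
  -- `m + w = q + 1`
  have hqm : (1 + ε / 8) * m ≤ q + 1 := by nlinarith
  have hmq : m ≤ q := by
    have h1 : (m : ℝ) < q + 1 := by
      have : 0 < ε / 8 * (m : ℝ) := by
        have : (0 : ℝ) < m := by linarith
        positivity
      nlinarith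
    have h2 : m < q + 1 := by exact_mod_cast h1
    omega
  obtain ⟨w, hw⟩ : ∃ w, m + w = q + 1 := ⟨q + 1 - m, by omega⟩
  have hw1 : 1 ≤ w := by omega
  have hwθ : ε / 8 * m ≤ w := by
    have : (m : ℝ) + w = q + 1 := by exact_mod_cast hw
    nlinarith
  have hm2'' : 2 ≤ m := le_trans hC2 hmC
  -- the parameters
  have hk1 : (1 + ε) * f N ≤ ((m ^ 2 : ℕ) : ℝ) := by
    push_cast
    rw [← hg2, ← hs3, ← mul_pow]
    exact pow_le_pow_left₀ (by positivity) hm1 2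
  have hk2 : ((m ^ 2 : ℕ) : ℝ) ≤ 16 * f N := by
    push_cast
    rw [← hg2]
    have : (m : ℝ) ≤ 4 * g := by nlinarith
    nlinarith
  obtain ⟨P, θ, τ, hNum, ht, ht', e1, e2, e3⟩ := hpar N hN1 (m ^ 2) hk1 hk2
  have hFam : Fam (board N) (coreFam N m w) P (m ^ 2) (N * m ^ 2) ((m ^ 2) ^ 2) (Rf ζ)
      (Rf ζ') := by
    refine ⟨fun A hA => core_sub hA, fun A hA => core_card hA, core_deg N m w,
      fun p p' hp => core_codeg N m w hp, fun A hA => ?_, fun A hA => ?_⟩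
    · refine le_trans (card_le_card ?_) (hRf ζ hζ N m w ?_ hwθ A hA)
      · intro A' hA'
        rw [mem_filter] at hA' ⊢
        refine ⟨hA'.1, ?_⟩
        have h1 : (P.t : ℝ) ≤ #(A ∩ A') := by exact_mod_cast hA'.2.2
        push_cast at ht
        linarith
      · exact le_trans (le_trans (le_max_left _ _) (le_max_left _ _)) hmC
    · refine le_trans (card_le_card ?_) (hRf ζ' hζ' N m w ?_ hwθ A hA)
      · intro A' hA'
        rw [mem_filter] at hA' ⊢
        refine ⟨hA'.1, ?_⟩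
        have h1 : (P.t' : ℝ) ≤ #(A ∩ A') := by exact_mod_cast hA'.2
        push_cast at ht'
        linarith
      · exact le_trans (le_trans (le_max_right _ _) (le_max_left _ _)) hmC
  have H : Hyp (board N) (coreFam N m w) P (m ^ 2) (N * m ^ 2) ((m ^ 2) ^ 2) (Rf ζ) (Rf ζ')
      θ τ := ⟨hFam, hNum⟩
  intro hwin
  have hwin' := hwin.mono (G := (↑(coreFam N m w) : Set (Finset (ℕ × ℕ)))) fun A hA =>
    core_mem hw1 hm2'' hw hA
  refine no_win H ?_ ?_ ?_ hwin'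
  · have hcount : (#(coreFam N m w) : ℝ) ≤ (N : ℝ) ^ 3 := by exact_mod_cast core_count N m w
    refine le_trans (mul_le_mul_of_nonneg_right hcount ?_) e1
    have := d_K_ge H
    have := H.Wpos (m ^ 2)
    have := H.w0pos
    positivity
  · exact e2
  · have hb : #(board N) = N ^ 2 := by simp [board, sq]
    rw [hb]
    push_cast
    exact e3

/-- **Main theorem.** For every `ε > 0` and every large `N`, Breaker prevents all `q x q` aligned
square lattices with `q ≥ (1 + ε) sqrt (f N)` in the (2:1) game. -/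
theorem main (ε : ℝ) (hε : 0 < ε) : ∃ N0 : ℕ, ∀ N : ℕ, N0 ≤ N → ∀ q : ℕ,
    (1 + ε) * Real.sqrt (f N) ≤ q → ¬ MakerWins (board N) (lattices N q) ∅ ∅ := by
  obtain ⟨N0, h⟩ := main_aux (min ε 1) (lt_min hε one_pos) (min_le_right _ _)
  refine ⟨N0, fun N hN q hq => h N hN q (le_trans ?_ hq)⟩
  have := min_le_left ε 1
  have := Real.sqrt_nonneg (f N)
  nlinarith

end Pool.H68.MB
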