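import Mathlib

/-!
# The biased (2:1) Maker-Breaker game and aligned square lattices (MP_e39c7e_co)

Board `S`, family `F` of winning sets.  `MakerWins S F M B`: Maker is to move, owns `M`, Breaker
owns `B`, and Maker can force to own all points of a member of `F`.
On each turn Maker claims two unclaimed points (one, if only one is left), then Breaker claims one
unclaimed point (if there is one).
-/

namespace Pool.H68.MB

open Finset

/-- Maker (to move) can force a win in the biased (2:1) game on the board `S` with winning sets
`F`, from the position in which he owns `M` and Breaker owns `B`. -/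
inductive MakerWins {X : Type*} [DecidableEq X] (S : Finset X) (F : Set (Finset X)) :
    Finset X → Finset X → Prop
  /-- Maker already owns a winning set. -/
  | owned {M B : Finset X} (A : Finset X) (hA : A ∈ F) (hAM : A ⊆ M) : MakerWins S F M B
  /-- Only one unclaimed point is left; Maker takes it and owns a winning set. -/
  | last {M B : Finset X} (y : X) (hy : S \ (M ∪ B) = {y}) (A : Finset X) (hA : A ∈ F)
      (hAM : A ⊆ insert y M) : MakerWins S F M B
  /-- Maker claims two points and then owns a winning set. -/
  | finish {M B : Finset X} (y z : X) (hyz : y ≠ z) (hy : y ∈ S \ (M ∪ B))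
      (hz : z ∈ S \ (M ∪ B)) (A : Finset X) (hA : A ∈ F) (hAM : A ⊆ insert y (insert z M)) :
      MakerWins S F M B
  /-- Maker claims two points, a point is still unclaimed, and Maker can force a win after each
  reply of Breaker. -/
  | move {M B : Finset X} (y z : X) (hyz : y ≠ z) (hy : y ∈ S \ (M ∪ B))
      (hz : z ∈ S \ (M ∪ B)) (hfree : (S \ (insert y (insert z M) ∪ B)).Nonempty)
      (h : ∀ x ∈ S \ (insert y (insert z M) ∪ B),
        MakerWins S F (insert y (insert z M)) (insert x B)) : MakerWins S F M B

/-- The board `[N] x [N]`. -/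
def board (N : ℕ) : Finset (ℕ × ℕ) := Icc 1 N ×ˢ Icc 1 N

/-- The square lattice `{(a + i d, b + j d) : 0 ≤ i, j ≤ q - 1}`. -/
def lat (q a b d : ℕ) : Finset (ℕ × ℕ) :=
  (range q ×ˢ range q).image (fun ij => (a + ij.1 * d, b + ij.2 * d))

/-- The `q x q` aligned square lattices of the board `[N] x [N]`. -/
def lattices (N q : ℕ) : Set (Finset (ℕ × ℕ)) :=
  {A | ∃ a b d : ℕ, 1 ≤ d ∧ A = lat q a b d ∧ A ⊆ board N}

/-- `f(N) = log_{3/2} N + 2 log_2 N`. -/
noncomputable def f (N : ℕ) : ℝ := Real.logb (3 / 2) N + 2 * Real.logb 2 N

/-- A winning family may be enlarged (each old winning set contains a new one). -/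
theorem MakerWins.mono {X : Type*} [DecidableEq X] {S : Finset X} {F G : Set (Finset X)}
    (hFG : ∀ A ∈ F, ∃ A' ∈ G, A' ⊆ A) {M B : Finset X} (h : MakerWins S F M B) :
    MakerWins S G M B := by
  induction h with
  | owned A hA hAM =>
    obtain ⟨A', hA', hs⟩ := hFG A hA
    exact .owned A' hA' (hs.trans hAM)
  | last y hy A hA hAM =>
    obtain ⟨A', hA', hs⟩ := hFG A hA
    exact .last y hy A' hA' (hs.trans hAM)
  | finish y z hyz hy hz A hA hAM =>
    obtain ⟨A', hA', hs⟩ := hFG A hA
    exact .finish y z hyz hy hz A' hA' (hs.trans hAM)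
  | move y z hyz hy hz hfree _ ih =>
    exact .move y z hyz hy hz hfree ih

end Pool.H68.MB
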