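import Pool.Agent.H68.MB.Game

/-!
# The family of core lattices

`coreFam N m w`: the `m x m` lattices `lat m a b d` in the board whose base has both `a / d` and
`b / d` divisible by `w`.  For `m = q - w + 1` every `q x q` lattice of the board contains one.

Proof notes.
* `core_mem`: for `lat q a b d ⊆ board N`, take `i, j < w` with `w ∣ a / d + i`, `w ∣ b / d + j`;
  the member is `lat m (a + i d) (b + j d) d` (`(a + i d) / d = a / d + i`, `i + m - 1 ≤ q - 1`).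
* `core_card`: `(i, j) ↦ (a + i d, b + j d)` is injective for `d ≥ 1`.
* `core_count`: `1 ≤ a, b ≤ N` as `(a, b)` lies in the lattice, `d ≤ N` as `(a + d, b)` does.
* `core_deg`: `A ∋ p` is determined by `d ∈ [1, N]` and the position `(i, j) ∈ [0, m)^2` of `p`.
* `core_codeg`: `A ∋ p, p'` is determined by the positions `(i, j) ≠ (i', j')` of `p`, `p'`
  (`p.1 + i' d = p'.1 + i d` in `ℤ`, same for the second coordinate, so `d` is determined).
-/

namespace Pool.H68.MB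

open Finset
open scoped Classical

/-- The core lattices. -/
noncomputable def coreFam (N m w : ℕ) : Finset (Finset (ℕ × ℕ)) :=
  (((Icc 1 N ×ˢ Icc 1 N) ×ˢ Icc 1 N).filter (fun t => lat m t.1.1 t.1.2 t.2 ⊆ board N ∧
    w ∣ t.1.1 / t.2 ∧ w ∣ t.1.2 / t.2)).image (fun t => lat m t.1.1 t.1.2 t.2)

theorem Lt.mem_lat {q a b d : ℕ} {p : ℕ × ℕ} :
    p ∈ lat q a b d ↔ ∃ i j, i < q ∧ j < q ∧ p = (a + i * d, b + j * d) := by
  simp only [lat, mem_image, mem_product, mem_range, Prod.exists]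
  constructor
  · rintro ⟨i, j, ⟨hi, hj⟩, rfl⟩
    exact ⟨i, j, hi, hj, rfl⟩
  · rintro ⟨i, j, hi, hj, rfl⟩
    exact ⟨i, j, ⟨hi, hj⟩, rfl⟩

theorem mem_coreFam {N m w : ℕ} {A : Finset (ℕ × ℕ)} :
    A ∈ coreFam N m w ↔ ∃ a b d : ℕ, (1 ≤ a ∧ a ≤ N) ∧ (1 ≤ b ∧ b ≤ N) ∧ (1 ≤ d ∧ d ≤ N) ∧
      lat m a b d ⊆ board N ∧ w ∣ a / d ∧ w ∣ b / d ∧ A = lat m a b d := by
  simp only [coreFam, mem_image, mem_filter, mem_product, mem_Icc, Prod.exists]
  constructor
  · rintro ⟨a, b, d, ⟨⟨⟨ha, hb⟩, hd⟩, hs, hwa, hwb⟩, rfl⟩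
    exact ⟨a, b, d, ha, hb, hd, hs, hwa, hwb, rfl⟩
  · rintro ⟨a, b, d, ha, hb, hd, hs, hwa, hwb, rfl⟩
    exact ⟨a, b, d, ⟨⟨⟨ha, hb⟩, hd⟩, hs, hwa, hwb⟩, rfl⟩

theorem Lt.exists_add_dvd (n : ℕ) {w : ℕ} (hw : 1 ≤ w) : ∃ i, i < w ∧ w ∣ n + i := by
  by_cases h : n % w = 0
  · exact ⟨0, by omega, by simpa using Nat.dvd_of_mod_eq_zero h⟩
  · refine ⟨w - n % w, by omega, ⟨n / w + 1, ?_⟩⟩
    have h1 := Nat.div_add_mod n w
    have h2 := Nat.mod_lt n (show w > 0 by omega)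
    rw [mul_add, mul_one]
    omega

theorem core_mem {N q m w : ℕ} (hw : 1 ≤ w) (hm : 2 ≤ m) (hmq : m + w = q + 1)
    {A : Finset (ℕ × ℕ)} (hA : A ∈ lattices N q) : ∃ A' ∈ coreFam N m w, A' ⊆ A := by
  obtain ⟨a, b, d, hd, hAe, hsub⟩ := hA
  obtain ⟨i, hi, hwi⟩ := Lt.exists_add_dvd (a / d) hw
  obtain ⟨j, hj, hwj⟩ := Lt.exists_add_dvd (b / d) hw
  have hs : lat m (a + i * d) (b + j * d) d ⊆ lat q a b d := by
    intro p hp
    obtain ⟨i', j', hi', hj', rfl⟩ := Lt.mem_lat.1 hp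
    refine Lt.mem_lat.2 ⟨i + i', j + j', by omega, by omega, ?_⟩
    rw [add_mul, add_mul, add_assoc, add_assoc]
  have hsb : lat m (a + i * d) (b + j * d) d ⊆ board N := by
    rw [← hAe] at hs
    exact hs.trans hsub
  have h0 : (a + i * d, b + j * d) ∈ board N :=
    hsb (Lt.mem_lat.2 ⟨0, 0, by omega, by omega, by simp⟩)
  have h1 : (a + i * d + d, b + j * d + d) ∈ board N :=
    hsb (Lt.mem_lat.2 ⟨1, 1, by omega, by omega, by simp⟩)
  simp only [board, mem_product, mem_Icc] at h0 h1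
  refine ⟨lat m (a + i * d) (b + j * d) d, mem_coreFam.2 ⟨a + i * d, b + j * d, d, h0.1, h0.2,
    ⟨hd, by omega⟩, hsb, ?_, ?_, rfl⟩, ?_⟩
  · rwa [Nat.add_mul_div_right _ _ (by omega)]
  · rwa [Nat.add_mul_div_right _ _ (by omega)]
  · rw [hAe]
    exact hs

theorem core_sub {N m w : ℕ} {A : Finset (ℕ × ℕ)} (hA : A ∈ coreFam N m w) : A ⊆ board N := by
  obtain ⟨a, b, d, -, -, -, hs, -, -, rfl⟩ := mem_coreFam.1 hA
  exact hs

theorem core_card {N m w : ℕ} {A : Finset (ℕ × ℕ)} (hA : A ∈ coreFam N m w) :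
    #A = m ^ 2 := by
  obtain ⟨a, b, d, -, -, hd, -, -, -, rfl⟩ := mem_coreFam.1 hA
  rw [lat, card_image_of_injOn, card_product, card_range, sq]
  rintro ⟨i, j⟩ - ⟨i', j'⟩ - h
  simp only [Prod.mk.injEq] at h
  have h1 : i * d = i' * d := by omega
  have h2 : j * d = j' * d := by omega
  rw [Nat.eq_of_mul_eq_mul_right (by omega) h1, Nat.eq_of_mul_eq_mul_right (by omega) h2]

theorem core_count (N m w : ℕ) : #(coreFam N m w) ≤ N ^ 3 := by
  refine card_image_le.trans ((card_filter_le _ _).trans ?_)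
  rw [card_product, card_product, Nat.card_Icc, Nat.add_sub_cancel]
  exact le_of_eq (by ring)

theorem core_deg (N m w : ℕ) (p : ℕ × ℕ) :
    #((coreFam N m w).filter (fun A => p ∈ A)) ≤ N * m ^ 2 := by
  have hsub : (coreFam N m w).filter (fun A => p ∈ A) ⊆
      (Icc 1 N ×ˢ (range m ×ˢ range m)).image
        (fun t => lat m (p.1 - t.2.1 * t.1) (p.2 - t.2.2 * t.1) t.1) := by
    intro A hA
    rw [mem_filter] at hA
    obtain ⟨a, b, d, -, -, hd, -, -, -, rfl⟩ := mem_coreFam.1 hA.1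
    obtain ⟨i, j, hi, hj, rfl⟩ := Lt.mem_lat.1 hA.2
    refine mem_image.2 ⟨(d, (i, j)), ?_, ?_⟩
    · simp only [mem_product, mem_Icc, mem_range]
      exact ⟨hd, hi, hj⟩
    · simp only [Nat.add_sub_cancel]
  refine (card_le_card hsub).trans (card_image_le.trans ?_)
  rw [card_product, card_product, Nat.card_Icc, Nat.add_sub_cancel, card_range, sq]

theorem core_codeg (N m w : ℕ) {p p' : ℕ × ℕ} (hp : p ≠ p') :
    #((coreFam N m w).filter (fun A => p ∈ A ∧ p' ∈ A)) ≤ (m ^ 2) ^ 2 := by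
  let D : (ℕ × ℕ) × (ℕ × ℕ) → ℕ := fun t =>
    if t.1.1 ≠ t.2.1 then (((p.1 : ℤ) - p'.1) / ((t.1.1 : ℤ) - t.2.1)).toNat
    else (((p.2 : ℤ) - p'.2) / ((t.1.2 : ℤ) - t.2.2)).toNat
  have hsub : (coreFam N m w).filter (fun A => p ∈ A ∧ p' ∈ A) ⊆
      ((range m ×ˢ range m) ×ˢ (range m ×ˢ range m)).image
        (fun t => lat m (p.1 - t.1.1 * D t) (p.2 - t.1.2 * D t) (D t)) := by
    intro A hA
    rw [mem_filter] at hA
    obtain ⟨a, b, d, -, -, hd, -, -, -, rfl⟩ := mem_coreFam.1 hA.1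
    obtain ⟨i, j, hi, hj, hpe⟩ := Lt.mem_lat.1 hA.2.1
    obtain ⟨i', j', hi', hj', hpe'⟩ := Lt.mem_lat.1 hA.2.2
    have hD : D ((i, j), (i', j')) = d := by
      by_cases hii : i = i'
      · have hjj : j ≠ j' := by
          rintro rfl
          exact hp (by rw [hpe, hpe', hii])
        have hz : (j : ℤ) - j' ≠ 0 := by omega
        have he : (p.2 : ℤ) - p'.2 = d * ((j : ℤ) - j') := by
          rw [hpe, hpe']
          push_cast
          ring
        simp only [D, hii, ne_eq, not_true_eq_false, if_false, he, Int.mul_ediv_cancel _ hz,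
          Int.toNat_natCast]
      · have hz : (i : ℤ) - i' ≠ 0 := by omega
        have he : (p.1 : ℤ) - p'.1 = d * ((i : ℤ) - i') := by
          rw [hpe, hpe']
          push_cast
          ring
        simp only [D, hii, ne_eq, not_false_eq_true, if_true, he, Int.mul_ediv_cancel _ hz,
          Int.toNat_natCast]
    refine mem_image.2 ⟨((i, j), (i', j')), ?_, ?_⟩
    · simp only [mem_product, mem_range]
      exact ⟨⟨hi, hj⟩, hi', hj'⟩
    · simp only [hD, hpe, Nat.add_sub_cancel]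
  refine (card_le_card hsub).trans (card_image_le.trans ?_)
  rw [card_product, card_product, card_range, ← sq, ← sq]

end Pool.H68.MB
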