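import Pool.Agent.H68.MB.Turn

/-!
# The potential at the start

At the start `mult ≤ K^R 2^h`.  Singles: `K^R 2^h W k` each.  Hubs with centre `B0`: all valid `σ`
are subsets of `E = {(A, v) : A ∈ F, v ∈ A ∩ B0}`, `#E ≤ k D`; every spoke has weight at most
`x = c K^R 2^h a (k - r t')` (its core has at least `k - r t'` points, `aanti`), so the sum over `σ`
is at most `w0 ∏_{e ∈ E} (1 + x) ≤ w0 exp (k D x) ≤ w0 e ≤ 3 w0`.
Hence `Phi ≤ 1/32`; every price is at most `Phi`, so the invariant holds with `l = Phi`, `v = 1/16`.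
-/

namespace Pool.H68.MB

open Finset
open scoped Classical

variable {X : Type*} [DecidableEq X] {S : Finset X} {F : Finset (Finset X)} {P : Par}
  {k D L R R' : ℕ} {θ τ : ℝ}

theorem st_hot (P : Par) (A : Finset X) : hot P start A = 0 := by
  unfold hot start
  simp

theorem st_K (H : Hyp S F P k D L R R' θ τ) : 1 ≤ P.K := by
  have h1 := H.Kδ
  have h2 := H.δle
  have h3 := H.δpos
  by_contra hK
  push Not at hK
  nlinarith

theorem st_nrel (H : Hyp S F P k D L R R' θ τ) {A : Finset X} (hA : A ∈ F) :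
    nrel F P start A ≤ R := by
  refine le_trans (card_le_card ?_) (H.nrel A hA)
  intro A' hA'
  rw [mem_filter] at hA' ⊢
  exact ⟨hA'.1, hA'.2.1⟩

theorem st_mult_nonneg (H : Hyp S F P k D L R R' θ τ) (s : State X) (A : Finset X) :
    0 ≤ mult F P s A := by
  have hK := st_K H
  unfold mult
  positivity

theorem st_mult (H : Hyp S F P k D L R R' θ τ) {A : Finset X} (hA : A ∈ F) :
    mult F P start A ≤ P.K ^ R * 2 ^ P.h := by
  have hK := st_K H
  unfold mult
  rw [st_hot, Nat.sub_zero]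
  have h1 : P.K ^ nrel F P start A ≤ P.K ^ R := pow_le_pow_right₀ hK (st_nrel H hA)
  gcongr

theorem st_anti (f : ℕ → ℝ) (h : ∀ u, f (u + 1) ≤ f u) {u v : ℕ} (huv : u ≤ v) : f v ≤ f u :=
  antitone_nat_of_succ_le h huv

theorem st_wt_nonneg (H : Hyp S F P k D L R R' θ τ) (s : State X) (A : Finset X) :
    0 ≤ wt F P s A := by
  unfold wt
  split_ifs
  · exact mul_nonneg (st_mult_nonneg H s A) (H.Wpos _).le
  · exact le_rfl

theorem st_wt (H : Hyp S F P k D L R R' θ τ) {A : Finset X} (hA : A ∈ F) :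
    wt F P start A ≤ P.K ^ R * 2 ^ P.h * P.W k := by
  unfold wt
  have h1 : Disjoint A (start : State X).B := disjoint_empty_right A
  have h2 : A \ (start : State X).M = A := sdiff_empty
  rw [if_pos h1, h2, H.card A hA]
  exact mul_le_mul_of_nonneg_right (st_mult H hA) (H.Wpos _).le

theorem st_sw_nonneg (H : Hyp S F P k D L R R' θ τ) (s : State X) (σ : Finset (Spoke X))
    (e : Spoke X) : 0 ≤ sw F P s σ e := by
  have hc := H.c1
  unfold sw
  split_ifs
  · linarith
  · exact mul_nonneg (mul_nonneg (by linarith) (st_mult_nonneg H s e.1)) (H.apos _).le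
  · exact le_rfl

theorem st_wT_nonneg (H : Hyp S F P k D L R R' θ τ) (s : State X) (T : Hub X) :
    0 ≤ wT F P s T := by
  unfold wT
  split_ifs
  · exact mul_nonneg H.w0pos.le (prod_nonneg fun e _ => st_sw_nonneg H s T.2 e)
  · exact le_rfl

theorem st_core (H : Hyp S F P k D L R R' θ τ) {T : Hub X} (hT : ValidHub F P T) {e : Spoke X}
    (he : e ∈ T.2) : k - P.r * P.t' ≤ #(core T.2 e.1) := by
  obtain ⟨-, h2, h3, h4⟩ := hT
  unfold core
  set U := (T.2.filter (fun e' => e'.1 ≠ e.1)).biUnion Prod.fst with hU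
  have h5 : #(e.1 ∩ U) ≤ P.r * P.t' := by
    have h6 : e.1 ∩ U ⊆ (T.2.filter (fun e' => e'.1 ≠ e.1)).biUnion (fun e' => e.1 ∩ e'.1) := by
      intro x hx
      rw [mem_inter, hU, mem_biUnion] at hx
      obtain ⟨hx1, e', he', hx2⟩ := hx
      rw [mem_biUnion]
      exact ⟨e', he', mem_inter.2 ⟨hx1, hx2⟩⟩
    refine (card_le_card h6).trans ?_
    refine (card_biUnion_le_card_mul _ _ P.t' ?_).trans ?_
    · intro e' he'
      rw [mem_filter] at he'
      have hne : e ≠ e' := fun h => he'.2 (by rw [h])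
      exact (h4 e he e' he'.1 hne).2.2.le
    · exact Nat.mul_le_mul_right _ ((card_filter_le _ _).trans h2)
  have h7 : #(e.1 \ U) + #(e.1 ∩ U) = #e.1 := card_sdiff_add_card_inter e.1 U
  have h8 := H.card e.1 (h3 e he).1
  omega

theorem st_sw (H : Hyp S F P k D L R R' θ τ) {T : Hub X} (hT : ValidHub F P T) {e : Spoke X}
    (he : e ∈ T.2) :
    sw F P start T.2 e ≤ P.c * (P.K ^ R * 2 ^ P.h) * P.a (k - P.r * P.t') := by
  have hc := H.c1
  have hK := st_K H
  unfold sw
  have h1 : ¬ (start : State X).St e.2 = some e.1 := by simp [start]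
  have h2 : e.2 ∉ (start : State X).M ∧ Disjoint e.1 (start : State X).B :=
    ⟨notMem_empty _, disjoint_empty_right _⟩
  have h3 : core T.2 e.1 \ (start : State X).M = core T.2 e.1 := sdiff_empty
  rw [if_neg h1, if_pos h2, h3]
  have h4 : P.a #(core T.2 e.1) ≤ P.a (k - P.r * P.t') := st_anti P.a H.aanti (st_core H hT he)
  have h5 := st_mult H (hT.2.2.1 e he).1
  have h6 := st_mult_nonneg H start e.1
  have h7 := (H.apos #(core T.2 e.1)).le
  have h8 : P.c * mult F P start e.1 ≤ P.c * (P.K ^ R * 2 ^ P.h) :=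
    mul_le_mul_of_nonneg_left h5 (by linarith)
  exact mul_le_mul h8 h4 h7 (by positivity)

/-- possible spokes at the hub `B0` -/
noncomputable def stE (S : Finset X) (F : Finset (Finset X)) (B0 : Finset X) :
    Finset (Spoke X) := (F ×ˢ S).filter (fun e => e.2 ∈ e.1 ∧ e.2 ∈ B0)

theorem st_cardE (H : Hyp S F P k D L R R' θ τ) {B0 : Finset X} (hB : B0 ∈ F) :
    #(stE S F B0) ≤ D * k := by
  rw [← H.card B0 hB]
  refine card_le_mul_card_image_of_maps_to (f := Prod.snd) ?_ D ?_
  · intro e he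
    exact (mem_filter.1 he).2.2
  · intro p hp
    refine le_trans (card_le_card_of_injOn Prod.fst ?_ ?_) (H.deg p)
    · intro e he
      have he := mem_filter.1 (mem_coe.1 he)
      have he1 := mem_filter.1 he.1
      rw [mem_coe, mem_filter]
      exact ⟨(mem_product.1 he1.1).1, he.2 ▸ he1.2.1⟩
    · intro e he e' he' h
      have he := mem_filter.1 (mem_coe.1 he)
      have he' := mem_filter.1 (mem_coe.1 he')
      exact Prod.ext h (he.2.trans he'.2.symm)

theorem st_hubsum (H : Hyp S F P k D L R R' θ τ)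
    (h2 : (k : ℝ) * D * (P.c * (P.K ^ R * 2 ^ P.h) * P.a (k - P.r * P.t')) ≤ 1) :
    ∑ T ∈ hubs S F P, wT F P start T ≤ (#F : ℝ) * (3 * P.w0) := by
  set x := P.c * (P.K ^ R * 2 ^ P.h) * P.a (k - P.r * P.t') with hx
  have hc := H.c1
  have hK := st_K H
  have hx0 : 0 ≤ x := mul_nonneg (by positivity) (H.apos _).le
  have hw0 := H.w0pos
  set g : Hub X → ℝ := fun T => if T.2 ⊆ stE S F T.1 then P.w0 * x ^ #T.2 else 0 with hg
  have hg0 : ∀ T, 0 ≤ g T := by
    intro T
    simp only [hg]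
    split_ifs <;> positivity
  have s1 : ∑ T ∈ hubs S F P, wT F P start T ≤ ∑ T ∈ hubs S F P, g T := by
    refine sum_le_sum fun T hT => ?_
    unfold hubs at hT
    rw [mem_filter, mem_product, mem_powerset] at hT
    obtain ⟨⟨hT1, hT2⟩, hT3⟩ := hT
    have hsub : T.2 ⊆ stE S F T.1 := by
      intro e he
      have h3 := hT3.2.2.1 e he
      unfold stE
      rw [mem_filter]
      exact ⟨hT2 he, h3.2.1, h3.2.2.1⟩
    simp only [hg]
    rw [if_pos hsub]
    unfold wT
    have hd : Disjoint T.1 (start : State X).B := disjoint_empty_right _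
    rw [if_pos hd]
    refine mul_le_mul_of_nonneg_left ?_ hw0.le
    rw [← prod_const]
    exact prod_le_prod (fun e _ => st_sw_nonneg H start T.2 e) (fun e he => st_sw H hT3 he)
  have s2 : ∑ T ∈ hubs S F P, g T ≤ ∑ T ∈ F ×ˢ (F ×ˢ S).powerset, g T := by
    unfold hubs
    exact sum_le_sum_of_subset_of_nonneg (filter_subset _ _) (fun T _ _ => hg0 T)
  have s3 : ∑ T ∈ F ×ˢ (F ×ˢ S).powerset, g T = ∑ B0 ∈ F, P.w0 * (1 + x) ^ #(stE S F B0) := by
    rw [sum_product]
    refine sum_congr rfl fun B0 _ => ?_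
    simp only [hg]
    rw [← sum_filter]
    have e1 : (F ×ˢ S).powerset.filter (fun σ => σ ⊆ stE S F B0) = (stE S F B0).powerset := by
      ext σ
      rw [mem_filter, mem_powerset, mem_powerset]
      constructor
      · exact fun h => h.2
      · exact fun h => ⟨h.trans (filter_subset _ _), h⟩
    rw [e1, ← mul_sum]
    congr 1
    have h3 := prod_one_add (s := stE S F B0) (f := fun _ => x)
    rw [prod_const] at h3
    rw [h3]
    refine sum_congr rfl fun σ _ => ?_
    rw [prod_const]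
  have s4 : ∀ B0 ∈ F, P.w0 * (1 + x) ^ #(stE S F B0) ≤ 3 * P.w0 := by
    intro B0 hB
    have h3 : (1 + x) ^ #(stE S F B0) ≤ (1 + x) ^ (D * k) :=
      pow_le_pow_right₀ (by linarith) (st_cardE H hB)
    have h4 : (1 + x) ^ (D * k) ≤ Real.exp x ^ (D * k) := by
      refine pow_le_pow_left₀ (by linarith) ?_ _
      linarith [Real.add_one_le_exp x]
    have h5 : Real.exp x ^ (D * k) = Real.exp ((k : ℝ) * D * x) := by
      rw [← Real.exp_nat_mul]
      congr 1
      push_cast
      ring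
    have h6 : Real.exp ((k : ℝ) * D * x) ≤ Real.exp 1 := Real.exp_le_exp.2 h2
    have h7 := Real.exp_one_lt_d9
    have h8 : (1 + x) ^ #(stE S F B0) ≤ 3 := by
      rw [h5] at h4
      linarith
    nlinarith
  calc _ ≤ _ := s1
    _ ≤ _ := s2
    _ = _ := s3
    _ ≤ ∑ B0 ∈ F, 3 * P.w0 := sum_le_sum s4
    _ = _ := by rw [sum_const, nsmul_eq_mul]

theorem inv_start (H : Hyp S F P k D L R R' θ τ)
    (h1 : (#F : ℝ) * (P.K ^ R * 2 ^ P.h * P.W k + 3 * P.w0) ≤ 1 / 32)
    (h2 : (k : ℝ) * D * (P.c * (P.K ^ R * 2 ^ P.h) * P.a (k - P.r * P.t')) ≤ 1) :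
    Inv S F P start (1 / 16) := by
  have hPhi : Phi S F P start ≤ 1 / 32 := by
    unfold Phi
    have s1 : ∑ A ∈ F, wt F P start A ≤ (#F : ℝ) * (P.K ^ R * 2 ^ P.h * P.W k) := by
      calc _ ≤ ∑ A ∈ F, P.K ^ R * 2 ^ P.h * P.W k := sum_le_sum fun A hA => st_wt H hA
        _ = _ := by rw [sum_const, nsmul_eq_mul]
    have s2 := st_hubsum H h2
    have : (#F : ℝ) * (P.K ^ R * 2 ^ P.h * P.W k + 3 * P.w0) =
        (#F : ℝ) * (P.K ^ R * 2 ^ P.h * P.W k) + (#F : ℝ) * (3 * P.w0) := by ring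
    linarith
  have hPhi0 : 0 ≤ Phi S F P start :=
    add_nonneg (sum_nonneg fun A _ => st_wt_nonneg H start A)
      (sum_nonneg fun T _ => st_wT_nonneg H start T)
  refine ⟨?_, disjoint_empty_left _, Phi S F P start, hPhi0, ?_, by linarith⟩
  · intro v A h
    simp [start] at h
  · intro p _
    unfold phi Phi
    refine add_le_add ?_ ?_
    · exact sum_le_sum_of_subset_of_nonneg (filter_subset _ _)
        (fun A _ _ => st_wt_nonneg H start A)
    · exact sum_le_sum_of_subset_of_nonneg (filter_subset _ _)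
        (fun T _ _ => st_wT_nonneg H start T)

end Pool.H68.MB
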