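import Pool.Agent.H68.MB.Decide
import Pool.Agent.H68.MB.Start

/-!
# Breaker's strategy for the whole game
-/

namespace Pool.H68.MB

open Finset
open scoped Classical

variable {X : Type*} [DecidableEq X] {S : Finset X} {F : Finset (Finset X)} {P : Par}
  {k D L R R' : ℕ} {θ τ : ℝ}

theorem exists_ch (F : Finset (Finset X)) (P : Par) (s : State X) :
    ∃ ch : X → Finset X, ChOK F P s ch := by
  refine ⟨fun v => if h : hotpt F P s v then h.choose else ∅, fun v hv => ?_⟩
  have h := hv.choose_spec
  simp only [hv, dif_pos]
  exact h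

/-- From a position satisfying the invariant Maker cannot win. -/
theorem no_win_aux (H : Hyp S F P k D L R R' θ τ) {M B : Finset X}
    (h : MakerWins S (↑F : Set (Finset X)) M B) :
    ∀ (s : State X) (v : ℝ), s.M = M → s.B = B → Inv S F P s v →
      v + (#(free S s) : ℝ) * (20 * θ) < 1 / 8 → False := by
  have hθ := H.θpos
  -- an alive set has at least three unclaimed points
  have key : ∀ (s : State X) (v : ℝ), Inv S F P s v →
      v + (#(free S s) : ℝ) * (20 * θ) < 1 / 8 → ∀ (A U : Finset X), A ∈ F →
      A ⊆ U ∪ s.M → #U ≤ 2 → Disjoint U s.B → False := by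
    intro s v hI hv A U hA hAU hU hUB
    have hv' : v < 1 / 8 := by
      have : 0 ≤ (#(free S s) : ℝ) * (20 * θ) := by positivity
      linarith
    have hd : Disjoint A s.B := by
      rw [disjoint_left]
      intro p hp hpB
      rcases mem_union.1 (hAU hp) with h1 | h1
      · exact disjoint_left.1 hUB h1 hpB
      · exact disjoint_left.1 hI.2.1 h1 hpB
    have h3 := three_le H hI hv' A hA hd
    have h4 : A \ s.M ⊆ U := by
      intro p hp
      rw [mem_sdiff] at hp
      rcases mem_union.1 (hAU hp.1) with h1 | h1
      · exact h1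
      · exact absurd h1 hp.2
    have h5 := card_le_card h4
    omega
  induction h with
  | owned A hA hAM =>
    rintro s v rfl rfl hI hv
    refine key s v hI hv A ∅ hA ?_ (by simp) (by simp)
    rw [empty_union]
    exact hAM
  | last y hy A hA hAM =>
    rintro s v rfl rfl hI hv
    refine key s v hI hv A {y} hA ?_ (by simp) ?_
    · intro p hp
      have := hAM hp
      simpa [or_comm] using this
    · have h1 : y ∈ S \ (s.M ∪ s.B) := by rw [hy]; simp
      simp only [mem_sdiff, mem_union, not_or] at h1
      simpa using h1.2.2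
  | finish y z hyz hy hz A hA hAM =>
    rintro s v rfl rfl hI hv
    simp only [mem_sdiff, mem_union, not_or] at hy hz
    refine key s v hI hv A {y, z} hA ?_ card_le_two ?_
    · intro p hp
      have := hAM hp
      simp only [mem_insert] at this
      simp only [mem_union, mem_insert, mem_singleton]
      tauto
    · rw [disjoint_left]
      intro p hp
      simp only [mem_insert, mem_singleton] at hp
      rcases hp with rfl | rfl
      · exact hy.2.2
      · exact hz.2.2
  | move y z hyz hy hz hfree _ ih =>
    rintro s v rfl rfl hI hv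
    obtain ⟨ch, hch⟩ := exists_ch F P s
    have hv' : v < 1 / 8 := by
      have : 0 ≤ (#(free S s) : ℝ) * (20 * θ) := by positivity
      linarith
    obtain ⟨x, hx, hI'⟩ := turn H hI hv' hch hyz hy hz hfree
    refine ih x hx (afterB (afterM F P s ch y z) x) (v + 20 * θ) rfl rfl hI' ?_
    have hsub : free S (afterB (afterM F P s ch y z) x) ⊂ free S s := by
      rw [ssubset_iff_of_subset]
      · refine ⟨y, hy, ?_⟩
        simp [free, afterB, afterM]
      · intro p hp
        exact (free_afterM (free_after hp)).1
    have hc : (#(free S (afterB (afterM F P s ch y z) x)) : ℝ) + 1 ≤ #(free S s) := by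
      exact_mod_cast card_lt_card hsub
    have : ((#(free S (afterB (afterM F P s ch y z) x)) : ℝ) + 1) * (20 * θ) ≤
        #(free S s) * (20 * θ) := mul_le_mul_of_nonneg_right hc (by positivity)
    linarith

theorem no_win (H : Hyp S F P k D L R R' θ τ)
    (h1 : (#F : ℝ) * (P.K ^ R * 2 ^ P.h * P.W k + 3 * P.w0) ≤ 1 / 32)
    (h2 : (k : ℝ) * D * (P.c * (P.K ^ R * 2 ^ P.h) * P.a (k - P.r * P.t')) ≤ 1)
    (h3 : (#S : ℝ) * (20 * θ) ≤ 1 / 32) :
    ¬ MakerWins S (↑F : Set (Finset X)) ∅ ∅ := by
  intro hw
  refine no_win_aux H hw start (1 / 16) rfl rfl (inv_start H h1 h2) ?_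
  have h4 : free S (start : State X) = S := by simp [free, start]
  rw [h4]
  linarith

end Pool.H68.MB
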