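import Pool.Agent.H68.MB.Defs

/-!
# One turn of the (2:1) game: definitions
-/

namespace Pool.H68.MB

open Finset
open scoped Classical

variable {X : Type*} [DecidableEq X]

/-- `v` lies in an alive hot set. -/
def hotpt (F : Finset (Finset X)) (P : Par) (s : State X) (v : X) : Prop :=
  ∃ A ∈ F, Disjoint A s.B ∧ ¬ nonhot P s A ∧ v ∈ A

/-- `ch` chooses an alive hot set through every hot point. -/
def ChOK (F : Finset (Finset X)) (P : Par) (s : State X) (ch : X → Finset X) : Prop :=
  ∀ v, hotpt F P s v → ch v ∈ F ∧ Disjoint (ch v) s.B ∧ ¬ nonhot P s (ch v) ∧ v ∈ ch v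

/-- The state after Maker has claimed `y` and `z`. -/
noncomputable def afterM (F : Finset (Finset X)) (P : Par) (s : State X) (ch : X → Finset X)
    (y z : X) : State X where
  M := insert y (insert z s.M)
  B := s.B
  St := fun v => if v = y ∨ v = z then (if hotpt F P s v then some (ch v) else none) else s.St v

/-- The state after Breaker has claimed `x`. -/
def afterB (s : State X) (x : X) : State X := ⟨s.M, insert x s.B, s.St⟩

/-- `T` is of cold type at `v` (`s` before, `s1` after Maker's move). -/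
def CT (P : Par) (s s1 : State X) (v : X) (T : Hub X) : Prop :=
  ∃ e ∈ T.2, unf s1 e ∧ v ∈ core T.2 e.1 ∧ P.j2 < #(core T.2 e.1 \ s.M)

/-- `T` is of warm type at `v`. -/
def WmT (P : Par) (s s1 : State X) (v : X) (T : Hub X) : Prop :=
  ∃ e ∈ T.2, unf s1 e ∧ v ∈ core T.2 e.1 ∧ P.j1 < #(core T.2 e.1 \ s.M) ∧
    #(core T.2 e.1 \ s.M) ≤ P.j2

/-- `T` is in the class of `ch v` at `v`. -/
def RT (P : Par) (s1 : State X) (ch : X → Finset X) (v : X) (T : Hub X) : Prop :=
  ∃ e ∈ T.2, unf s1 e ∧ v ∈ core T.2 e.1 ∧ (e.1 = ch v ∨ rel P e.1 (ch v))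

/-- The single set `A` is in the class of `ch v` at `v`. -/
def RS (P : Par) (ch : X → Finset X) (v : X) (A : Finset X) : Prop :=
  v ∈ A ∧ (A = ch v ∨ rel P A (ch v))

/-- Growth bound of hub structures at `v`. -/
noncomputable def rhoT (F : Finset (Finset X)) (P : Par) (s s1 : State X) (ch : X → Finset X)
    (v : X) (T : Hub X) : ℝ :=
  if hotpt F P s v then (if RT P s1 ch v T then 3 / 2 - P.δ else 1)
  else (if CT P s s1 v T then 3 / 2 - P.δ else if WmT P s s1 v T then 4 / 3 else 1)

/-- Growth bound of single sets at `v`. -/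
noncomputable def rhoS (F : Finset (Finset X)) (P : Par) (s : State X) (ch : X → Finset X)
    (v : X) (A : Finset X) : ℝ :=
  if v ∉ A then 1
  else if hotpt F P s v then (if RS P ch v A then 2 - P.δ else 1)
  else 3 / 2 - P.δ

/-- The starting state. -/
def start : State X := ⟨∅, ∅, fun _ => none⟩

end Pool.H68.MB
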